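import Mathlib
import Pool.Agent.H13.W.Move

set_option autoImplicit false
open Finset

/-! # Symmetries of the tile frame

`sw` : the reflection `(x,y) ↦ (x,-1-y)` of the tile frame, `(c1,c2) ↦ (c2,c1)` on labels and corners; state
kept, south and north exchanged, `up` and `dn` exchanged.
`tr a b` with `a + b` even: a translation of the tile frame; state kept if `a`, `b` are even, flipped if they
are odd (`rt = tr 1 1` : one unit to the right, `up = tr (-1) 1`).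
`rvL`, `rvC` : the reflection `(x,y) ↦ (-x,y)` of the tile frame (labels resp. corners); state kept, west and
east exchanged.
`DownMove` : the mirror image of `StripMove`. -/

namespace Pool.Agent.H45.W

open Pool.Agent.H75.Perc Pool.Agent.H75.TwoArm Pool.Agent.H99.W Pool.Agent.H13.W

/-! ### isomorphisms of strand graphs -/

section iso
variable {α : Type*} {G G' : SimpleGraph α} {κ : α → α}

lemma reach_of_map (h : ∀ c d, G.Adj c d → G'.Adj (κ c) (κ d)) {c d : α}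
    (hr : G.Reachable c d) : G'.Reachable (κ c) (κ d) := by
  obtain ⟨p⟩ := hr
  induction p with
  | nil => exact SimpleGraph.Reachable.refl _
  | cons ha _ ih => exact (h _ _ ha).reachable.trans ih

lemma reach_iff_of_inv (h : ∀ c d, G.Adj c d → G'.Adj (κ c) (κ d)) {κ' : α → α}
    (h' : ∀ c d, G'.Adj c d → G.Adj (κ' c) (κ' d)) (hi : ∀ c, κ' (κ c) = c) {c d : α} :
    G'.Reachable (κ c) (κ d) ↔ G.Reachable c d := by
  constructor
  · intro hr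
    have := reach_of_map h' hr
    rwa [hi, hi] at this
  · exact reach_of_map h

lemma isEnd_of_map (h : ∀ c d, G.Adj c d → G'.Adj (κ c) (κ d)) (hk : Function.Injective κ) {c : α}
    (he : IsEnd G' (κ c)) : IsEnd G c :=
  fun a b ha hb => hk (he (κ a) (κ b) (h _ _ ha) (h _ _ hb))

end iso

variable {Λ D Λ' D' : Set (ℤ × ℤ)} {w w' : Finset (ℤ × ℤ)} {e c d : ℤ × ℤ}

/-! ### the swap -/

/-- the reflection `(x,y) ↦ (x,-1-y)` of the tile frame -/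
def sw (c : ℤ × ℤ) : ℤ × ℤ := (c.2, c.1)

@[simp] lemma sw_sw (c : ℤ × ℤ) : sw (sw c) = c := rfl

lemma sw_inj {a b : ℤ × ℤ} (h : sw a = sw b) : a = b := by
  have := congrArg sw h
  simpa using this

lemma sw_injective : Function.Injective sw := fun _ _ h => sw_inj h

lemma sw_eq_iff {a b : ℤ × ℤ} : sw a = b ↔ a = sw b :=
  ⟨fun h => by rw [← h, sw_sw], fun h => by rw [h, sw_sw]⟩

/-- the swap as an embedding -/
def swE : (ℤ × ℤ) ↪ (ℤ × ℤ) := ⟨sw, sw_injective⟩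

/-- image of a set under the swap -/
def swS (A : Set (ℤ × ℤ)) : Set (ℤ × ℤ) := {e | sw e ∈ A}

/-- image of a finite set under the swap -/
def swF (A : Finset (ℤ × ℤ)) : Finset (ℤ × ℤ) := A.map swE

@[simp] lemma mem_swS {A : Set (ℤ × ℤ)} : e ∈ swS A ↔ sw e ∈ A := Iff.rfl

@[simp] lemma mem_swF {A : Finset (ℤ × ℤ)} : e ∈ swF A ↔ sw e ∈ A := by
  unfold swF
  rw [Finset.mem_map]
  constructor
  · rintro ⟨a, ha, rfl⟩
    exact ha
  · intro h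
    exact ⟨sw e, h, rfl⟩

@[simp] lemma swS_swS (A : Set (ℤ × ℤ)) : swS (swS A) = A := rfl

@[simp] lemma swF_swF (A : Finset (ℤ × ℤ)) : swF (swF A) = A := by
  ext e; simp

lemma swS_coe (A : Finset (ℤ × ℤ)) : swS (↑A : Set (ℤ × ℤ)) = ↑(swF A) := by
  ext e; simp

@[simp] lemma swS_diff (A B : Set (ℤ × ℤ)) : swS (A \ B) = swS A \ swS B := rfl

@[simp] lemma swS_union (A B : Set (ℤ × ℤ)) : swS (A ∪ B) = swS A ∪ swS B := rfl

@[simp] lemma swS_inter (A B : Set (ℤ × ℤ)) : swS (A ∩ B) = swS A ∩ swS B := rfl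

lemma swF_subset {A B : Finset (ℤ × ℤ)} : swF A ⊆ swF B ↔ A ⊆ B := by
  unfold swF
  exact Finset.map_subset_map

lemma card_swF (A : Finset (ℤ × ℤ)) : (swF A).card = A.card := Finset.card_map _

lemma lab_sw (c : ℤ × ℤ) : lab (sw c) = sw (plab c) := by
  obtain ⟨a, b⟩ := c
  unfold lab plab sw
  rcases Int.emod_two_eq_zero_or_one a with h | h <;>
    rcases Int.emod_two_eq_zero_or_one b with h' | h' <;> simp [h, h']

lemma plab_sw (c : ℤ × ℤ) : plab (sw c) = sw (lab c) := by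
  obtain ⟨a, b⟩ := c
  unfold lab plab sw
  rcases Int.emod_two_eq_zero_or_one a with h | h <;>
    rcases Int.emod_two_eq_zero_or_one b with h' | h' <;> simp [h, h']

lemma eW_sw (e : ℤ × ℤ) : eW (sw e) = sw (eW e) := rfl
lemma eE_sw (e : ℤ × ℤ) : eE (sw e) = sw (eE e) := rfl
lemma eS_sw (e : ℤ × ℤ) : eS (sw e) = sw (eN e) := rfl
lemma eN_sw (e : ℤ × ℤ) : eN (sw e) = sw (eS e) := rfl
lemma up_sw (e : ℤ × ℤ) : up (sw e) = sw (dn e) := rfl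
lemma dn_sw (e : ℤ × ℤ) : dn (sw e) = sw (up e) := rfl

@[simp] lemma up_dn (c : ℤ × ℤ) : up (dn c) = c := by
  unfold up dn; simp

@[simp] lemma dn_up (c : ℤ × ℤ) : dn (up c) = c := by
  unfold up dn; simp

lemma dn_inj {a b : ℤ × ℤ} (h : dn a = dn b) : a = b := by
  have := congrArg up h
  simpa using this

lemma dn_eN (e : ℤ × ℤ) : dn (eN e) = eS e := by
  unfold eN dn eS; simp

lemma Sd_sw {e c : ℤ × ℤ} : Sd (sw e) (sw c) ↔ Sd e c := by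
  unfold Sd
  rw [eW_sw, eE_sw, eS_sw, eN_sw, sw_injective.eq_iff, sw_injective.eq_iff, sw_injective.eq_iff,
    sw_injective.eq_iff]
  tauto

/-- the exploration map and the reversal: a state preserving reflection exchanges `nx` and `pv` -/
lemma nxO_sw (c : ℤ × ℤ) : nxO (sw (nxO c)) = sw c := by
  obtain ⟨a, b⟩ := c
  unfold sw nxO
  rcases Int.emod_two_eq_zero_or_one a with h | h <;>
    rcases Int.emod_two_eq_zero_or_one b with h' | h'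
  · have h2 : (b - 1) % 2 = 1 := by omega
    simp [h, h', h2]
  · have h1 : (a - 1) % 2 = 1 := by omega
    simp [h, h', h1]
  · have h1 : (a + 1) % 2 = 0 := by omega
    simp [h, h', h1]
  · have h2 : (b + 1) % 2 = 0 := by omega
    simp [h, h', h2]

lemma nxC_sw (c : ℤ × ℤ) : nxC (sw (nxC c)) = sw c := by
  obtain ⟨a, b⟩ := c
  unfold sw nxC
  rcases Int.emod_two_eq_zero_or_one a with h | h <;>
    rcases Int.emod_two_eq_zero_or_one b with h' | h'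
  · have h1 : (a + 1) % 2 = 1 := by omega
    simp [h, h', h1]
  · have h2 : (b - 1) % 2 = 0 := by omega
    simp [h, h', h2]
  · have h2 : (b + 1) % 2 = 1 := by omega
    simp [h, h', h2]
  · have h1 : (a - 1) % 2 = 0 := by omega
    simp [h, h', h1]

/-- **a tile under the swap** (state kept) -/
lemma TJ.sw (hD : W.sw e ∈ D' ↔ e ∈ D) (hw : e ∉ D → (W.sw e ∈ w' ↔ e ∈ w)) (h : TJ D w e c d) :
    TJ D' w' (W.sw e) (W.sw c) (W.sw d) := by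
  have key : ∀ {c d : ℤ × ℤ}, e ∉ D → lab c = e → nx w c = d →
      lab (W.sw d) = W.sw e ∧ nx w' (W.sw d) = W.sw c := by
    intro c d he0 hc hd
    have h1 : lab (W.sw d) = W.sw e := by
      rw [lab_sw, ← hd, SymmAux.plab_nx', hc]
    refine ⟨h1, ?_⟩
    unfold nx at hd ⊢
    rw [h1]
    rw [hc] at hd
    by_cases he : e ∈ w
    · rw [if_pos he] at hd
      rw [if_pos ((hw he0).2 he), ← hd, nxO_sw]
    · rw [if_neg he] at hd
      rw [if_neg (fun h => he ((hw he0).1 h)), ← hd, nxC_sw]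
  rcases h with ⟨h, h0, h1⟩ | ⟨h, h1⟩
  · refine Or.inl ⟨hD.2 h, ?_, ?_⟩
    · show (e.2 + e.1) % 2 = 1
      omega
    · rw [eS_sw, eN_sw]
      rcases h1 with ⟨rfl, rfl⟩ | ⟨rfl, rfl⟩
      · exact Or.inr ⟨rfl, rfl⟩
      · exact Or.inl ⟨rfl, rfl⟩
  · refine Or.inr ⟨fun h' => h (hD.1 h'), ?_⟩
    rcases h1 with h1 | h1
    · exact Or.inr (key h h1.1 h1.2)
    · exact Or.inl (key h h1.1 h1.2)

theorem TJ_sw : TJ (swS D) (swF w) (sw e) (sw c) (sw d) ↔ TJ D w e c d := by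
  constructor
  · intro h
    have := TJ.sw (D' := D) (w' := w) (by simp) (by simp) h
    simpa using this
  · exact fun h => TJ.sw (by simp) (by simp) h

/-- a variant: the label, the corners of the swapped world -/
theorem TJ_sw' : TJ (swS D) (swF w) e c d ↔ TJ D w (sw e) (sw c) (sw d) := by
  rw [← TJ_sw (D := D) (w := w), sw_sw, sw_sw, sw_sw]

theorem SG_sw : (SG (swS Λ) (swS D) (swF w)).Adj (sw c) (sw d) ↔ (SG Λ D w).Adj c d := by
  rw [SG_adj, SG_adj]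
  constructor
  · rintro ⟨e, he, h⟩
    rw [TJ_sw', sw_sw, sw_sw] at h
    exact ⟨sw e, he, h⟩
  · rintro ⟨e, he, h⟩
    exact ⟨sw e, by simpa using he, TJ_sw.2 h⟩

theorem reach_sw : (SG (swS Λ) (swS D) (swF w)).Reachable (sw c) (sw d) ↔
    (SG Λ D w).Reachable c d := by
  refine reach_iff_of_inv (κ := sw) (κ' := sw) (fun _ _ h => SG_sw.2 h) (fun a b h => ?_) sw_sw
  rw [← SG_sw]
  simpa using h

theorem reach_sw' : (SG (swS Λ) (swS D) (swF w)).Reachable c d ↔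
    (SG Λ D w).Reachable (sw c) (sw d) := by
  rw [← reach_sw (c := sw c) (d := sw d), sw_sw, sw_sw]

theorem isEnd_sw : IsEnd (SG (swS Λ) (swS D) (swF w)) (sw c) ↔ IsEnd (SG Λ D w) c := by
  constructor
  · exact isEnd_of_map (fun _ _ h => SG_sw.2 h) sw_injective
  · intro h
    refine isEnd_of_map (G' := SG Λ D w) (κ := sw) (fun a b h => ?_) sw_injective (by simpa using h)
    rw [← SG_sw]
    simpa using h

theorem isEnd_sw' : IsEnd (SG (swS Λ) (swS D) (swF w)) c ↔ IsEnd (SG Λ D w) (sw c) := by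
  rw [← isEnd_sw (c := sw c), sw_sw]

/-! ### translations -/

/-- translation of labels and corners -/
def tr (a b : ℤ) (c : ℤ × ℤ) : ℤ × ℤ := (c.1 + a, c.2 + b)

@[simp] lemma tr_tr (a b a' b' : ℤ) (c : ℤ × ℤ) : tr a b (tr a' b' c) = tr (a' + a) (b' + b) c := by
  unfold tr; simp [add_assoc]

@[simp] lemma tr_zero (c : ℤ × ℤ) : tr 0 0 c = c := by
  unfold tr; simp

lemma tr_neg (a b : ℤ) (c : ℤ × ℤ) : tr (-a) (-b) (tr a b c) = c := by simp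

lemma tr_neg' (a b : ℤ) (c : ℤ × ℤ) : tr a b (tr (-a) (-b) c) = c := by simp

lemma tr_injective (a b : ℤ) : Function.Injective (tr a b) := by
  intro x y h
  have := congrArg (tr (-a) (-b)) h
  rwa [tr_neg, tr_neg] at this

lemma up_eq_tr (c : ℤ × ℤ) : up c = tr (-1) 1 c := rfl

lemma dn_eq_tr (c : ℤ × ℤ) : dn c = tr 1 (-1) c := rfl

/-- one unit to the right in the tile frame -/
def rt (c : ℤ × ℤ) : ℤ × ℤ := (c.1 + 1, c.2 + 1)

/-- one unit to the left in the tile frame -/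
def lf (c : ℤ × ℤ) : ℤ × ℤ := (c.1 - 1, c.2 - 1)

lemma rt_eq_tr (c : ℤ × ℤ) : rt c = tr 1 1 c := rfl

lemma lf_eq_tr (c : ℤ × ℤ) : lf c = tr (-1) (-1) c := rfl

@[simp] lemma rt_lf (c : ℤ × ℤ) : rt (lf c) = c := by unfold rt lf; simp
@[simp] lemma lf_rt (c : ℤ × ℤ) : lf (rt c) = c := by unfold rt lf; simp

lemma eW_rt (e : ℤ × ℤ) : eW (rt e) = eE e := rfl
lemma eE_eq_rt (e : ℤ × ℤ) : eE e = rt (eW e) := rfl

/-- embedding of a translation -/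
def trE (a b : ℤ) : (ℤ × ℤ) ↪ (ℤ × ℤ) := ⟨tr a b, tr_injective a b⟩

/-- translated set -/
def trS (a b : ℤ) (A : Set (ℤ × ℤ)) : Set (ℤ × ℤ) := {e | tr (-a) (-b) e ∈ A}

/-- translated finite set -/
def trF (a b : ℤ) (A : Finset (ℤ × ℤ)) : Finset (ℤ × ℤ) := A.map (trE a b)

@[simp] lemma mem_trS {a b : ℤ} {A : Set (ℤ × ℤ)} : e ∈ trS a b A ↔ tr (-a) (-b) e ∈ A := Iff.rfl

@[simp] lemma mem_trF {a b : ℤ} {A : Finset (ℤ × ℤ)} : e ∈ trF a b A ↔ tr (-a) (-b) e ∈ A := by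
  unfold trF
  rw [Finset.mem_map]
  constructor
  · rintro ⟨x, hx, rfl⟩
    show tr (-a) (-b) (tr a b x) ∈ A
    rwa [tr_neg]
  · intro h
    exact ⟨_, h, tr_neg' a b e⟩

lemma tr_mem_trS {a b : ℤ} {A : Set (ℤ × ℤ)} : tr a b e ∈ trS a b A ↔ e ∈ A := by
  rw [mem_trS, tr_neg]

lemma tr_mem_trF {a b : ℤ} {A : Finset (ℤ × ℤ)} : tr a b e ∈ trF a b A ↔ e ∈ A := by
  rw [mem_trF, tr_neg]

lemma eW_tr (a b : ℤ) (e : ℤ × ℤ) : eW (tr a b e) = tr a b (eW e) := rfl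
lemma eE_tr (a b : ℤ) (e : ℤ × ℤ) : eE (tr a b e) = tr a b (eE e) := by
  unfold eE tr; exact Prod.ext (by simp only; omega) (by simp only; omega)
lemma eS_tr (a b : ℤ) (e : ℤ × ℤ) : eS (tr a b e) = tr a b (eS e) := by
  unfold eS tr; exact Prod.ext (by simp only; omega) (by simp only)
lemma eN_tr (a b : ℤ) (e : ℤ × ℤ) : eN (tr a b e) = tr a b (eN e) := by
  unfold eN tr; exact Prod.ext (by simp only) (by simp only; omega)

lemma Sd_tr {a b : ℤ} {e c : ℤ × ℤ} : Sd (tr a b e) (tr a b c) ↔ Sd e c := by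
  unfold Sd
  rw [eW_tr, eE_tr, eS_tr, eN_tr, (tr_injective a b).eq_iff, (tr_injective a b).eq_iff,
    (tr_injective a b).eq_iff, (tr_injective a b).eq_iff]

lemma lab_tr_even {a b : ℤ} (ha : a % 2 = 0) (hb : b % 2 = 0) (c : ℤ × ℤ) :
    lab (tr a b c) = tr a b (lab c) := by
  obtain ⟨x, y⟩ := c
  have h1 : (x + a) % 2 = x % 2 := by omega
  have h2 : (y + b) % 2 = y % 2 := by omega
  unfold lab tr
  simp only [h1, h2]
  split_ifs <;> (refine Prod.ext ?_ ?_ <;> simp only <;> omega)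

lemma plab_tr_even {a b : ℤ} (ha : a % 2 = 0) (hb : b % 2 = 0) (c : ℤ × ℤ) :
    plab (tr a b c) = tr a b (plab c) := by
  obtain ⟨x, y⟩ := c
  have h1 : (x + a) % 2 = x % 2 := by omega
  have h2 : (y + b) % 2 = y % 2 := by omega
  unfold plab tr
  simp only [h1, h2]
  split_ifs <;> (refine Prod.ext ?_ ?_ <;> simp only <;> omega)

lemma nxO_tr_even {a b : ℤ} (ha : a % 2 = 0) (hb : b % 2 = 0) (c : ℤ × ℤ) :
    nxO (tr a b c) = tr a b (nxO c) := by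
  obtain ⟨x, y⟩ := c
  have h1 : (x + a) % 2 = x % 2 := by omega
  have h2 : (y + b) % 2 = y % 2 := by omega
  unfold nxO tr
  simp only [h1, h2]
  split_ifs <;> (refine Prod.ext ?_ ?_ <;> simp only <;> omega)

lemma nxC_tr_even {a b : ℤ} (ha : a % 2 = 0) (hb : b % 2 = 0) (c : ℤ × ℤ) :
    nxC (tr a b c) = tr a b (nxC c) := by
  obtain ⟨x, y⟩ := c
  have h1 : (x + a) % 2 = x % 2 := by omega
  have h2 : (y + b) % 2 = y % 2 := by omega
  unfold nxC tr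
  simp only [h1, h2]
  split_ifs <;> (refine Prod.ext ?_ ?_ <;> simp only <;> omega)

lemma lab_tr_odd {a b : ℤ} (ha : a % 2 = 1) (hb : b % 2 = 1) (c : ℤ × ℤ) :
    lab (tr a b c) = tr a b (plab c) := by
  obtain ⟨x, y⟩ := c
  unfold lab plab tr
  simp only
  split_ifs <;> first | (exfalso; omega) | (refine Prod.ext ?_ ?_ <;> simp only <;> omega)

lemma plab_tr_odd {a b : ℤ} (ha : a % 2 = 1) (hb : b % 2 = 1) (c : ℤ × ℤ) :
    plab (tr a b c) = tr a b (lab c) := by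
  obtain ⟨x, y⟩ := c
  unfold lab plab tr
  simp only
  split_ifs <;> first | (exfalso; omega) | (refine Prod.ext ?_ ?_ <;> simp only <;> omega)

lemma nxC_tr_odd {a b : ℤ} (ha : a % 2 = 1) (hb : b % 2 = 1) (c : ℤ × ℤ) :
    nxC (tr a b (nxO c)) = tr a b c := by
  obtain ⟨x, y⟩ := c
  unfold nxO nxC tr
  simp only
  split_ifs <;> first | (exfalso; omega) | (refine Prod.ext ?_ ?_ <;> simp only <;> omega)

lemma nxO_tr_odd {a b : ℤ} (ha : a % 2 = 1) (hb : b % 2 = 1) (c : ℤ × ℤ) :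
    nxO (tr a b (nxC c)) = tr a b c := by
  obtain ⟨x, y⟩ := c
  unfold nxO nxC tr
  simp only
  split_ifs <;> first | (exfalso; omega) | (refine Prod.ext ?_ ?_ <;> simp only <;> omega)

/-- **a tile under an even translation** (state kept) -/
lemma TJ.tr_even {a b : ℤ} (ha : a % 2 = 0) (hb : b % 2 = 0) (hD : tr a b e ∈ D' ↔ e ∈ D)
    (hw : e ∉ D → (tr a b e ∈ w' ↔ e ∈ w)) (h : TJ D w e c d) :
    TJ D' w' (tr a b e) (tr a b c) (tr a b d) := by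
  have key : ∀ {c d : ℤ × ℤ}, e ∉ D → lab c = e → nx w c = d →
      lab (tr a b c) = tr a b e ∧ nx w' (tr a b c) = tr a b d := by
    intro c d he0 hc hd
    have h1 : lab (tr a b c) = tr a b e := by rw [lab_tr_even ha hb, hc]
    refine ⟨h1, ?_⟩
    unfold nx at hd ⊢
    rw [h1]
    rw [hc] at hd
    by_cases he : e ∈ w
    · rw [if_pos he] at hd
      rw [if_pos ((hw he0).2 he), ← hd, nxO_tr_even ha hb]
    · rw [if_neg he] at hd
      rw [if_neg (fun h => he ((hw he0).1 h)), ← hd, nxC_tr_even ha hb]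
  rcases h with ⟨h, h0, h1⟩ | ⟨h, h1⟩
  · refine Or.inl ⟨hD.2 h, ?_, ?_⟩
    · show (e.1 + a + (e.2 + b)) % 2 = 1
      omega
    · rw [eS_tr, eN_tr]
      rcases h1 with ⟨rfl, rfl⟩ | ⟨rfl, rfl⟩
      · exact Or.inl ⟨rfl, rfl⟩
      · exact Or.inr ⟨rfl, rfl⟩
  · refine Or.inr ⟨fun h' => h (hD.1 h'), ?_⟩
    rcases h1 with h1 | h1
    · exact Or.inl (key h h1.1 h1.2)
    · exact Or.inr (key h h1.1 h1.2)

/-- **a tile under an odd translation** (state flipped) -/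
lemma TJ.tr_odd {a b : ℤ} (ha : a % 2 = 1) (hb : b % 2 = 1) (hD : tr a b e ∈ D' ↔ e ∈ D)
    (hw : e ∉ D → (tr a b e ∈ w' ↔ e ∉ w)) (h : TJ D w e c d) :
    TJ D' w' (tr a b e) (tr a b c) (tr a b d) := by
  have key : ∀ {c d : ℤ × ℤ}, e ∉ D → lab c = e → nx w c = d →
      lab (tr a b d) = tr a b e ∧ nx w' (tr a b d) = tr a b c := by
    intro c d he0 hc hd
    have h1 : lab (tr a b d) = tr a b e := by
      rw [lab_tr_odd ha hb, ← hd, SymmAux.plab_nx', hc]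
    refine ⟨h1, ?_⟩
    unfold nx at hd ⊢
    rw [h1]
    rw [hc] at hd
    by_cases he : e ∈ w
    · rw [if_pos he] at hd
      rw [if_neg (fun h => ((hw he0).1 h) he), ← hd, nxC_tr_odd ha hb]
    · rw [if_neg he] at hd
      rw [if_pos ((hw he0).2 he), ← hd, nxO_tr_odd ha hb]
  rcases h with ⟨h, h0, h1⟩ | ⟨h, h1⟩
  · refine Or.inl ⟨hD.2 h, ?_, ?_⟩
    · show (e.1 + a + (e.2 + b)) % 2 = 1
      omega
    · rw [eS_tr, eN_tr]
      rcases h1 with ⟨rfl, rfl⟩ | ⟨rfl, rfl⟩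
      · exact Or.inl ⟨rfl, rfl⟩
      · exact Or.inr ⟨rfl, rfl⟩
  · refine Or.inr ⟨fun h' => h (hD.1 h'), ?_⟩
    rcases h1 with h1 | h1
    · exact Or.inr (key h h1.1 h1.2)
    · exact Or.inl (key h h1.1 h1.2)

/-- **a tile under one step down** (state flipped) -/
lemma TJ.dn (hD : e ∉ D) (hD' : H13.W.dn e ∉ D') (hw : H13.W.dn e ∈ w' ↔ e ∉ w)
    (h : TJ D w e c d) : TJ D' w' (H13.W.dn e) (H13.W.dn c) (H13.W.dn d) :=
  TJ.tr_odd (a := 1) (b := -1) (by norm_num) (by norm_num)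
    ⟨fun h => absurd h hD', fun h => absurd h hD⟩ (fun _ => hw) h

/-- **a tile under one step to the right** (state flipped) -/
lemma TJ.rt (hD : W.rt e ∈ D' ↔ e ∈ D) (hw : e ∉ D → (W.rt e ∈ w' ↔ e ∉ w)) (h : TJ D w e c d) :
    TJ D' w' (W.rt e) (W.rt c) (W.rt d) :=
  TJ.tr_odd (a := 1) (b := 1) (by norm_num) (by norm_num) hD hw h

/-- **a tile under one step to the left** (state flipped) -/
lemma TJ.lf (hD : W.lf e ∈ D' ↔ e ∈ D) (hw : e ∉ D → (W.lf e ∈ w' ↔ e ∉ w)) (h : TJ D w e c d) :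
    TJ D' w' (W.lf e) (W.lf c) (W.lf d) :=
  TJ.tr_odd (a := -1) (b := -1) (by norm_num) (by norm_num) hD hw h

/-! ### the strand graph under a bijection of labels and corners -/

/-- `SymPair φ κ` transports every tile of `Λ` : world `(Λ, D, w)` is mapped onto `(Λ', D', w')`. -/
structure SymPair (φ κ : ℤ × ℤ → ℤ × ℤ) (Λ D : Set (ℤ × ℤ)) (w : Finset (ℤ × ℤ))
    (Λ' D' : Set (ℤ × ℤ)) (w' : Finset (ℤ × ℤ)) : Prop where
  inj : Function.Injective κ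
  fwd : ∀ e ∈ Λ, φ e ∈ Λ'
  bwd : ∀ e' ∈ Λ', ∃ e ∈ Λ, φ e = e'
  srj : ∀ c, ∃ c0, κ c0 = c
  tj : ∀ e ∈ Λ, ∀ c d, TJ D w e c d ↔ TJ D' w' (φ e) (κ c) (κ d)

lemma SymPair.adj {φ κ : ℤ × ℤ → ℤ × ℤ} (P : SymPair φ κ Λ D w Λ' D' w') {c d : ℤ × ℤ} :
    (SG Λ' D' w').Adj (κ c) (κ d) ↔ (SG Λ D w).Adj c d := by
  rw [SG_adj, SG_adj]
  constructor
  · rintro ⟨e', he', h⟩
    obtain ⟨e, he, rfl⟩ := P.bwd e' he'
    exact ⟨e, he, (P.tj e he c d).2 h⟩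
  · rintro ⟨e, he, h⟩
    exact ⟨φ e, P.fwd e he, (P.tj e he c d).1 h⟩

lemma SymPair.reach {φ κ : ℤ × ℤ → ℤ × ℤ} (P : SymPair φ κ Λ D w Λ' D' w') {c d : ℤ × ℤ} :
    (SG Λ' D' w').Reachable (κ c) (κ d) ↔ (SG Λ D w).Reachable c d := by
  choose κ' hκ' using P.srj
  refine reach_iff_of_inv (κ := κ) (κ' := κ') (fun _ _ h => P.adj.2 h) (fun a b h => ?_)
    (fun c => P.inj (hκ' _))
  rw [← P.adj, hκ', hκ']
  exact h

lemma SymPair.isEnd {φ κ : ℤ × ℤ → ℤ × ℤ} (P : SymPair φ κ Λ D w Λ' D' w') {c : ℤ × ℤ} :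
    IsEnd (SG Λ' D' w') (κ c) ↔ IsEnd (SG Λ D w) c := by
  constructor
  · exact isEnd_of_map (fun _ _ h => P.adj.2 h) P.inj
  · intro h a b ha hb
    obtain ⟨a0, rfl⟩ := P.srj a
    obtain ⟨b0, rfl⟩ := P.srj b
    rw [h a0 b0 (P.adj.1 ha) (P.adj.1 hb)]

/-- even translation of a world -/
lemma symPair_even {a b : ℤ} (ha : a % 2 = 0) (hb : b % 2 = 0)
    (hΛ : ∀ e, tr a b e ∈ Λ' ↔ e ∈ Λ) (hD : ∀ e ∈ Λ, (tr a b e ∈ D' ↔ e ∈ D))
    (hw : ∀ e ∈ Λ, e ∉ D → (tr a b e ∈ w' ↔ e ∈ w)) :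
    SymPair (tr a b) (tr a b) Λ D w Λ' D' w' where
  inj := tr_injective a b
  fwd e he := (hΛ e).2 he
  bwd e' he' := ⟨tr (-a) (-b) e', (hΛ _).1 (by rwa [tr_neg']), tr_neg' a b e'⟩
  srj c := ⟨tr (-a) (-b) c, tr_neg' a b c⟩
  tj e he c d := by
    constructor
    · exact fun h => TJ.tr_even ha hb (hD e he) (hw e he) h
    · intro h
      have := TJ.tr_even (a := -a) (b := -b) (D' := D) (w' := w) (by omega) (by omega)
        (by rw [tr_neg]; exact (hD e he).symm)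
        (fun h' => by
          rw [tr_neg]; exact (hw e he (fun h2 => h' ((hD e he).2 h2))).symm) h
      rwa [tr_neg, tr_neg, tr_neg] at this

/-- odd translation of a world (states flipped) -/
lemma symPair_odd {a b : ℤ} (ha : a % 2 = 1) (hb : b % 2 = 1)
    (hΛ : ∀ e, tr a b e ∈ Λ' ↔ e ∈ Λ) (hD : ∀ e ∈ Λ, (tr a b e ∈ D' ↔ e ∈ D))
    (hw : ∀ e ∈ Λ, e ∉ D → (tr a b e ∈ w' ↔ e ∉ w)) :
    SymPair (tr a b) (tr a b) Λ D w Λ' D' w' where
  inj := tr_injective a b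
  fwd e he := (hΛ e).2 he
  bwd e' he' := ⟨tr (-a) (-b) e', (hΛ _).1 (by rwa [tr_neg']), tr_neg' a b e'⟩
  srj c := ⟨tr (-a) (-b) c, tr_neg' a b c⟩
  tj e he c d := by
    constructor
    · exact fun h => TJ.tr_odd ha hb (hD e he) (hw e he) h
    · intro h
      have := TJ.tr_odd (a := -a) (b := -b) (D' := D) (w' := w) (by omega) (by omega)
        (by rw [tr_neg]; exact (hD e he).symm)
        (fun h' => by
          rw [tr_neg]
          have := hw e he (fun h2 => h' ((hD e he).2 h2))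
          tauto) h
      rwa [tr_neg, tr_neg, tr_neg] at this

/-- the swap as a `SymPair` -/
lemma symPair_sw (hΛ : ∀ e, sw e ∈ Λ' ↔ e ∈ Λ) (hD : ∀ e ∈ Λ, (sw e ∈ D' ↔ e ∈ D))
    (hw : ∀ e ∈ Λ, e ∉ D → (sw e ∈ w' ↔ e ∈ w)) :
    SymPair sw sw Λ D w Λ' D' w' where
  inj := sw_injective
  fwd e he := (hΛ e).2 he
  bwd e' he' := ⟨sw e', (hΛ _).1 (by rwa [sw_sw]), sw_sw e'⟩
  srj c := ⟨sw c, sw_sw c⟩
  tj e he c d := by
    constructor
    · exact fun h => TJ.sw (hD e he) (hw e he) h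
    · intro h
      have := TJ.sw (D' := D) (w' := w)
        (by rw [sw_sw]; exact (hD e he).symm)
        (fun h' => by
          rw [sw_sw]; exact (hw e he (fun h2 => h' ((hD e he).2 h2))).symm) h
      rwa [sw_sw, sw_sw, sw_sw] at this

/-! ### the left-right reflection -/

/-- the reflection `(x,y) ↦ (-x,y)` of the tile frame, on labels -/
def rvL (e : ℤ × ℤ) : ℤ × ℤ := (-e.2, -e.1)

/-- the reflection `(x,y) ↦ (-x,y)` of the tile frame, on corners -/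
def rvC (c : ℤ × ℤ) : ℤ × ℤ := (1 - c.2, 1 - c.1)

@[simp] lemma rvL_rvL (e : ℤ × ℤ) : rvL (rvL e) = e := by unfold rvL; simp
@[simp] lemma rvC_rvC (c : ℤ × ℤ) : rvC (rvC c) = c := by unfold rvC; simp

lemma rvL_injective : Function.Injective rvL := fun a b h => by
  have := congrArg rvL h
  simpa using this

lemma rvC_injective : Function.Injective rvC := fun a b h => by
  have := congrArg rvC h
  simpa using this

lemma eW_rvL (e : ℤ × ℤ) : eW (rvL e) = rvC (eE e) := by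
  unfold eW rvL rvC eE; exact Prod.ext (by simp only; omega) (by simp only; omega)
lemma eE_rvL (e : ℤ × ℤ) : eE (rvL e) = rvC (eW e) := by
  unfold eW rvL rvC eE; exact Prod.ext (by simp only; omega) (by simp only; omega)
lemma eS_rvL (e : ℤ × ℤ) : eS (rvL e) = rvC (eS e) := by
  unfold eS rvL rvC; exact Prod.ext (by simp only; omega) (by simp only; omega)
lemma eN_rvL (e : ℤ × ℤ) : eN (rvL e) = rvC (eN e) := by
  unfold eN rvL rvC; exact Prod.ext (by simp only; omega) (by simp only; omega)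

lemma up_rvL (e : ℤ × ℤ) : up (rvL e) = rvL (up e) := by
  unfold up rvL; exact Prod.ext (by simp only; omega) (by simp only; omega)
lemma dn_rvL (e : ℤ × ℤ) : dn (rvL e) = rvL (dn e) := by
  unfold dn rvL; exact Prod.ext (by simp only; omega) (by simp only; omega)

lemma lab_rvC (c : ℤ × ℤ) : lab (rvC c) = rvL (plab c) := by
  obtain ⟨a, b⟩ := c
  unfold lab plab rvL rvC
  simp only
  split_ifs <;> first | (exfalso; omega) | (refine Prod.ext ?_ ?_ <;> simp only <;> omega)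

lemma plab_rvC (c : ℤ × ℤ) : plab (rvC c) = rvL (lab c) := by
  obtain ⟨a, b⟩ := c
  unfold lab plab rvL rvC
  simp only
  split_ifs <;> first | (exfalso; omega) | (refine Prod.ext ?_ ?_ <;> simp only <;> omega)

lemma nxO_rvC (c : ℤ × ℤ) : nxO (rvC (nxO c)) = rvC c := by
  obtain ⟨a, b⟩ := c
  unfold nxO rvC
  simp only
  split_ifs <;> first | (exfalso; omega) | (refine Prod.ext ?_ ?_ <;> simp only <;> omega)

lemma nxC_rvC (c : ℤ × ℤ) : nxC (rvC (nxC c)) = rvC c := by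
  obtain ⟨a, b⟩ := c
  unfold nxC rvC
  simp only
  split_ifs <;> first | (exfalso; omega) | (refine Prod.ext ?_ ?_ <;> simp only <;> omega)

/-- **a tile under the left-right reflection** (state kept) -/
lemma TJ.rv (hD : rvL e ∈ D' ↔ e ∈ D) (hw : e ∉ D → (rvL e ∈ w' ↔ e ∈ w)) (h : TJ D w e c d) :
    TJ D' w' (rvL e) (rvC c) (rvC d) := by
  have key : ∀ {c d : ℤ × ℤ}, e ∉ D → lab c = e → nx w c = d →
      lab (rvC d) = rvL e ∧ nx w' (rvC d) = rvC c := by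
    intro c d he0 hc hd
    have h1 : lab (rvC d) = rvL e := by
      rw [lab_rvC, ← hd, SymmAux.plab_nx', hc]
    refine ⟨h1, ?_⟩
    unfold nx at hd ⊢
    rw [h1]
    rw [hc] at hd
    by_cases he : e ∈ w
    · rw [if_pos he] at hd
      rw [if_pos ((hw he0).2 he), ← hd, nxO_rvC]
    · rw [if_neg he] at hd
      rw [if_neg (fun h => he ((hw he0).1 h)), ← hd, nxC_rvC]
  rcases h with ⟨h, h0, h1⟩ | ⟨h, h1⟩
  · refine Or.inl ⟨hD.2 h, ?_, ?_⟩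
    · show (-e.2 + -e.1) % 2 = 1
      omega
    · rw [eS_rvL, eN_rvL]
      rcases h1 with ⟨rfl, rfl⟩ | ⟨rfl, rfl⟩
      · exact Or.inl ⟨rfl, rfl⟩
      · exact Or.inr ⟨rfl, rfl⟩
  · refine Or.inr ⟨fun h' => h (hD.1 h'), ?_⟩
    rcases h1 with h1 | h1
    · exact Or.inr (key h h1.1 h1.2)
    · exact Or.inl (key h h1.1 h1.2)

/-- the left-right reflection as a `SymPair` -/
lemma symPair_rv (hΛ : ∀ e, rvL e ∈ Λ' ↔ e ∈ Λ) (hD : ∀ e ∈ Λ, (rvL e ∈ D' ↔ e ∈ D))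
    (hw : ∀ e ∈ Λ, e ∉ D → (rvL e ∈ w' ↔ e ∈ w)) :
    SymPair rvL rvC Λ D w Λ' D' w' where
  inj := rvC_injective
  fwd e he := (hΛ e).2 he
  bwd e' he' := ⟨rvL e', (hΛ _).1 (by rwa [rvL_rvL]), rvL_rvL e'⟩
  srj c := ⟨rvC c, rvC_rvC c⟩
  tj e he c d := by
    constructor
    · exact fun h => TJ.rv (hD e he) (hw e he) h
    · intro h
      have := TJ.rv (D' := D) (w' := w)
        (by rw [rvL_rvL]; exact (hD e he).symm)
        (fun h' => by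
          rw [rvL_rvL]; exact (hw e he (fun h2 => h' ((hD e he).2 h2))).symm) h
      rwa [rvL_rvL, rvC_rvC, rvC_rvC] at this

/-! ### the down move -/

/-- **The down move** (mirror image of `StripMove`): outside the set of labels `Bl` the deleted row `D1`
goes from the bottom of the strip `S` to its top (`D2`), and the tiles of the strip go one row down with
flipped state. -/
structure DownMove (Λ1 Λ2 D1 D2 : Set (ℤ × ℤ)) (w1 w2 : Finset (ℤ × ℤ)) (Bl S : Set (ℤ × ℤ)) :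
    Prop where
  odd : ∀ e ∈ Λ1, (e.1 + e.2) % 2 = 1
  plain : ∀ e ∈ Λ1, e ∉ Bl → e ∉ S → e ∉ D1 → e ∈ Λ2 ∧ e ∉ D2 ∧ (e ∈ w2 ↔ e ∈ w1)
  strip : ∀ e ∈ Λ1, e ∉ Bl → e ∈ S → e ∉ D1 ∧ dn e ∈ Λ2 ∧ dn e ∉ D2 ∧ (dn e ∈ w2 ↔ e ∉ w1)
  del : ∀ e ∈ Λ1, e ∉ Bl → e ∈ D1 → (up e ∈ S ∧ up e ∈ Λ1 ∧ up e ∉ Bl) ∨
    (up e ∉ S ∧ e ∈ Λ2 ∧ e ∈ D2)
  sh1 : ∀ e ∈ Λ1, e ∉ Bl → e ∈ S → ∀ e' ∈ Λ1, e' ∉ Bl → e' ∉ S → e' ∉ D1 → ∀ c, Sd e c → Sd e' c →
    c = eN e ∧ e ∈ Λ2 ∧ e ∈ D2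
  sh2 : ∀ e ∈ Λ1, e ∉ Bl → e ∈ S → ∀ e' ∈ Λ1, e' ∉ Bl → e' ∈ D1 → ∀ c, Sd e c → Sd e' c →
    c = eN e' ∧ up e' ∈ S

/-- the relation of the down move -/
def SRd (Λ1 D1 Bl S : Set (ℤ × ℤ)) (c c' : ℤ × ℤ) : Prop :=
  (c' = c ∧ ((∃ e ∈ Λ1, e ∉ Bl ∧ e ∉ S ∧ e ∉ D1 ∧ Sd e c) ∨
    (∃ e ∈ Λ1, e ∉ Bl ∧ e ∈ D1 ∧ (c = eS e ∨ (up e ∉ S ∧ c = eN e))))) ∨
  (c' = dn c ∧ ∃ e ∈ Λ1, e ∉ Bl ∧ e ∈ S ∧ Sd e c)

/-- corners at the labels of `Bl`, under the swap -/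
lemma KB_sw (Bl : Set (ℤ × ℤ)) : sw c ∈ KB (swS Bl) ↔ c ∈ KB Bl := by
  unfold KB
  simp only [Set.mem_ofPred_eq, lab_sw, plab_sw, mem_swS, sw_sw]
  tauto

lemma SR_sw {Λ1 D1 Bl S : Set (ℤ × ℤ)} {c c' : ℤ × ℤ} :
    SR (swS Λ1) (swS D1) (swS Bl) (swS S) (sw c) (sw c') ↔ SRd Λ1 D1 Bl S c c' := by
  have ex : ∀ P : ℤ × ℤ → Prop, (∃ e, P e) ↔ ∃ e, P (sw e) :=
    fun P => ⟨fun ⟨e, h⟩ => ⟨sw e, by simpa using h⟩, fun ⟨e, h⟩ => ⟨sw e, h⟩⟩
  unfold SR SRd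
  rw [ex (fun e => e ∈ swS Λ1 ∧ e ∉ swS Bl ∧ e ∉ swS S ∧ e ∉ swS D1 ∧ Sd e (sw c)),
    ex (fun e => e ∈ swS Λ1 ∧ e ∉ swS Bl ∧ e ∈ swS D1 ∧ (sw c = eN e ∨ (dn e ∉ swS S ∧ sw c = eS e))),
    ex (fun e => e ∈ swS Λ1 ∧ e ∉ swS Bl ∧ e ∈ swS S ∧ Sd e (sw c))]
  simp only [mem_swS, sw_sw, Sd_sw, up_sw, dn_sw, eS_sw, eN_sw, sw_injective.eq_iff]

/-- the swapped down move is a strip move -/
theorem DownMove.sw {Λ1 Λ2 D1 D2 : Set (ℤ × ℤ)} {w1 w2 : Finset (ℤ × ℤ)} {Bl S : Set (ℤ × ℤ)}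
    (M : DownMove Λ1 Λ2 D1 D2 w1 w2 Bl S) :
    StripMove (swS Λ1) (swS Λ2) (swS D1) (swS D2) (swF w1) (swF w2) (swS Bl) (swS S) where
  odd e he := by
    have h1 : (e.2 + e.1) % 2 = 1 := M.odd _ he
    omega
  plain e h1 h2 h3 h4 := by
    obtain ⟨k1, k2, k3⟩ := M.plain _ h1 h2 h3 h4
    exact ⟨k1, k2, by rw [mem_swF, mem_swF]; exact k3⟩
  strip e h1 h2 h3 := by
    obtain ⟨k1, k2, k3, k4⟩ := M.strip _ h1 h2 h3
    exact ⟨k1, k2, k3, by rw [mem_swF, mem_swF]; exact k4⟩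
  del e h1 h2 h3 := M.del _ h1 h2 h3
  sh1 e h1 h2 h3 e' g1 g2 g3 g4 c k1 k2 := by
    obtain ⟨j1, j2, j3⟩ := M.sh1 _ h1 h2 h3 _ g1 g2 g3 g4 (W.sw c)
      (by rw [Sd_sw]; exact k1) (by rw [Sd_sw]; exact k2)
    exact ⟨sw_inj (by rw [j1]; rfl), j2, j3⟩
  sh2 e h1 h2 h3 e' g1 g2 g3 c k1 k2 := by
    obtain ⟨j1, j2⟩ := M.sh2 _ h1 h2 h3 _ g1 g2 g3 (W.sw c)
      (by rw [Sd_sw]; exact k1) (by rw [Sd_sw]; exact k2)
    exact ⟨sw_inj (by rw [j1]; rfl), j2⟩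

/-- the swapped strip move is a down move -/
theorem StripMove.sw {Λ1 Λ2 D1 D2 : Set (ℤ × ℤ)} {w1 w2 : Finset (ℤ × ℤ)} {Bl S : Set (ℤ × ℤ)}
    (M : StripMove Λ1 Λ2 D1 D2 w1 w2 Bl S) :
    DownMove (swS Λ1) (swS Λ2) (swS D1) (swS D2) (swF w1) (swF w2) (swS Bl) (swS S) where
  odd e he := by
    have h1 : (e.2 + e.1) % 2 = 1 := M.odd _ he
    omega
  plain e h1 h2 h3 h4 := by
    obtain ⟨k1, k2, k3⟩ := M.plain _ h1 h2 h3 h4
    exact ⟨k1, k2, by rw [mem_swF, mem_swF]; exact k3⟩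
  strip e h1 h2 h3 := by
    obtain ⟨k1, k2, k3, k4⟩ := M.strip _ h1 h2 h3
    exact ⟨k1, k2, k3, by rw [mem_swF, mem_swF]; exact k4⟩
  del e h1 h2 h3 := M.del _ h1 h2 h3
  sh1 e h1 h2 h3 e' g1 g2 g3 g4 c k1 k2 := by
    obtain ⟨j1, j2, j3⟩ := M.sh1 _ h1 h2 h3 _ g1 g2 g3 g4 (W.sw c)
      (by rw [Sd_sw]; exact k1) (by rw [Sd_sw]; exact k2)
    exact ⟨sw_inj (by rw [j1]; rfl), j2, j3⟩
  sh2 e h1 h2 h3 e' g1 g2 g3 c k1 k2 := by
    obtain ⟨j1, j2⟩ := M.sh2 _ h1 h2 h3 _ g1 g2 g3 (W.sw c)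
      (by rw [Sd_sw]; exact k1) (by rw [Sd_sw]; exact k2)
    exact ⟨sw_inj (by rw [j1]; rfl), j2⟩

theorem DownMove.sim_step {Λ1 Λ2 D1 D2 : Set (ℤ × ℤ)} {w1 w2 : Finset (ℤ × ℤ)}
    {Bl S : Set (ℤ × ℤ)} (M : DownMove Λ1 Λ2 D1 D2 w1 w2 Bl S) {c d c' : ℤ × ℤ}
    (h : (SG (Λ1 \ Bl) D1 w1).Adj c d) (hR : SRd Λ1 D1 Bl S c c') :
    ∃ d', SRd Λ1 D1 Bl S d d' ∧ (SG Λ2 D2 w2).Reachable c' d' := by
  obtain ⟨d', h1, h2⟩ := M.sw.sim_step (c := W.sw c) (d := W.sw d) (c' := W.sw c')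
    (by rw [← swS_diff]; exact SG_sw.2 h) (SR_sw.2 hR)
  refine ⟨W.sw d', ?_, ?_⟩
  · rw [← SR_sw, sw_sw]; exact h1
  · rw [← reach_sw, sw_sw]; exact h2

theorem DownMove.reach {Λ1 Λ2 D1 D2 : Set (ℤ × ℤ)} {w1 w2 : Finset (ℤ × ℤ)}
    {Bl S : Set (ℤ × ℤ)} (M : DownMove Λ1 Λ2 D1 D2 w1 w2 Bl S) {c x c' : ℤ × ℤ}
    (h : (SG (Λ1 \ Bl) D1 w1).Reachable c x) (hR : SRd Λ1 D1 Bl S c c') :
    ∃ x', SRd Λ1 D1 Bl S x x' ∧ (SG Λ2 D2 w2).Reachable c' x' :=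
  sim (fun _ _ _ h hR => M.sim_step h hR) h hR

/-- **Comparison of two worlds by a down move and a block in the second world.** -/
theorem DownMove.far {Λ1 Λ2 D1 D2 : Set (ℤ × ℤ)} {w1 w2 : Finset (ℤ × ℤ)}
    {Bl S : Set (ℤ × ℤ)} (M : DownMove Λ1 Λ2 D1 D2 w1 w2 Bl S) {z z' x x' b : ℤ × ℤ}
    {I : Set (ℤ × ℤ)}
    (hI : ∀ u v, u ∈ I → v ∉ I → (SG Λ2 D2 w2).Adj u v → v = b)
    (hK : ∀ c ∈ KB Bl, ∀ c', SRd Λ1 D1 Bl S c c' → c' ∈ I)
    (hzK : z ∈ KB Bl) (hz'I : z' ∈ I) (hxK : x ∉ KB Bl) (hxI : x ∉ I) (hx'I : x' ∉ I)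
    (hxx : ∀ c', SRd Λ1 D1 Bl S x c' → c' = x)
    (ex : IsEnd (SG Λ2 D2 w2) x) (ex' : IsEnd (SG Λ2 D2 w2) x')
    (h : (SG Λ1 D1 w1).Reachable z x) (h' : (SG Λ2 D2 w2).Reachable z' x') : x = x' := by
  have key := M.sw.far (z := W.sw z) (z' := W.sw z') (x := W.sw x) (x' := W.sw x') (b := W.sw b)
    (I := swS I)
    (fun u v hu hv ha => by
      have h1 : (SG Λ2 D2 w2).Adj (W.sw u) (W.sw v) := by
        rw [← SG_sw, sw_sw, sw_sw]; exact ha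
      rw [← hI _ _ hu hv h1, sw_sw])
    (fun c hc c' hR => hK (W.sw c) ((KB_sw Bl).1 (by rwa [sw_sw])) (W.sw c')
      (SR_sw.1 (by rwa [sw_sw, sw_sw])))
    ((KB_sw Bl).2 hzK) hz'I (fun h => hxK ((KB_sw Bl).1 h)) hxI hx'I
    (fun c' hR => by
      have := hxx (W.sw c') (SR_sw.1 (by rwa [sw_sw]))
      rw [← this, sw_sw])
    (isEnd_sw.2 ex) (isEnd_sw.2 ex') (reach_sw.2 h) (reach_sw.2 h')
  exact sw_inj key

end Pool.Agent.H45.W
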