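import Mathlib
import Pool.Agent.H47.W.Room2
import Pool.Agent.H45.W.Sym

set_option autoImplicit false
open Finset

/-! # Where a strand can end (C6, J2): general form

`Q` = tiles of the box or of the room, `Λ` = `Q` and the layer of the walls, `F` = admissible ends (`f1`, `f2`
of the marks, ends of the deleted rows). `Wld` = local facts near the walls: the colours of neighbouring layer
tiles agree, except across a deleted row, where they are opposite, and at a missing tile. `end_mem`: a strand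
which starts at a side of a tile of `Q` ends in `F`.

Label coordinates: the side `c` is a unit square with the corners `c`, `c - (1,0)`, `c - (0,1)`, `c - (1,1)`:
two labels (odd coordinate sum) and two points (even sum). -/

namespace Pool.Agent.H45.W

open Pool.Agent.H75.Perc Pool.Agent.H75.TwoArm Pool.Agent.H99.W Pool.Agent.H13.W Pool.Agent.H47.W

/-- `p` is a corner of the unit square of the side `c` -/
def sq (c p : ℤ × ℤ) : Prop := (p.1 = c.1 ∨ p.1 = c.1 - 1) ∧ (p.2 = c.2 ∨ p.2 = c.2 - 1)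

/-- odd coordinate sum: labels -/
def od (e : ℤ × ℤ) : Prop := (e.1 + e.2) % 2 = 1

/-- even coordinate sum: points -/
def ev (e : ℤ × ℤ) : Prop := (e.1 + e.2) % 2 = 0

/-- the other label of a side -/
def ot (c e : ℤ × ℤ) : ℤ × ℤ := (2 * c.1 - 1 - e.1, 2 * c.2 - 1 - e.2)

section basic
variable {c d e e' P P' : ℤ × ℤ}

lemma sq_iff (he : od e) : sq c e ↔ c = eW e ∨ c = eE e ∨ c = eS e ∨ c = eN e := by
  obtain ⟨a, b⟩ := c
  obtain ⟨x, y⟩ := e
  unfold sq eW eE eS eN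
  simp only [Prod.mk.injEq]
  omega

lemma lab_iff (c e : ℤ × ℤ) : (e = lab c ∨ e = plab c) ↔ (od e ∧ sq c e) := by
  obtain ⟨a, b⟩ := c
  obtain ⟨x, y⟩ := e
  unfold lab plab sq od
  rcases Int.emod_two_eq_zero_or_one a with h | h <;>
    rcases Int.emod_two_eq_zero_or_one b with h' | h' <;>
    simp [h, h', Prod.ext_iff] <;> omega

lemma sq_ot (h : sq c e) : sq c (ot c e) := by
  unfold sq ot at *
  simp only
  omega

lemma od_ot (he : od e) : od (ot c e) := by
  unfold od ot at *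
  simp only
  omega

lemma ot_ne : ot c e ≠ e := by
  intro h'
  unfold ot at h'
  have h1 := congrArg Prod.fst h'
  simp only at h1
  omega

lemma ot_ot (c e : ℤ × ℤ) : ot c (ot c e) = e := by
  unfold ot
  refine Prod.ext ?_ ?_ <;> simp only <;> ring

/-- the labels of a side -/
lemma lab_cases' (h : od e) (h1 : sq c e) (h' : od e') (h2 : sq c e') : e' = e ∨ e' = ot c e := by
  obtain ⟨a, b⟩ := c
  obtain ⟨x, y⟩ := e
  obtain ⟨x', y'⟩ := e'
  unfold od sq ot at *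
  simp only [Prod.mk.injEq] at *
  omega

/-- two sides have at most one common label -/
lemma side_uniq (h : od e) (h' : od e') (hne : e ≠ e') (h1 : sq c e) (h2 : sq c e')
    (h3 : sq d e) (h4 : sq d e') : c = d := by
  obtain ⟨a, b⟩ := c
  obtain ⟨a', b'⟩ := d
  obtain ⟨x, y⟩ := e
  obtain ⟨x', y'⟩ := e'
  unfold od sq at *
  simp only [ne_eq, Prod.mk.injEq] at *
  omega

/-- the two points of a side are of different type -/
lemma pt_uniq (h : ev P) (h' : ev P') (h1 : sq c P) (h2 : sq c P') (h3 : P.1 % 2 = P'.1 % 2) :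
    P = P' := by
  obtain ⟨a, b⟩ := c
  obtain ⟨x, y⟩ := P
  obtain ⟨x', y'⟩ := P'
  unfold ev sq at *
  simp only [Prod.mk.injEq] at *
  omega

/-- a side has a point of each type -/
lemma exists_pt (c : ℤ × ℤ) (r : ℤ) (hr : r = 0 ∨ r = 1) : ∃ P, ev P ∧ sq c P ∧ P.1 % 2 = r := by
  obtain ⟨a, b⟩ := c
  unfold ev sq
  by_cases h : a % 2 = r
  · by_cases h2 : (a + b) % 2 = 0
    · exact ⟨(a, b), by simp only; omega, ⟨Or.inl rfl, Or.inl rfl⟩, h⟩
    · exact ⟨(a, b - 1), by simp only; omega, ⟨Or.inl rfl, Or.inr rfl⟩, h⟩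
  · by_cases h2 : (a + b) % 2 = 0
    · exact ⟨(a - 1, b - 1), by simp only; omega, ⟨Or.inr rfl, Or.inr rfl⟩, by simp only; omega⟩
    · exact ⟨(a - 1, b), by simp only; omega, ⟨Or.inr rfl, Or.inl rfl⟩, by simp only; omega⟩

end basic

variable {Q Λ D : Set (ℤ × ℤ)} {w : Finset (ℤ × ℤ)} {F : Set (ℤ × ℤ)} {c d e e' P : ℤ × ℤ}

/-- the arcs of a natural tile, with its state -/
lemma tile_state (hD : e ∉ D) (ho : od e) :
    ((e ∈ w ↔ e.1 % 2 = 1) → TJ D w e (eW e) (eS e) ∧ TJ D w e (eN e) (eE e)) ∧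
    ((e ∈ w ↔ e.1 % 2 = 0) → TJ D w e (eW e) (eN e) ∧ TJ D w e (eS e) (eE e)) := by
  obtain ⟨x, y⟩ := e
  unfold od at ho
  simp only at ho
  rcases Int.emod_two_eq_zero_or_one x with hx | hx
  · have hy : y % 2 = 1 := by omega
    have hy1 : (y + 1) % 2 = 0 := by omega
    have hx1 : (x + 1) % 2 = 1 := by omega
    have lN : lab (eN (x, y)) = (x, y) := by simp [lab, eN, hx, hy1]
    have lS : lab (eS (x, y)) = (x, y) := by simp [lab, eS, hx1, hy]
    constructor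
    · intro h
      have hw : (x, y) ∉ w := fun h' => by have := h.1 h'; simp only at this; omega
      refine ⟨Or.inr ⟨hD, Or.inr ⟨lS, ?_⟩⟩, Or.inr ⟨hD, Or.inl ⟨lN, ?_⟩⟩⟩
      · unfold nx; rw [lS, if_neg hw]; simp [nxC, eS, eW, hx1, hy]
      · unfold nx; rw [lN, if_neg hw]; simp [nxC, eN, eE, hx, hy1]
    · intro h
      have hw : (x, y) ∈ w := h.2 hx
      refine ⟨Or.inr ⟨hD, Or.inr ⟨lN, ?_⟩⟩, Or.inr ⟨hD, Or.inl ⟨lS, ?_⟩⟩⟩
      · unfold nx; rw [lN, if_pos hw]; simp [nxO, eN, eW, hx, hy1]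
      · unfold nx; rw [lS, if_pos hw]; simp [nxO, eS, eE, hx1, hy]
  · have hy : y % 2 = 0 := by omega
    have hy1 : (y + 1) % 2 = 1 := by omega
    have hx1 : (x + 1) % 2 = 0 := by omega
    have lW : lab (eW (x, y)) = (x, y) := by simp [lab, eW, hx, hy]
    have lE : lab (eE (x, y)) = (x, y) := by simp [lab, eE, hx1, hy1]
    constructor
    · intro h
      have hw : (x, y) ∈ w := h.2 hx
      refine ⟨Or.inr ⟨hD, Or.inl ⟨lW, ?_⟩⟩, Or.inr ⟨hD, Or.inr ⟨lE, ?_⟩⟩⟩
      · unfold nx; rw [lW, if_pos hw]; simp [nxO, eS, eW, hx, hy]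
      · unfold nx; rw [lE, if_pos hw]; simp [nxO, eN, eE, hx1, hy1]
    · intro h
      have hw : (x, y) ∉ w := fun h' => by have := h.1 h'; simp only at this; omega
      refine ⟨Or.inr ⟨hD, Or.inl ⟨lW, ?_⟩⟩, Or.inr ⟨hD, Or.inr ⟨lE, ?_⟩⟩⟩
      · unfold nx; rw [lW, if_neg hw]; simp [nxC, eN, eW, hx, hy]
      · unfold nx; rw [lE, if_neg hw]; simp [nxC, eS, eE, hx1, hy1]

/-- the sides of a tile at a point -/
lemma sides_at (he : od e) (hP : ev P) (h1 : sq c e) (h2 : sq c P) :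
    (P = (e.1 - 1, e.2) ∧ (c = eW e ∨ c = eN e)) ∨ (P = (e.1 + 1, e.2) ∧ (c = eS e ∨ c = eE e)) ∨
    (P = (e.1, e.2 - 1) ∧ (c = eW e ∨ c = eS e)) ∨ (P = (e.1, e.2 + 1) ∧ (c = eN e ∨ c = eE e)) := by
  rw [sq_iff he] at h1
  obtain ⟨x, y⟩ := e
  obtain ⟨p, q⟩ := P
  unfold od at he
  unfold ev at hP
  simp only at he hP
  rcases h1 with rfl | rfl | rfl | rfl
  · rcases h2 with ⟨h | h, h' | h'⟩ <;> unfold eW at h h' <;> simp only at h h'
    · omega
    · right; right; left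
      exact ⟨Prod.ext h h', Or.inl rfl⟩
    · left
      exact ⟨Prod.ext h h', Or.inl rfl⟩
    · omega
  · rcases h2 with ⟨h | h, h' | h'⟩ <;> unfold eE at h h' <;> simp only at h h'
    · omega
    · right; left
      exact ⟨Prod.ext h (by simp only; omega), Or.inr rfl⟩
    · right; right; right
      exact ⟨Prod.ext (by simp only; omega) h', Or.inr rfl⟩
    · omega
  · rcases h2 with ⟨h | h, h' | h'⟩ <;> unfold eS at h h' <;> simp only at h h'
    · right; left
      exact ⟨Prod.ext h h', Or.inl rfl⟩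
    · omega
    · omega
    · right; right; left
      exact ⟨Prod.ext (by simp only; omega) h', Or.inr rfl⟩
  · rcases h2 with ⟨h | h, h' | h'⟩ <;> unfold eN at h h' <;> simp only at h h'
    · right; right; right
      exact ⟨Prod.ext h h', Or.inl rfl⟩
    · omega
    · omega
    · left
      exact ⟨Prod.ext h (by simp only; omega), Or.inr rfl⟩

/-- **the turn**: a natural tile joins its two sides at the points of its type -/
lemma TJ_turn (he : od e) (hD : e ∉ D) (hP : ev P) (ht : e ∈ w ↔ P.1 % 2 = 1) (h1 : sq c e)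
    (h2 : sq c P) (h3 : sq d e) (h4 : sq d P) (hne : c ≠ d) : TJ D w e c d := by
  obtain ⟨k1, k2⟩ := tile_state (w := w) hD he
  have a1 := sides_at he hP h1 h2
  have a2 := sides_at he hP h3 h4
  rcases a1 with ⟨p1, g1⟩ | ⟨p1, g1⟩ | ⟨p1, g1⟩ | ⟨p1, g1⟩ <;>
    rcases a2 with ⟨p2, g2⟩ | ⟨p2, g2⟩ | ⟨p2, g2⟩ | ⟨p2, g2⟩ <;>
    first
    | (exfalso
       have q1 := congrArg Prod.fst (p1.symm.trans p2)
       have q2 := congrArg Prod.snd (p1.symm.trans p2)
       simp only at q1 q2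
       omega)
    | skip
  · obtain ⟨j1, j2⟩ := k2 (by rw [ht, p1]; simp only; omega)
    rcases g1 with g1 | g1 <;> rcases g2 with g2 | g2 <;> rw [g1, g2] at hne ⊢
    · exact absurd rfl hne
    · exact j1
    · exact j1.symm
    · exact absurd rfl hne
  · obtain ⟨j1, j2⟩ := k2 (by rw [ht, p1]; simp only; omega)
    rcases g1 with g1 | g1 <;> rcases g2 with g2 | g2 <;> rw [g1, g2] at hne ⊢
    · exact absurd rfl hne
    · exact j2
    · exact j2.symm
    · exact absurd rfl hne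
  · obtain ⟨j1, j2⟩ := k1 (by rw [ht, p1])
    rcases g1 with g1 | g1 <;> rcases g2 with g2 | g2 <;> rw [g1, g2] at hne ⊢
    · exact absurd rfl hne
    · exact j1
    · exact j1.symm
    · exact absurd rfl hne
  · obtain ⟨j1, j2⟩ := k1 (by rw [ht, p1])
    rcases g1 with g1 | g1 <;> rcases g2 with g2 | g2 <;> rw [g1, g2] at hne ⊢
    · exact absurd rfl hne
    · exact j2
    · exact j2.symm
    · exact absurd rfl hne

lemma TJ.sqs (h : TJ D w e c d) : od e ∧ sq c e ∧ sq d e := by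
  have h1 := (lab_iff c e).1 h.label
  have h2 := (lab_iff d e).1 h.label'
  exact ⟨h1.1, h1.2, h2.2⟩

/-- a side has another side of the tile at each of its points -/
lemma exists_side (he : od e) (hP : ev P) (h1 : sq c e) (h2 : sq c P) :
    ∃ d, d ≠ c ∧ sq d e ∧ sq d P := by
  refine ⟨(e.1 + P.1 + 1 - c.1, e.2 + P.2 + 1 - c.2), ?_, ?_, ?_⟩
  · obtain ⟨x, y⟩ := e
    obtain ⟨p, q⟩ := P
    obtain ⟨a, b⟩ := c
    unfold od at he
    unfold ev at hP
    unfold sq at h1 h2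
    simp only [Prod.mk.injEq, ne_eq] at *
    omega
  · unfold od at he
    unfold ev at hP
    unfold sq at *
    simp only
    omega
  · unfold od at he
    unfold ev at hP
    unfold sq at *
    simp only
    omega

/-- a natural tile turns round a point of its type -/
lemma TJ_pt (hD : e ∉ D) (h : TJ D w e c d) :
    ∃ P, ev P ∧ sq c P ∧ sq d P ∧ (e ∈ w ↔ P.1 % 2 = 1) := by
  classical
  obtain ⟨he, h1, h2⟩ := TJ.sqs h
  obtain ⟨P, g1, g2, g3⟩ : ∃ P, ev P ∧ sq c P ∧ (e ∈ w ↔ P.1 % 2 = 1) := by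
    by_cases hw : e ∈ w
    · obtain ⟨P, g1, g2, g3⟩ := exists_pt c 1 (Or.inr rfl)
      exact ⟨P, g1, g2, fun _ => g3, fun _ => hw⟩
    · obtain ⟨P, g1, g2, g3⟩ := exists_pt c 0 (Or.inl rfl)
      exact ⟨P, g1, g2, fun h => absurd h hw, fun h => by omega⟩
  obtain ⟨d', k1, k2, k3⟩ := exists_side he g1 h1 g2
  have h3 := TJ_turn (D := D) he hD g1 g3 h1 g2 k2 k3 k1.symm
  have h4 := h.unique h3
  exact ⟨P, g1, g2, h4 ▸ k3, g3⟩

/-! ### the local facts -/

/-- the tile `e` is passed at its side `c` round the point `P` -/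
def Pass (Λ D : Set (ℤ × ℤ)) (w : Finset (ℤ × ℤ)) (F : Set (ℤ × ℤ)) (e c P : ℤ × ℤ) : Prop :=
  (e ∈ Λ ∧ e ∉ D ∧ (e ∈ w ↔ P.1 % 2 = 1)) ∨ (e ∈ Λ ∧ e ∈ D ∧ (c = eS e ∨ c = eN e)) ∨
    (e ∉ Λ ∧ c ∈ F)

/-- `P` is a point of a tile of `Q` -/
def PB (Q : Set (ℤ × ℤ)) (P : ℤ × ℤ) : Prop := ∃ e ∈ Q, ∃ c, sq c e ∧ sq c P

/-- **Local facts near the walls.** -/
structure Wld (Q Λ D : Set (ℤ × ℤ)) (w : Finset (ℤ × ℤ)) (F : Set (ℤ × ℤ)) : Prop where
  fin : Λ.Finite
  odd : ∀ e ∈ Λ, od e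
  sub : Q ⊆ Λ
  /-- the tiles next to `Q` belong to `Λ` -/
  lay : ∀ e ∈ Q, ∀ c, sq c e → ot c e ∈ Λ
  /-- the next layer tile round a point of `Q` -/
  nxt : ∀ P e c, PB Q P → ev P → e ∈ Λ → e ∉ Q → e ∉ D → (e ∈ w ↔ P.1 % 2 = 1) → sq c e → sq c P →
    ot c e ∈ Q ∨ Pass Λ D w F (ot c e) c P
  /-- a deleted row which crosses the layer -/
  del : ∀ e ∈ Λ, e ∈ D → e ∉ Q → ∀ P, PB Q P → ev P → (sq (eN e) P ∨ sq (eS e) P) →
    (up e ∈ Λ ∧ up e ∉ D ∧ up e ∉ Q) ∧ (dn e ∈ Λ ∧ dn e ∉ D ∧ dn e ∉ Q) ∧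
      (up e ∈ w ↔ dn e ∉ w) ∧ (sq (eN e) P → PB Q (dn P)) ∧ (sq (eS e) P → PB Q (up P))
  /-- the ends of the deleted rows belong to `F` -/
  row : ∀ e ∈ Λ, e ∈ D → (eE e ∈ F ∨ rt e ∈ D) ∧ (eW e ∈ F ∨ lf e ∈ D)

/-- the sides which a strand from `Q` can visit -/
def AS (Q Λ D : Set (ℤ × ℤ)) (w : Finset (ℤ × ℤ)) (F : Set (ℤ × ℤ)) (c : ℤ × ℤ) : Prop :=
  (∃ e ∈ Q, sq c e) ∨ ∃ P, ev P ∧ sq c P ∧ PB Q P ∧ ∀ e, od e → sq c e → Pass Λ D w F e c P

lemma sq_eW (e : ℤ × ℤ) : sq (eW e) e := ⟨Or.inl rfl, Or.inl rfl⟩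
lemma sq_eE (e : ℤ × ℤ) : sq (eE e) e := by unfold sq eE; simp
lemma sq_eS (e : ℤ × ℤ) : sq (eS e) e := by unfold sq eS; simp
lemma sq_eN (e : ℤ × ℤ) : sq (eN e) e := by unfold sq eN; simp

lemma ot_eN (e : ℤ × ℤ) : ot (eN e) e = up e := by
  unfold ot eN up; exact Prod.ext (by simp only; ring) (by simp only; ring)
lemma ot_eS (e : ℤ × ℤ) : ot (eS e) e = H13.W.dn e := by
  unfold ot eS H13.W.dn; exact Prod.ext (by simp only; ring) (by simp only; ring)
lemma ot_eE (e : ℤ × ℤ) : ot (eE e) e = rt e := by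
  unfold ot eE rt; exact Prod.ext (by simp only; ring) (by simp only; ring)
lemma ot_eW (e : ℤ × ℤ) : ot (eW e) e = lf e := by
  unfold ot eW lf; exact Prod.ext (by simp only; ring) (by simp only; ring)

lemma sq_up (h : sq (eS e) P) : sq (eN e) (up P) := by
  unfold sq eS eN up at *; simp only at *; omega

lemma sq_dn (h : sq (eN e) P) : sq (eS e) (H13.W.dn P) := by
  unfold sq eS eN H13.W.dn at *; simp only at *; omega

lemma ev_up (h : ev P) : ev (up P) := by unfold ev up at *; simp only at *; omega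
lemma ev_dn (h : ev P) : ev (H13.W.dn P) := by unfold ev H13.W.dn at *; simp only at *; omega

variable (H : Wld Q Λ D w F)
include H

lemma Wld.oddQ (he : e ∈ Q) : od e := H.odd e (H.sub he)

omit H in
/-- a point of a side of `Q` is a point of `Q` -/
lemma PB_of (he : e ∈ Q) (h1 : sq c e) (h2 : sq c P) : PB Q P := ⟨e, he, c, h1, h2⟩

/-- both sides of a tile of `Q` are visited -/
theorem Wld.closed (hc : AS Q Λ D w F c) (h : (SG Λ D w).Adj c d) : AS Q Λ D w F d := by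
  classical
  obtain ⟨e, heΛ, hT⟩ := h
  obtain ⟨he, h1, h2⟩ := TJ.sqs hT
  by_cases heQ : e ∈ Q
  · exact Or.inl ⟨e, heQ, h2⟩
  by_cases heD : e ∈ D
  · -- a deleted tile of the layer
    have hcd : (c = eS e ∧ d = eN e) ∨ (d = eS e ∧ c = eN e) := by
      rcases hT with ⟨-, -, h⟩ | ⟨h, -⟩
      · exact h
      · exact absurd heD h
    rcases hcd with ⟨rfl, rfl⟩ | ⟨rfl, rfl⟩
    · -- from the south
      rcases hc with ⟨e1, he1, hs⟩ | ⟨P, g1, g2, g3, g4⟩
      · exfalso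
        obtain ⟨P, k1, k2, -⟩ := exists_pt (eS e) 0 (Or.inl rfl)
        obtain ⟨-, ⟨-, -, j⟩, -⟩ := H.del e heΛ heD heQ P ⟨e1, he1, _, hs, k2⟩ k1 (Or.inr k2)
        rcases lab_cases' he h1 (H.oddQ he1) hs with h | h
        · exact heQ (h ▸ he1)
        · rw [ot_eS] at h; exact j (h ▸ he1)
      · obtain ⟨⟨u1, u2, u3⟩, ⟨d1, d2, d3⟩, j1, -, j3⟩ := H.del e heΛ heD heQ P g3 g1 (Or.inr g2)
        have hd0 : (H13.W.dn e ∈ w ↔ P.1 % 2 = 1) := by
          rcases g4 (H13.W.dn e) (H.odd _ d1) (by rw [← ot_eS]; exact sq_ot h1) with h | h | h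
          · exact h.2.2
          · exact absurd h.2.1 d2
          · exact absurd d1 h.1
        refine Or.inr ⟨up P, ev_up g1, sq_up g2, j3 g2, fun e' o' s' => ?_⟩
        rcases lab_cases' he h2 o' s' with h | h
        · rw [h]; exact Or.inr (Or.inl ⟨heΛ, heD, Or.inr rfl⟩)
        · rw [ot_eN] at h
          rw [h]
          refine Or.inl ⟨u1, u2, ?_⟩
          rw [j1, hd0]
          unfold up
          simp only
          omega
    · -- from the north
      rcases hc with ⟨e1, he1, hs⟩ | ⟨P, g1, g2, g3, g4⟩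
      · exfalso
        obtain ⟨P, k1, k2, -⟩ := exists_pt (eN e) 0 (Or.inl rfl)
        obtain ⟨⟨-, -, j⟩, -⟩ := H.del e heΛ heD heQ P ⟨e1, he1, _, hs, k2⟩ k1 (Or.inl k2)
        rcases lab_cases' he h1 (H.oddQ he1) hs with h | h
        · exact heQ (h ▸ he1)
        · rw [ot_eN] at h; exact j (h ▸ he1)
      · obtain ⟨⟨u1, u2, u3⟩, ⟨d1, d2, d3⟩, j1, j2, -⟩ := H.del e heΛ heD heQ P g3 g1 (Or.inl g2)
        have hd0 : (up e ∈ w ↔ P.1 % 2 = 1) := by
          rcases g4 (up e) (H.odd _ u1) (by rw [← ot_eN]; exact sq_ot h1) with h | h | h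
          · exact h.2.2
          · exact absurd h.2.1 u2
          · exact absurd u1 h.1
        refine Or.inr ⟨H13.W.dn P, ev_dn g1, sq_dn g2, j2 g2, fun e' o' s' => ?_⟩
        rcases lab_cases' he h2 o' s' with h | h
        · rw [h]; exact Or.inr (Or.inl ⟨heΛ, heD, Or.inl rfl⟩)
        · rw [ot_eS] at h
          rw [h]
          refine Or.inl ⟨d1, d2, ?_⟩
          have j1' : H13.W.dn e ∈ w ↔ up e ∉ w := by tauto
          rw [j1', hd0]
          unfold H13.W.dn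
          simp only
          omega
  · -- a natural tile of the layer
    obtain ⟨P, g1, g2, g3, g4⟩ := TJ_pt heD hT
    have hP : PB Q P := by
      rcases hc with ⟨e1, he1, hs⟩ | ⟨P0, k1, k2, k3, k4⟩
      · exact ⟨e1, he1, c, hs, g2⟩
      · have : P0 = P := by
          refine pt_uniq k1 g1 k2 g2 ?_
          rcases k4 e he h1 with h | h | h
          · have := h.2.2
            rw [g4] at this
            omega
          · exact absurd h.2.1 heD
          · exact absurd heΛ h.1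
        rw [← this]; exact k3
    rcases H.nxt P e d hP g1 heΛ heQ heD g4 h2 g3 with h | h
    · exact Or.inl ⟨_, h, sq_ot h2⟩
    · refine Or.inr ⟨P, g1, g3, hP, fun e' o' s' => ?_⟩
      rcases lab_cases' he h2 o' s' with k | k
      · rw [k]; exact Or.inl ⟨heΛ, heD, g4⟩
      · rw [k]; exact h

/-- the strand stays among the visited sides -/
theorem Wld.reach_mem (hc : AS Q Λ D w F c) (h : (SG Λ D w).Reachable c d) : AS Q Λ D w F d := by
  obtain ⟨p⟩ := h
  induction p with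
  | nil => exact hc
  | cons ha _ ih => exact ih (H.closed hc ha)

omit H in
/-- neighbours through different tiles are different -/
lemma TJ_ne {d' : ℤ × ℤ} (hne : e ≠ e') (h : TJ D w e c d) (h' : TJ D w e' c d') : d ≠ d' := by
  rintro rfl
  obtain ⟨a1, a2, a3⟩ := TJ.sqs h
  obtain ⟨b1, b2, b3⟩ := TJ.sqs h'
  exact h.ne (side_uniq a1 b1 hne a2 b2 a3 b3)

omit H in
/-- a natural tile joins each of its sides -/
lemma exists_nb (he : od e) (h1 : sq c e) (hD : e ∉ D ∨ c = eS e ∨ c = eN e) :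
    ∃ d, TJ D w e c d := by
  classical
  by_cases heD : e ∈ D
  · rcases hD with h | rfl | rfl
    · exact absurd heD h
    · exact ⟨_, TJ_del heD he⟩
    · exact ⟨_, (TJ_del heD he).symm⟩
  · obtain ⟨P, g1, g2, g3⟩ : ∃ P, ev P ∧ sq c P ∧ (e ∈ w ↔ P.1 % 2 = 1) := by
      by_cases hw : e ∈ w
      · obtain ⟨P, g1, g2, g3⟩ := exists_pt c 1 (Or.inr rfl)
        exact ⟨P, g1, g2, fun _ => g3, fun _ => hw⟩
      · obtain ⟨P, g1, g2, g3⟩ := exists_pt c 0 (Or.inl rfl)
        exact ⟨P, g1, g2, fun h => absurd h hw, fun h => by omega⟩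
    obtain ⟨d', k1, k2, k3⟩ := exists_side he g1 h1 g2
    exact ⟨d', TJ_turn he heD g1 g3 h1 g2 k2 k3 k1.symm⟩

omit H in
/-- a side both of whose tiles are passed is not an end -/
lemma not_isEnd (he : od e) (h1 : sq c e) (hΛ : e ∈ Λ) (hΛ' : ot c e ∈ Λ)
    (hD : e ∉ D ∨ c = eS e ∨ c = eN e)
    (hD' : ot c e ∉ D ∨ c = eS (ot c e) ∨ c = eN (ot c e)) : ¬ IsEnd (SG Λ D w) c := by
  intro hE
  obtain ⟨d, hd⟩ := exists_nb (w := w) he h1 hD
  obtain ⟨d', hd'⟩ := exists_nb (w := w) (od_ot (c := c) he) (sq_ot h1) hD'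
  exact TJ_ne ot_ne.symm hd hd' (hE _ _ ⟨e, hΛ, hd⟩ ⟨_, hΛ', hd'⟩)

/-- **an end of a strand from `Q` belongs to `F`** -/
theorem Wld.end_mem (hc : AS Q Λ D w F c) (hE : IsEnd (SG Λ D w) c)
    (hn : ∃ x, (SG Λ D w).Adj c x) : c ∈ F := by
  by_contra hF
  rcases hc with ⟨e, heQ, hs⟩ | ⟨P, g1, g2, g3, g4⟩
  · have he := H.oddQ heQ
    -- a deleted tile with `c` as west or east side
    have key : ∀ e, e ∈ Λ → sq c e → ot c e ∈ Λ → e ∈ D → c ≠ eS e → c ≠ eN e → False := by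
      intro e heΛ hs hot heD n1 n2
      have he := H.odd e heΛ
      obtain ⟨r1, r2⟩ := H.row e heΛ heD
      rcases (sq_iff he).1 hs with h | h | h | h
      · rw [← h] at r2
        rcases r2 with r2 | r2
        · exact hF r2
        · rw [← ot_eW, ← h] at r2
          obtain ⟨x, e', he', hT⟩ := hn
          obtain ⟨a1, a2, -⟩ := TJ.sqs hT
          rcases lab_cases' he hs a1 a2 with k | k
          · rw [k] at hT
            exact not_TJ_eW heD (h ▸ hT)
          · rw [k] at hT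
            have h5 : c = eE (ot c e) := by
              rw [h, ot_eW]; unfold eW lf eE; simp
            obtain ⟨g, hg⟩ : ∃ g, g = ot c e := ⟨_, rfl⟩
            rw [← hg] at hT r2 h5
            rw [h5] at hT
            exact not_TJ_eE r2 hT
      · rw [← h] at r1
        rcases r1 with r1 | r1
        · exact hF r1
        · rw [← ot_eE, ← h] at r1
          obtain ⟨x, e', he', hT⟩ := hn
          obtain ⟨a1, a2, -⟩ := TJ.sqs hT
          rcases lab_cases' he hs a1 a2 with k | k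
          · rw [k] at hT
            exact not_TJ_eE heD (h ▸ hT)
          · rw [k] at hT
            have h5 : c = eW (ot c e) := by
              rw [h, ot_eE]; rfl
            obtain ⟨g, hg⟩ : ∃ g, g = ot c e := ⟨_, rfl⟩
            rw [← hg] at hT r1 h5
            rw [h5] at hT
            exact not_TJ_eW r1 hT
      · exact n1 h
      · exact n2 h
    have hl := H.lay e heQ c hs
    by_cases k1 : e ∉ D ∨ c = eS e ∨ c = eN e
    · by_cases k2 : ot c e ∉ D ∨ c = eS (ot c e) ∨ c = eN (ot c e)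
      · exact not_isEnd he hs (H.sub heQ) hl k1 k2 hE
      · push Not at k2
        exact key (ot c e) hl (sq_ot hs) (by rw [ot_ot]; exact H.sub heQ) k2.1 k2.2.1 k2.2.2
    · push Not at k1
      exact key e (H.sub heQ) hs hl k1.1 k1.2.1 k1.2.2
  · obtain ⟨x, e, heΛ, hT⟩ := hn
    obtain ⟨a1, a2, -⟩ := TJ.sqs hT
    have h1 := g4 e a1 a2
    have h2 := g4 _ (od_ot (c := c) a1) (sq_ot a2)
    have c1 : e ∉ D ∨ c = eS e ∨ c = eN e := by
      rcases h1 with h | h | h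
      · exact Or.inl h.2.1
      · exact Or.inr h.2.2
      · exact absurd h.2 hF
    have c2 : ot c e ∈ Λ ∧ (ot c e ∉ D ∨ c = eS (ot c e) ∨ c = eN (ot c e)) := by
      rcases h2 with h | h | h
      · exact ⟨h.1, Or.inl h.2.1⟩
      · exact ⟨h.1, Or.inr h.2.2⟩
      · exact absurd h.2 hF
    exact not_isEnd a1 a2 heΛ c2.1 c1 c2.2 hE

/-- **existence of the far end** -/
theorem Wld.far_exists (hc : AS Q Λ D w F c) (hE : IsEnd (SG Λ D w) c)
    (hn : ∃ x, (SG Λ D w).Adj c x) :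
    ∃ y ∈ F, y ≠ c ∧ IsEnd (SG Λ D w) y ∧ AS Q Λ D w F y ∧ (SG Λ D w).Reachable c y := by
  obtain ⟨y, h1, h2, h3⟩ := sg_partner H.fin hE hn
  have h4 := H.reach_mem hc h3
  refine ⟨y, H.end_mem h4 h2 ?_, h1, h2, h4, h3⟩
  obtain ⟨p⟩ := h3.symm
  cases p with
  | nil => exact absurd rfl h1
  | cons h _ => exact ⟨_, h⟩

omit H in
/-- **uniqueness of the far end** -/
theorem far_unique {y y' : ℤ × ℤ} (hE : IsEnd (SG Λ D w) c) (h1 : IsEnd (SG Λ D w) y)
    (h1' : IsEnd (SG Λ D w) y') (h2 : y ≠ c) (h2' : y' ≠ c) (h3 : (SG Λ D w).Reachable c y)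
    (h3' : (SG Λ D w).Reachable c y') : y' = y := by
  rcases ends_two SG_deg2 hE h1 h1' h3 h3' h2.symm with h | h
  · exact absurd h h2'
  · exact h

/-- the tile `e` touches `Q` -/
def Tch (Q : Set (ℤ × ℤ)) (e : ℤ × ℤ) : Prop := ∃ P c, ev P ∧ PB Q P ∧ sq c e ∧ sq c P

omit H in
lemma AS.tch (hc : AS Q Λ D w F c) (hs : sq c e) : Tch Q e := by
  rcases hc with ⟨e1, he1, h1⟩ | ⟨P, g1, g2, g3, -⟩
  · obtain ⟨P, k1, k2, -⟩ := exists_pt c 0 (Or.inl rfl)
    exact ⟨P, c, k1, ⟨e1, he1, c, h1, k2⟩, hs, k2⟩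
  · exact ⟨P, c, g1, g3, hs, g2⟩

/-- **only the tiles which touch `Q` matter** -/
theorem Wld.thin {Λ' : Set (ℤ × ℤ)} (h1 : Λ' ⊆ Λ) (h2 : ∀ e ∈ Λ, Tch Q e → e ∈ Λ')
    (hc : AS Q Λ D w F c) : (SG Λ D w).Reachable c d ↔ (SG Λ' D w).Reachable c d := by
  constructor
  · rintro ⟨p⟩
    induction p with
    | nil => exact SimpleGraph.Reachable.refl _
    | @cons a b _ ha _ ih =>
      have h3 := ih (H.closed hc ha)
      obtain ⟨e, he, hT⟩ := ha
      have h4 : (SG Λ' D w).Adj a b := ⟨e, h2 e he (hc.tch (TJ.sqs hT).2.1), hT⟩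
      exact h4.reachable.trans h3
  · rintro ⟨p⟩
    induction p with
    | nil => exact SimpleGraph.Reachable.refl _
    | @cons a b _ ha _ ih =>
      have h4 : (SG Λ D w).Adj a b := by
        obtain ⟨e, he, hT⟩ := ha
        exact ⟨e, h1 he, hT⟩
      exact h4.reachable.trans (ih (H.closed hc h4))

omit H in
/-- a side which a strand from `Q` can visit, at a tile of the layer -/
lemma adj_thin {Λ' : Set (ℤ × ℤ)} (h1 : Λ' ⊆ Λ) (h2 : ∀ e ∈ Λ, Tch Q e → e ∈ Λ')
    (hc : AS Q Λ D w F c) : (SG Λ D w).Adj c d ↔ (SG Λ' D w).Adj c d := by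
  constructor
  · rintro ⟨e, he, hT⟩
    exact ⟨e, h2 e he (hc.tch (TJ.sqs hT).2.1), hT⟩
  · rintro ⟨e, he, hT⟩
    exact ⟨e, h1 he, hT⟩

end Pool.Agent.H45.W
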