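import Mathlib
import Pool.Agent.H45.W.Ends
import Pool.Agent.H33.Q1.Tile

set_option autoImplicit false
open Finset

/-! # Local facts near the walls in tile coordinates (C6, J2)

`WldT` : the structure `Wld` in tile coordinates `(x, y)`, label `lt (x, y)`. -/

namespace Pool.Agent.H45.W

open Pool.Agent.H75.Perc Pool.Agent.H75.TwoArm Pool.Agent.H99.W Pool.Agent.H13.W Pool.Agent.H47.W
open Pool.Agent.H33.Q1 (lt tt tt_lt lt_tt lt_inj lt_odd)

variable {Q Λ D : Set (ℤ × ℤ)} {w : Finset (ℤ × ℤ)} {F : Set (ℤ × ℤ)} {c d e e' P : ℤ × ℤ}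

/-- the lattice point `(p, q)` is a corner of a tile of `Q` -/
def Near (Q : Set (ℤ × ℤ)) (p q : ℤ) : Prop :=
  lt (p, q) ∈ Q ∨ lt (p - 1, q) ∈ Q ∨ lt (p, q - 1) ∈ Q ∨ lt (p - 1, q - 1) ∈ Q

lemma PB_near (hQ : ∀ e ∈ Q, od e) (p q : ℤ) : PB Q (p - q, p + q) ↔ Near Q p q := by
  constructor
  · rintro ⟨e, he, c, h1, h2⟩
    have ho := hQ e he
    have h3 : e = lt (p, q) ∨ e = lt (p - 1, q) ∨ e = lt (p, q - 1) ∨ e = lt (p - 1, q - 1) := by
      obtain ⟨a, b⟩ := c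
      obtain ⟨x, y⟩ := e
      unfold od at ho
      unfold sq at h1 h2
      unfold lt
      simp only [Prod.mk.injEq] at *
      clear he hQ
      omega
    unfold Near
    rcases h3 with h | h | h | h
    · exact Or.inl (h ▸ he)
    · exact Or.inr (Or.inl (h ▸ he))
    · exact Or.inr (Or.inr (Or.inl (h ▸ he)))
    · exact Or.inr (Or.inr (Or.inr (h ▸ he)))
  · rintro (h | h | h | h)
    · refine ⟨_, h, eW (lt (p, q)), sq_eW _, ?_⟩
      exact ⟨Or.inl rfl, Or.inr (by show p + q = p + q + 1 - 1; ring)⟩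
    · refine ⟨_, h, eE (lt (p - 1, q)), sq_eE _, ?_⟩
      unfold sq eE lt; simp only; omega
    · refine ⟨_, h, eW (lt (p, q - 1)), sq_eW _, ?_⟩
      unfold sq eW lt; simp only; omega
    · refine ⟨_, h, eE (lt (p - 1, q - 1)), sq_eE _, ?_⟩
      unfold sq eE lt; simp only; omega

lemma up_lt (x y : ℤ) : up (lt (x, y)) = lt (x, y + 1) := by
  unfold up lt; exact Prod.ext (by simp only; ring) (by simp only; ring)
lemma dn_lt (x y : ℤ) : H13.W.dn (lt (x, y)) = lt (x, y - 1) := by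
  unfold H13.W.dn lt; exact Prod.ext (by simp only; ring) (by simp only; ring)
lemma rt_lt (x y : ℤ) : rt (lt (x, y)) = lt (x + 1, y) := by
  unfold rt lt; exact Prod.ext (by simp only; ring) (by simp only; ring)
lemma lf_lt (x y : ℤ) : lf (lt (x, y)) = lt (x - 1, y) := by
  unfold lf lt; exact Prod.ext (by simp only; ring) (by simp only; ring)

/-- **Local facts in tile coordinates.** -/
structure WldT (Q Λ D : Set (ℤ × ℤ)) (w : Finset (ℤ × ℤ)) (F : Set (ℤ × ℤ)) : Prop where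
  fin : Λ.Finite
  odd : ∀ e ∈ Λ, od e
  sub : Q ⊆ Λ
  lay : ∀ x y, lt (x, y) ∈ Q → lt (x + 1, y) ∈ Λ ∧ lt (x - 1, y) ∈ Λ ∧ lt (x, y + 1) ∈ Λ ∧
    lt (x, y - 1) ∈ Λ
  /-- the neighbour on the right -/
  nr : ∀ x y, lt (x, y) ∈ Λ → lt (x, y) ∉ Q → lt (x, y) ∉ D → (Near Q (x + 1) y ∨ Near Q (x + 1) (y + 1)) →
    lt (x + 1, y) ∈ Q ∨ (lt (x + 1, y) ∈ Λ ∧ lt (x + 1, y) ∉ D ∧ (lt (x + 1, y) ∈ w ↔ lt (x, y) ∈ w)) ∨
      (lt (x + 1, y) ∉ Λ ∧ eE (lt (x, y)) ∈ F)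
  /-- the neighbour on the left -/
  nl : ∀ x y, lt (x, y) ∈ Λ → lt (x, y) ∉ Q → lt (x, y) ∉ D → (Near Q x y ∨ Near Q x (y + 1)) →
    lt (x - 1, y) ∈ Q ∨ (lt (x - 1, y) ∈ Λ ∧ lt (x - 1, y) ∉ D ∧ (lt (x - 1, y) ∈ w ↔ lt (x, y) ∈ w)) ∨
      (lt (x - 1, y) ∉ Λ ∧ eW (lt (x, y)) ∈ F)
  /-- the neighbour above -/
  nu : ∀ x y, lt (x, y) ∈ Λ → lt (x, y) ∉ Q → lt (x, y) ∉ D → (Near Q x (y + 1) ∨ Near Q (x + 1) (y + 1)) →
    lt (x, y + 1) ∈ Q ∨ (lt (x, y + 1) ∈ Λ ∧ (lt (x, y + 1) ∉ D → (lt (x, y + 1) ∈ w ↔ lt (x, y) ∈ w))) ∨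
      (lt (x, y + 1) ∉ Λ ∧ eN (lt (x, y)) ∈ F)
  /-- the neighbour below -/
  nd : ∀ x y, lt (x, y) ∈ Λ → lt (x, y) ∉ Q → lt (x, y) ∉ D → (Near Q x y ∨ Near Q (x + 1) y) →
    lt (x, y - 1) ∈ Q ∨ (lt (x, y - 1) ∈ Λ ∧ (lt (x, y - 1) ∉ D → (lt (x, y - 1) ∈ w ↔ lt (x, y) ∈ w))) ∨
      (lt (x, y - 1) ∉ Λ ∧ eS (lt (x, y)) ∈ F)
  /-- a deleted row which crosses the layer -/
  del : ∀ x y, lt (x, y) ∈ Λ → lt (x, y) ∈ D → lt (x, y) ∉ Q →
    (Near Q x y ∨ Near Q x (y + 1) ∨ Near Q (x + 1) y ∨ Near Q (x + 1) (y + 1)) →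
    (lt (x, y + 1) ∈ Λ ∧ lt (x, y + 1) ∉ D ∧ lt (x, y + 1) ∉ Q) ∧
    (lt (x, y - 1) ∈ Λ ∧ lt (x, y - 1) ∉ D ∧ lt (x, y - 1) ∉ Q) ∧
    (lt (x, y + 1) ∈ w ↔ lt (x, y - 1) ∉ w) ∧
    (Near Q x y ↔ Near Q x (y + 1)) ∧ (Near Q (x + 1) y ↔ Near Q (x + 1) (y + 1))
  /-- the ends of the deleted rows belong to `F` -/
  row : ∀ x y, lt (x, y) ∈ Λ → lt (x, y) ∈ D →
    (eE (lt (x, y)) ∈ F ∨ lt (x + 1, y) ∈ D) ∧ (eW (lt (x, y)) ∈ F ∨ lt (x - 1, y) ∈ D)

/-- **from tile coordinates to labels** -/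
theorem WldT.wld (H : WldT Q Λ D w F) : Wld Q Λ D w F := by
  have hQ : ∀ e ∈ Q, od e := fun e he => H.odd e (H.sub he)
  refine ⟨H.fin, H.odd, H.sub, ?_, ?_, ?_, ?_⟩
  · intro e he c hc
    have ho := hQ e he
    obtain ⟨⟨x, y⟩, rfl⟩ : ∃ t, e = lt t := ⟨tt e, (lt_tt ho).symm⟩
    obtain ⟨l1, l2, l3, l4⟩ := H.lay x y he
    rcases (sq_iff ho).1 hc with rfl | rfl | rfl | rfl
    · rw [ot_eW, lf_lt]; exact l2
    · rw [ot_eE, rt_lt]; exact l1
    · rw [ot_eS, dn_lt]; exact l4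
    · rw [ot_eN, up_lt]; exact l3
  · intro P e c hP hev he heQ heD ht hc hcP
    have ho := H.odd e he
    obtain ⟨⟨x, y⟩, rfl⟩ : ∃ t, e = lt t := ⟨tt e, (lt_tt ho).symm⟩
    -- the four points
    have hNW : ((lt (x, y)).1 - 1, (lt (x, y)).2) = ((x - (y + 1) : ℤ), (x + (y + 1) : ℤ)) := by
      unfold lt; exact Prod.ext (by simp only; ring) (by simp only; ring)
    have hSE : ((lt (x, y)).1 + 1, (lt (x, y)).2) = (((x + 1) - y : ℤ), ((x + 1) + y : ℤ)) := by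
      unfold lt; exact Prod.ext (by simp only; ring) (by simp only; ring)
    have hSW : ((lt (x, y)).1, (lt (x, y)).2 - 1) = ((x - y : ℤ), (x + y : ℤ)) := by
      unfold lt; exact Prod.ext (by simp only) (by simp only; ring)
    have hNE : ((lt (x, y)).1, (lt (x, y)).2 + 1) = (((x + 1) - (y + 1) : ℤ), ((x + 1) + (y + 1) : ℤ)) := by
      unfold lt; exact Prod.ext (by simp only; ring) (by simp only; ring)
    have R : (Near Q (x + 1) y ∨ Near Q (x + 1) (y + 1)) → c = eE (lt (x, y)) →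
        ot c (lt (x, y)) ∈ Q ∨ Pass Λ D w F (ot c (lt (x, y))) c P := by
      rintro hn rfl
      rw [ot_eE, rt_lt]
      rcases H.nr x y he heQ heD hn with h | ⟨h1, h2, h3⟩ | h
      · exact Or.inl h
      · exact Or.inr (Or.inl ⟨h1, h2, h3.trans ht⟩)
      · exact Or.inr (Or.inr (Or.inr h))
    have L : (Near Q x y ∨ Near Q x (y + 1)) → c = eW (lt (x, y)) →
        ot c (lt (x, y)) ∈ Q ∨ Pass Λ D w F (ot c (lt (x, y))) c P := by
      rintro hn rfl
      rw [ot_eW, lf_lt]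
      rcases H.nl x y he heQ heD hn with h | ⟨h1, h2, h3⟩ | h
      · exact Or.inl h
      · exact Or.inr (Or.inl ⟨h1, h2, h3.trans ht⟩)
      · exact Or.inr (Or.inr (Or.inr h))
    have U : (Near Q x (y + 1) ∨ Near Q (x + 1) (y + 1)) → c = eN (lt (x, y)) →
        ot c (lt (x, y)) ∈ Q ∨ Pass Λ D w F (ot c (lt (x, y))) c P := by
      rintro hn rfl
      rw [ot_eN, up_lt]
      rcases H.nu x y he heQ heD hn with h | ⟨h1, h2⟩ | h
      · exact Or.inl h
      · right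
        by_cases hd : lt (x, y + 1) ∈ D
        · refine Or.inr (Or.inl ⟨h1, hd, Or.inl ?_⟩)
          rw [← up_lt]
          unfold eS up eN; exact Prod.ext (by simp only; ring) (by simp only)
        · exact Or.inl ⟨h1, hd, (h2 hd).trans ht⟩
      · exact Or.inr (Or.inr (Or.inr h))
    have Dn : (Near Q x y ∨ Near Q (x + 1) y) → c = eS (lt (x, y)) →
        ot c (lt (x, y)) ∈ Q ∨ Pass Λ D w F (ot c (lt (x, y))) c P := by
      rintro hn rfl
      rw [ot_eS, dn_lt]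
      rcases H.nd x y he heQ heD hn with h | ⟨h1, h2⟩ | h
      · exact Or.inl h
      · right
        by_cases hd : lt (x, y - 1) ∈ D
        · refine Or.inr (Or.inl ⟨h1, hd, Or.inr ?_⟩)
          rw [← dn_lt, eN_dn]
        · exact Or.inl ⟨h1, hd, (h2 hd).trans ht⟩
      · exact Or.inr (Or.inr (Or.inr h))
    rcases sides_at ho hev hc hcP with ⟨rfl, h⟩ | ⟨rfl, h⟩ | ⟨rfl, h⟩ | ⟨rfl, h⟩
    · rw [hNW, PB_near hQ] at hP
      rcases h with h | h
      · exact L (Or.inr hP) h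
      · exact U (Or.inl hP) h
    · rw [hSE, PB_near hQ] at hP
      rcases h with h | h
      · exact Dn (Or.inr hP) h
      · exact R (Or.inl hP) h
    · rw [hSW, PB_near hQ] at hP
      rcases h with h | h
      · exact L (Or.inl hP) h
      · exact Dn (Or.inl hP) h
    · rw [hNE, PB_near hQ] at hP
      rcases h with h | h
      · exact U (Or.inr hP) h
      · exact R (Or.inr hP) h
  · intro e he heD heQ P hP hev hs
    have ho := H.odd e he
    obtain ⟨⟨x, y⟩, rfl⟩ : ∃ t, e = lt t := ⟨tt e, (lt_tt ho).symm⟩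
    have hNW : ((lt (x, y)).1 - 1, (lt (x, y)).2) = ((x - (y + 1) : ℤ), (x + (y + 1) : ℤ)) := by
      unfold lt; exact Prod.ext (by simp only; ring) (by simp only; ring)
    have hSE : ((lt (x, y)).1 + 1, (lt (x, y)).2) = (((x + 1) - y : ℤ), ((x + 1) + y : ℤ)) := by
      unfold lt; exact Prod.ext (by simp only; ring) (by simp only; ring)
    have hSW : ((lt (x, y)).1, (lt (x, y)).2 - 1) = ((x - y : ℤ), (x + y : ℤ)) := by
      unfold lt; exact Prod.ext (by simp only) (by simp only; ring)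
    have hNE : ((lt (x, y)).1, (lt (x, y)).2 + 1) = (((x + 1) - (y + 1) : ℤ), ((x + 1) + (y + 1) : ℤ)) := by
      unfold lt; exact Prod.ext (by simp only; ring) (by simp only; ring)
    have eu : ∀ p q : ℤ, up ((p - q : ℤ), (p + q : ℤ)) = ((p - (q + 1) : ℤ), (p + (q + 1) : ℤ)) := by
      intro p q; unfold up; exact Prod.ext (by simp only; ring) (by simp only; ring)
    have ed : ∀ p q : ℤ, H13.W.dn ((p - (q + 1) : ℤ), (p + (q + 1) : ℤ)) = ((p - q : ℤ), (p + q : ℤ)) := by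
      intro p q; unfold H13.W.dn; exact Prod.ext (by simp only; ring) (by simp only; ring)
    -- the point in tile coordinates
    have key : (P = ((x - (y + 1) : ℤ), (x + (y + 1) : ℤ)) ∨ P = (((x + 1) - (y + 1) : ℤ), ((x + 1) + (y + 1) : ℤ))) ∨
        (P = ((x - y : ℤ), (x + y : ℤ)) ∨ P = (((x + 1) - y : ℤ), ((x + 1) + y : ℤ))) := by
      rcases hs with hs | hs
      · rcases sides_at ho hev (sq_eN _) hs with ⟨rfl, -⟩ | ⟨rfl, h⟩ | ⟨rfl, h⟩ | ⟨rfl, -⟩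
        · exact Or.inl (Or.inl hNW)
        · exact Or.inr (Or.inr hSE)
        · exact Or.inr (Or.inl hSW)
        · exact Or.inl (Or.inr hNE)
      · rcases sides_at ho hev (sq_eS _) hs with ⟨rfl, -⟩ | ⟨rfl, h⟩ | ⟨rfl, h⟩ | ⟨rfl, -⟩
        · exact Or.inl (Or.inl hNW)
        · exact Or.inr (Or.inr hSE)
        · exact Or.inr (Or.inl hSW)
        · exact Or.inl (Or.inr hNE)
    have hn : Near Q x y ∨ Near Q x (y + 1) ∨ Near Q (x + 1) y ∨ Near Q (x + 1) (y + 1) := by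
      rcases key with (rfl | rfl) | (rfl | rfl) <;> rw [PB_near hQ] at hP <;> tauto
    obtain ⟨g1, g2, g3, g4, g5⟩ := H.del x y he heD heQ hn
    rw [up_lt, dn_lt]
    refine ⟨g1, g2, g3, fun hN => ?_, fun hS => ?_⟩
    · -- the point is on the north side
      have h1 : P = ((x - (y + 1) : ℤ), (x + (y + 1) : ℤ)) ∨
          P = (((x + 1) - (y + 1) : ℤ), ((x + 1) + (y + 1) : ℤ)) := by
        rcases key with h | (rfl | rfl)
        · exact h
        · exfalso; unfold sq eN lt at hN; simp only at hN; omega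
        · exfalso; unfold sq eN lt at hN; simp only at hN; omega
      rcases h1 with rfl | rfl
      · rw [ed, PB_near hQ]; rw [PB_near hQ] at hP; exact g4.2 hP
      · rw [ed, PB_near hQ]; rw [PB_near hQ] at hP; exact g5.2 hP
    · have h1 : P = ((x - y : ℤ), (x + y : ℤ)) ∨ P = (((x + 1) - y : ℤ), ((x + 1) + y : ℤ)) := by
        rcases key with (rfl | rfl) | h
        · exfalso; unfold sq eS lt at hS; simp only at hS; omega
        · exfalso; unfold sq eS lt at hS; simp only at hS; omega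
        · exact h
      rcases h1 with rfl | rfl
      · rw [eu, PB_near hQ]; rw [PB_near hQ] at hP; exact g4.1 hP
      · rw [eu, PB_near hQ]; rw [PB_near hQ] at hP; exact g5.1 hP
  · intro e he heD
    have ho := H.odd e he
    obtain ⟨⟨x, y⟩, rfl⟩ : ∃ t, e = lt t := ⟨tt e, (lt_tt ho).symm⟩
    rw [rt_lt, lf_lt]
    exact H.row x y he heD

/-- a tile touches `Q`, in tile coordinates -/
lemma tch_iff (hQ : ∀ e ∈ Q, od e) (x y : ℤ) : Tch Q (lt (x, y)) ↔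
    (Near Q x y ∨ Near Q x (y + 1) ∨ Near Q (x + 1) y ∨ Near Q (x + 1) (y + 1)) := by
  have ho : od (lt (x, y)) := lt_odd _
  have hNW : ((lt (x, y)).1 - 1, (lt (x, y)).2) = ((x - (y + 1) : ℤ), (x + (y + 1) : ℤ)) := by
    unfold lt; exact Prod.ext (by simp only; ring) (by simp only; ring)
  have hSE : ((lt (x, y)).1 + 1, (lt (x, y)).2) = (((x + 1) - y : ℤ), ((x + 1) + y : ℤ)) := by
    unfold lt; exact Prod.ext (by simp only; ring) (by simp only; ring)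
  have hSW : ((lt (x, y)).1, (lt (x, y)).2 - 1) = ((x - y : ℤ), (x + y : ℤ)) := by
    unfold lt; exact Prod.ext (by simp only) (by simp only; ring)
  have hNE : ((lt (x, y)).1, (lt (x, y)).2 + 1) = (((x + 1) - (y + 1) : ℤ), ((x + 1) + (y + 1) : ℤ)) := by
    unfold lt; exact Prod.ext (by simp only; ring) (by simp only; ring)
  constructor
  · rintro ⟨P, c, h1, h2, h3, h4⟩
    rcases sides_at ho h1 h3 h4 with ⟨rfl, -⟩ | ⟨rfl, -⟩ | ⟨rfl, -⟩ | ⟨rfl, -⟩
    · rw [hNW, PB_near hQ] at h2; tauto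
    · rw [hSE, PB_near hQ] at h2; tauto
    · rw [hSW, PB_near hQ] at h2; tauto
    · rw [hNE, PB_near hQ] at h2; tauto
  · rintro (h | h | h | h)
    · refine ⟨((x - y : ℤ), (x + y : ℤ)), eW (lt (x, y)), ?_, (PB_near hQ x y).2 h, sq_eW _, ?_⟩
      · unfold ev; simp only; omega
      · exact ⟨Or.inl rfl, Or.inr (by show x + y = x + y + 1 - 1; ring)⟩
    · refine ⟨((x - (y + 1) : ℤ), (x + (y + 1) : ℤ)), eN (lt (x, y)), ?_, (PB_near hQ _ _).2 h,
        sq_eN _, ?_⟩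
      · unfold ev; simp only; omega
      · unfold sq eN lt; simp only; omega
    · refine ⟨(((x + 1) - y : ℤ), ((x + 1) + y : ℤ)), eE (lt (x, y)), ?_, (PB_near hQ _ _).2 h,
        sq_eE _, ?_⟩
      · unfold ev; simp only; omega
      · unfold sq eE lt; simp only; omega
    · refine ⟨(((x + 1) - (y + 1) : ℤ), ((x + 1) + (y + 1) : ℤ)), eE (lt (x, y)), ?_,
        (PB_near hQ _ _).2 h, sq_eE _, ?_⟩
      · unfold ev; simp only; omega
      · unfold sq eE lt; simp only; omega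

end Pool.Agent.H45.W
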