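import Mathlib
import Pool.Agent.H45.W.Ends
import Pool.Agent.H47.W.Room8
import Pool.Agent.H68.W.RoomS

set_option autoImplicit false
open Finset

/-! # Inputs of a moving end in a fine room

`yo_all` : a far end has a tile outside of `Lam3`. `yi_all` : the far ends are different. `sx_room` : the
deleted row leaves the polygon through a straight wall. -/

namespace Pool.Agent.H45.W

open Pool.Agent.H75.Perc hiding WL CT hh PB EE
open Pool.Agent.H75.TwoArm Pool.Agent.H99.W Pool.Agent.H13.W Pool.Agent.H33.Q1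
open Pool.Agent.Q1.M4 (Cell)
open Pool.Agent.H21.FM (Shape)
open Pool.Agent.H78.W (FRm)
open Pool.Agent.H68.W (InS le_div_iff' div_lt_iff')
open Pool.Agent.H74.W (Lam3 yy)

variable {S : Shape} {h : ℕ}

theorem yo_all (hh : 2 ≤ h) (p : ℤ × ℤ) (j : Fin 3) :
    ∃ e, od e ∧ sq (yy S h p j) e ∧ e ∉ (Lam3 S h : Set (ℤ × ℤ)) := by
  obtain ⟨-, o, ho, ho'⟩ := Pool.Agent.H47.W.yy_bd (S := S) hh p j
  obtain ⟨h1, h2⟩ := (lab_iff _ _).1 ho'
  exact ⟨o, h1, h2, ho⟩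

theorem yi_all (hh : 2 ≤ h) (p : ℤ × ℤ) : Function.Injective (yy S h p) := by
  intro i j hij
  by_contra hne
  exact Pool.Agent.H47.W.yy_ne hh p hne hij

variable {κ : Type*} {pl : Cell → Option κ} {W y0 y1 : ℤ} {A : ℤ → ℤ}

/-- **The exit is straight.** -/
theorem sx_room (R : FRm S.P.Q pl W y0 y1 A) (hh : 1 ≤ h) {p : ℤ × ℤ} (hp : InS W y0 y1 A (2 * h) p) :
    p.1 ≤ 2 * h * W ∧ (∀ x, p.1 ≤ x → x < 2 * h * W → ct (2 * h) (x, p.2) ∈ S.P.Q) ∧
    (∀ y, p.2 - 1 ≤ y → y ≤ p.2 + 1 → ct (2 * h) (2 * h * W, y) ∉ S.P.Q ∧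
      ct (2 * h) (2 * h * W - 1, y) ∈ S.P.Q) := by
  have hn0 : (0 : ℤ) < 2 * (h : ℤ) := by omega
  obtain ⟨h0, h1⟩ := Pool.Agent.H68.W.InS.row R hh hp
  have hlo := hp.lo
  have hhi := hp.hi
  refine ⟨hp.re, fun x a b => ?_, fun y a b => ⟨?_, ?_⟩⟩
  · exact (R.nat _ _ h0 h1 ((le_div_iff' hn0).2 (hp.le.trans a)) ((div_lt_iff' hn0).2 b)).1
  · have e : 2 * (h : ℤ) * W / (2 * h) = W := Int.mul_ediv_cancel_left _ (by omega)
    unfold ct
    simp only
    rw [e]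
    have k1 : y0 ≤ y / (2 * (h : ℤ)) := (le_div_iff' hn0).2 (by omega)
    have k2 : y / (2 * (h : ℤ)) < y1 := (div_lt_iff' hn0).2 (by omega)
    exact R.rt _ (by omega) (by omega)
  · have k1 : y0 ≤ y / (2 * (h : ℤ)) := (le_div_iff' hn0).2 (by omega)
    have k2 : y / (2 * (h : ℤ)) < y1 := (div_lt_iff' hn0).2 (by omega)
    have k3 := R.AW _ k1 k2
    have e1 : (2 * (h : ℤ) * W - 1) / (2 * h) = W - 1 := by
      rw [Int.ediv_eq_iff_of_pos hn0]
      constructor <;> nlinarith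
    unfold ct
    simp only
    rw [e1]
    exact (R.nat _ _ k1 k2 (by omega) (by omega)).1

end Pool.Agent.H45.W
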