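import Mathlib
import Pool.Agent.H29.W.RoomA
import Pool.Agent.H45.W.EndsT
import Pool.Agent.H45.W.InY
import Pool.Agent.H72.W.EndsX

set_option autoImplicit false
open Finset

/-! # The exit of the deleted row of a fine room

`del_S`, `row_S` : the fields `del`, `row` of helper29's `WldX` for the world of a shape. `toX` : helper72's
`WldV` and `Ext` with these fields give `WldX`. -/

namespace Pool.Agent.H45.W

open Pool.Agent.H75.Perc hiding WL CT hh EE PB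
open Pool.Agent.H75.TwoArm Pool.Agent.H99.W Pool.Agent.H13.W
open Pool.Agent.H33.Q1 (lt tt tt_lt lt_tt lt_inj lt_odd ct lt_mem_TL)
open Pool.Agent.Q1.M4 (Cell)
open Pool.Agent.H21.FM (Shape EE)
open Pool.Agent.H78.W (FRm)
open Pool.Agent.H68.W (InS le_div_iff' div_lt_iff' dq del_room near_Lam3 ex_room wallR ml)
open Pool.Agent.H74.W (Lam3 yy Del Wp)
open Pool.Agent.H72.W.V (WldV Ext)
open Pool.Agent.H29.W (WldX)

/-- **From helper72's worlds to helper29's worlds.** -/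
theorem toX {Q Λ Λ₂ D : Set (ℤ × ℤ)} {w : Finset (ℤ × ℤ)} {F : Set (ℤ × ℤ)} (H : WldV Q Λ D w F)
    (X : Ext Q Λ Λ₂ F) (fin : Λ₂.Finite) (odd₂ : ∀ e ∈ Λ₂, od e)
    (hx : ∀ e ∈ Λ₂, e ∉ Λ → ∀ P c, PB Q P → ev P → (e ∈ w ↔ P.1 % 2 = 1) → sq c e → sq c P →
      ¬ Pass Λ₂ D w F (ot c e) c P)
    (del : ∀ e ∈ Λ₂, e ∈ D → e ∉ Q → ∀ P, PB Q P → ev P → (sq (eN e) P ∨ sq (eS e) P) →
      (up e ∈ Λ₂ ∧ up e ∉ D ∧ up e ∉ Q) ∧ (H13.W.dn e ∈ Λ₂ ∧ H13.W.dn e ∉ D ∧ H13.W.dn e ∉ Q) ∧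
      (up e ∈ w ↔ H13.W.dn e ∉ w) ∧ (sq (eN e) P → PB Q (H13.W.dn P)) ∧ (sq (eS e) P → PB Q (up P)))
    (row : ∀ e ∈ Λ₂, e ∈ D → (eE e ∈ F ∨ rt e ∈ D ∨ rt e ∉ Λ₂) ∧ (eW e ∈ F ∨ lf e ∈ D ∨ lf e ∉ Λ₂)) :
    WldX Q Λ₂ D w F where
  fin := fin
  odd := odd₂
  sub := fun e he => X.sub (H.sub he)
  lay := fun e he c hc => X.sub (H.lay e he c hc)
  nxt := by
    intro P e c c' h1 h2 h3 h4 h5 h6 h7 h8 h9 h10 _ h12
    by_cases he : e ∈ Λ
    · rcases H.nxt P e c h1 h2 he h4 h5 h6 h7 h8 with g | g | g | ⟨g1, g2⟩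
      · exact Or.inl g
      · exact Or.inr (Or.inl ⟨X.sub g.1, g.2.1, g.2.2⟩)
      · exact Or.inr (Or.inr (Or.inl ⟨X.sub g.1, g.2.1, g.2.2⟩))
      · refine Or.inr (Or.inr (Or.inr ⟨fun g3 => ?_, g2⟩))
        exact (X.ext _ g3 g1 c (sq_ot h7)).1 g2
    · exfalso
      rcases h12 with g | g
      · exact (X.ext e h3 he c' h9).2 _ g (sq_ot h9)
      · exact hx e h3 he P c' h1 h2 h6 h9 h10 g
  del := del
  row := row

variable {κ : Type*} {S : Shape} {pl : Cell → Option κ} {W y0 y1 : ℤ} {A : ℤ → ℤ} {h : ℕ} {p : ℤ × ℤ}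
  (R : FRm S.P.Q pl W y0 y1 A) (hh : 1 ≤ h) (hp : InS W y0 y1 A (2 * h) p)
include R hh hp

lemma outR {x y : ℤ} (h1 : 2 * h * W ≤ x) (h2 : x < 2 * h * W + 2 * h) (h3 : p.2 - 1 ≤ y)
    (h4 : y ≤ p.2 + 1) : lt (x, y) ∉ EE S h := by
  have hn0 : (0 : ℤ) < 2 * (h : ℤ) := by omega
  have hlo := hp.lo
  have hhi := hp.hi
  unfold EE
  rw [lt_mem_TL hn0]
  show (x / (2 * (h : ℤ)), y / (2 * (h : ℤ))) ∉ S.P.Q
  rw [dq hn0 h1 h2]
  have k1 : y0 ≤ y / (2 * (h : ℤ)) := (le_div_iff' hn0).2 (by omega)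
  have k2 : y / (2 * (h : ℤ)) < y1 := (div_lt_iff' hn0).2 (by omega)
  exact R.rt _ (by omega) (by omega)

/-- the exit tile -/
lemma exit_S {e : ℤ × ℤ} (heD : e ∈ Del S.P.Q (2 * h) p) (heQ : e ∉ (EE S h : Set (ℤ × ℤ))) :
    e = lt (2 * h * W, p.2) := by
  have hn0 : (0 : ℤ) < 2 * (h : ℤ) := by omega
  obtain ⟨x, v, rfl⟩ : ∃ x v, e = lt (x, v) := ⟨(tt e).1, (tt e).2, (lt_tt heD.1).symm⟩
  rw [del_room R hh hp] at heD
  obtain ⟨rfl, h2, h3⟩ := heD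
  rcases lt_or_eq_of_le h3 with h4 | h4
  · exfalso
    apply heQ
    rw [Finset.mem_coe]
    unfold EE
    rw [lt_mem_TL hn0]
    exact (sx_room R hh hp).2.1 x h2 h4
  · rw [h4]

lemma nearR {y : ℤ} (h3 : p.2 - 1 ≤ y) (h4 : y ≤ p.2 + 1) : lt (2 * h * W, y) ∈ Lam3 S h :=
  near_Lam3 hh (Or.inr (Or.inl ((sx_room R hh hp).2.2 y h3 h4).2))

theorem del_S {T : Finset (ℤ × ℤ)} (hT : T ⊆ EE S h) : ∀ e ∈ (Lam3 S h : Set (ℤ × ℤ)),
    e ∈ Del S.P.Q (2 * h) p → e ∉ (EE S h : Set (ℤ × ℤ)) → ∀ P, PB (EE S h : Set (ℤ × ℤ)) P → ev P →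
    (sq (eN e) P ∨ sq (eS e) P) →
      (up e ∈ (Lam3 S h : Set (ℤ × ℤ)) ∧ up e ∉ Del S.P.Q (2 * h) p ∧ up e ∉ (EE S h : Set (ℤ × ℤ))) ∧
      (H13.W.dn e ∈ (Lam3 S h : Set (ℤ × ℤ)) ∧ H13.W.dn e ∉ Del S.P.Q (2 * h) p ∧
        H13.W.dn e ∉ (EE S h : Set (ℤ × ℤ))) ∧
      (up e ∈ T ∪ Wp S h p ↔ H13.W.dn e ∉ T ∪ Wp S h p) ∧
      (sq (eN e) P → PB (EE S h : Set (ℤ × ℤ)) (H13.W.dn P)) ∧
      (sq (eS e) P → PB (EE S h : Set (ℤ × ℤ)) (up P)) := by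
  intro e heΛ heD heQ P hP hev hs
  have hn0 : (0 : ℤ) < 2 * (h : ℤ) := by omega
  have hlo := hp.lo
  have hhi := hp.hi
  obtain rfl := exit_S R hh hp heD heQ
  obtain ⟨r0, r1⟩ := Pool.Agent.H68.W.InS.row R hh hp
  have hQo : ∀ e ∈ (EE S h : Set (ℤ × ℤ)), od e := by
    intro e he
    rw [Finset.mem_coe, Pool.Agent.H72.W.V.mem_EE hh] at he
    exact he.1
  have u1 : lt (2 * h * W, p.2 + 1) ∉ EE S h := outR R hh hp le_rfl (by omega) (by omega) (by omega)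
  have d1 : lt (2 * h * W, p.2 - 1) ∉ EE S h := outR R hh hp le_rfl (by omega) (by omega) (by omega)
  have nr : ∀ y, p.2 ≤ y → y ≤ p.2 + 1 → PB (EE S h : Set (ℤ × ℤ)) ((2 * h * W - y : ℤ), (2 * h * W + y : ℤ)) := by
    intro y g1 g2
    rw [PB_near hQo]
    rcases eq_or_lt_of_le g1 with g | g
    · right; left
      rw [Finset.mem_coe]
      unfold EE
      rw [lt_mem_TL hn0]
      exact ((sx_room R hh hp).2.2 y (by omega) (by omega)).2
    · right; right; right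
      rw [Finset.mem_coe]
      unfold EE
      rw [lt_mem_TL hn0]
      exact ((sx_room R hh hp).2.2 (y - 1) (by omega) (by omega)).2
  have nf : ∀ y, p.2 ≤ y → y ≤ p.2 + 1 →
      ¬ PB (EE S h : Set (ℤ × ℤ)) ((2 * h * W + 1 - y : ℤ), (2 * h * W + 1 + y : ℤ)) := by
    intro y g1 g2 g3
    rw [PB_near hQo] at g3
    rcases g3 with g | g | g | g <;> rw [Finset.mem_coe] at g
    · exact outR R hh hp (by omega) (by omega) (by omega) (by omega) g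
    · exact outR R hh hp (by omega) (by omega) (by omega) (by omega) g
    · exact outR R hh hp (by omega) (by omega) (by omega) (by omega) g
    · exact outR R hh hp (by omega) (by omega) (by omega) (by omega) g
  rw [up_lt, dn_lt]
  refine ⟨⟨nearR R hh hp (by omega) (by omega), ?_, u1⟩, ⟨nearR R hh hp (by omega) (by omega), ?_, d1⟩,
    ?_, fun hN => ?_, fun hS => ?_⟩
  · rw [del_room R hh hp]; omega
  · rw [del_room R hh hp]; omega
  · have hte := fun t => ex_room R hh hp (t := t)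
    have k1 : y0 ≤ (p.2 + 1) / (2 * (h : ℤ)) := (le_div_iff' hn0).2 (by omega)
    have k2 : (p.2 + 1) / (2 * (h : ℤ)) < y1 := (div_lt_iff' hn0).2 (by omega)
    have k3 : y0 ≤ (p.2 - 1) / (2 * (h : ℤ)) := (le_div_iff' hn0).2 (by omega)
    have k4 : (p.2 - 1) / (2 * (h : ℤ)) < y1 := (div_lt_iff' hn0).2 (by omega)
    have a1 := wallR R hh r0 r1 hte k1 k2 (x := 2 * h * W) rfl rfl
    have a2 := wallR R hh r0 r1 hte k3 k4 (x := 2 * h * W) rfl rfl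
    have b1 : lt (2 * h * W, p.2 + 1) ∉ T := fun g => u1 (hT g)
    have b2 : lt (2 * h * W, p.2 - 1) ∉ T := fun g => d1 (hT g)
    rw [mem_union, mem_union, or_iff_right b1, or_iff_right b2, a1, a2]
    have c1 : p.2 < p.2 + 1 := by omega
    have c2 : ¬ p.2 < p.2 - 1 := by omega
    simp only [c1, c2, decide_true, decide_false, Bool.xor_true, Bool.xor_false]
    cases decide (S.m2 ≤ Pool.Agent.H68.W.sx S.P (W - 1, y0) 1 ∧
      Pool.Agent.H68.W.sx S.P (W - 1, y0) 1 < S.m3) <;> simp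
  · -- the point is on the north side
    have h1 : P = ((2 * h * W - (p.2 + 1) : ℤ), (2 * h * W + (p.2 + 1) : ℤ)) ∨
        P = ((2 * h * W + 1 - (p.2 + 1) : ℤ), (2 * h * W + 1 + (p.2 + 1) : ℤ)) := by
      obtain ⟨a, b⟩ := P
      unfold sq eN lt at hN
      unfold ev at hev
      simp only [Prod.mk.injEq] at *
      omega
    rcases h1 with rfl | rfl
    · have := nr p.2 le_rfl (by omega)
      have e1 : H13.W.dn ((2 * h * W - (p.2 + 1) : ℤ), (2 * h * W + (p.2 + 1) : ℤ)) =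
          ((2 * h * W - p.2 : ℤ), (2 * h * W + p.2 : ℤ)) := by
        unfold H13.W.dn; exact Prod.ext (by simp only; ring) (by simp only; ring)
      rw [e1]; exact this
    · exact absurd hP (nf _ (by omega) le_rfl)
  · have h1 : P = ((2 * h * W - p.2 : ℤ), (2 * h * W + p.2 : ℤ)) ∨
        P = ((2 * h * W + 1 - p.2 : ℤ), (2 * h * W + 1 + p.2 : ℤ)) := by
      obtain ⟨a, b⟩ := P
      unfold sq eS lt at hS
      unfold ev at hev
      simp only [Prod.mk.injEq] at *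
      omega
    rcases h1 with rfl | rfl
    · have := nr (p.2 + 1) (by omega) le_rfl
      have e1 : up ((2 * h * W - p.2 : ℤ), (2 * h * W + p.2 : ℤ)) =
          ((2 * h * W - (p.2 + 1) : ℤ), (2 * h * W + (p.2 + 1) : ℤ)) := by
        unfold up; exact Prod.ext (by simp only; ring) (by simp only; ring)
      rw [e1]; exact this
    · exact absurd hP (nf _ le_rfl (by omega))

theorem row_S (h4 : 4 ≤ h) {F : Set (ℤ × ℤ)} (hF : eW (lt p) ∈ F) : ∀ e ∈ (Lam3 S h : Set (ℤ × ℤ)),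
    e ∈ Del S.P.Q (2 * h) p →
      (eE e ∈ F ∨ rt e ∈ Del S.P.Q (2 * h) p ∨ rt e ∉ (Lam3 S h : Set (ℤ × ℤ))) ∧
      (eW e ∈ F ∨ lf e ∈ Del S.P.Q (2 * h) p ∨ lf e ∉ (Lam3 S h : Set (ℤ × ℤ))) := by
  intro e _ heD
  have hn0 : (0 : ℤ) < 2 * (h : ℤ) := by omega
  have hlo := hp.lo
  have hhi := hp.hi
  obtain ⟨x, v, rfl⟩ : ∃ x v, e = lt (x, v) := ⟨(tt e).1, (tt e).2, (lt_tt heD.1).symm⟩
  rw [del_room R hh hp] at heD
  obtain ⟨rfl, h2, h3⟩ := heD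
  rw [rt_lt, lf_lt]
  constructor
  · right
    rcases lt_or_eq_of_le h3 with h5 | h5
    · left
      rw [del_room R hh hp]
      omega
    · right
      have k := (Pool.Agent.H29.W.thinR R (fun _ => false) h4).2 (p.2 - 2 * h * y0) (by omega) (by
        have : 2 * (h : ℤ) * (y1 - y0) = 2 * h * y1 - 2 * h * y0 := by ring
        show p.2 - 2 * h * y0 < 2 * h * (y1 - y0)
        omega)
      rw [h5]
      rw [sub_add_cancel] at k
      exact k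
  · rcases eq_or_lt_of_le h2 with h5 | h5
    · left
      rw [← h5]
      exact hF
    · right; left
      rw [del_room R hh hp]
      omega

end Pool.Agent.H45.W
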