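import Mathlib
import Pool.Agent.H29.W.StHol
import Pool.Agent.H45.W.InB

set_option autoImplicit false
open Finset

/-! # Worlds of a moving end in a fine room

`inWA` : helper29's input `InWA` of `StHol`. -/

namespace Pool.Agent.H45.W

open Pool.Agent.H75.Perc hiding WL CT hh EE PB
open Pool.Agent.H75.TwoArm Pool.Agent.H99.W Pool.Agent.H13.W
open Pool.Agent.H33.Q1 (lt tt tt_lt lt_tt lt_inj lt_odd ct lt_mem_TL LY mem_LY)
open Pool.Agent.Q1.M4 (Cell)
open Pool.Agent.H21.FM (Shape EE)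
open Pool.Agent.H78.W (FRm)
open Pool.Agent.H68.W (InS le_div_iff' div_lt_iff' dq del_room near_Lam3 ex_room wallR ml)
open Pool.Agent.H74.W (Lam3 yy Del Wp Ex Cv)
open Pool.Agent.H72.W.V (WldV Ext LamC FF ClW One XD cs T LY_of LY_T T_not_EE LY_not_EE vtx wallpt at_pt
  exists_XD W_par sq_cs ot_cs)
open Pool.Agent.H29.W (WldX InW InWA)
open Pool.Agent.H37.W (dg dg_inj dg_not_LY dg_not_EE)

variable {κ : Type*} {S : Shape} {pl : Cell → Option κ} {W y0 y1 : ℤ} {A : ℤ → ℤ} {h : ℕ} {p : ℤ × ℤ}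

lemma dir4 (k : ℤ) : (k % 4 = 0 ∧ dir k = (1, 0)) ∨ (k % 4 = 1 ∧ dir k = (0, 1)) ∨
    (k % 4 = 2 ∧ dir k = (-1, 0)) ∨ (k % 4 = 3 ∧ dir k = (0, -1)) := dir_cases k

section

variable (R : FRm S.P.Q pl W y0 y1 A) (hh : 1 ≤ h) (hp : InS W y0 y1 A (2 * h) p)
include R hh hp

/-- the cells of the right wall -/
lemma outC {x y : ℤ} (h1 : 2 * h * W ≤ x) (h2 : x < 2 * h * W + 2 * h) (h3 : p.2 - 1 ≤ y)
    (h4 : y ≤ p.2 + 1) : ct (2 * h) (x, y) ∉ S.P.Q := by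
  intro h5
  apply outR R hh hp h1 h2 h3 h4
  unfold EE
  rw [lt_mem_TL (by omega)]
  exact h5

lemma layR {y : ℤ} (h3 : p.2 - 1 ≤ y) (h4 : y ≤ p.2 + 1) :
    ∃ i < S.N, lt (2 * h * W, y) ∈ LY (2 * (h : ℤ)) (S.P.side i) := by
  have h1 := outC R hh hp (x := 2 * h * W) le_rfl (by omega) h3 h4
  have h2 := ((sx_room R hh hp).2.2 y h3 h4).2
  have e0 : ((2 * h * W, y) : ℤ × ℤ) - dir 0 = (2 * h * W - 1, y) := by
    rcases dir4 0 with ⟨-, e⟩ | ⟨g, -⟩ | ⟨g, -⟩ | ⟨g, -⟩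
    · rw [e]; simp
    · omega
    · omega
    · omega
  obtain ⟨i, hi, -, hl⟩ := LY_of (S := S) (h := h) (by omega) (t := (2 * h * W, y)) (l := 0) h1
    (by rw [e0]; exact h2)
  exact ⟨i, hi, hl⟩

lemma exS : ∃ t, Ex S h p t := ⟨_, (ex_room R hh hp).2 rfl⟩

lemma oneS : One S h p := by
  have hn0 : (0 : ℤ) < 2 * (h : ℤ) := by omega
  have key : ∀ e ∈ Del S.P.Q (2 * h) p, ∀ i < S.N, e ∈ LY (2 * h) (S.P.side i) → Ex S h p i := by
    intro e he i hi hl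
    have he' := exit_S R hh hp he (by
      rw [Finset.mem_coe]; exact LY_not_EE hh hl)
    refine ⟨hi, ?_, e, he, hl⟩
    obtain ⟨-, -, h3⟩ := (mem_LY hn0).1 hl
    have h4 : ct (2 * (h : ℤ)) (tt e - dir ((S.P.side i).2 - 1)) ∈ S.P.Q := by
      rw [h3]
      exact (Pool.Agent.H33.Q1.isSide_side' S.P i).1
    rw [he', tt_lt] at h4
    have hk : S.k i = (S.P.side i).2 := rfl
    rcases dir4 ((S.P.side i).2 - 1) with ⟨g, e1⟩ | ⟨g, e1⟩ | ⟨g, e1⟩ | ⟨g, e1⟩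
    · omega
    · exfalso
      rw [e1] at h4
      refine outC R hh hp (x := 2 * h * W) (y := p.2 - 1) le_rfl (by omega) (by omega) (by omega) ?_
      simpa using h4
    · exfalso
      rw [e1] at h4
      refine outC R hh hp (x := 2 * h * W + 1) (y := p.2) (by omega) (by omega) (by omega) (by omega) ?_
      simpa using h4
    · exfalso
      rw [e1] at h4
      refine outC R hh hp (x := 2 * h * W) (y := p.2 + 1) le_rfl (by omega) (by omega) (by omega) ?_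
      simpa using h4
  intro e he i hi j hj hl hl'
  have a := (ex_room R hh hp).1 (key e he i hi hl)
  have b := (ex_room R hh hp).1 (key e he j hj hl')
  rw [a, b]

/-- **Nothing comes to the diagonal tile between open walls.** -/
theorem hxS {ω : Finset (ℤ × ℤ)} : ∀ e ∈ (Lam3 S h : Set (ℤ × ℤ)),
    e ∉ LamC S h p → ∀ P c, PB (EE S h : Set (ℤ × ℤ)) P → ev P →
    (e ∈ ω ∪ Wp S h p ↔ P.1 % 2 = 1) → sq c e → sq c P →
    ¬ Pass (Lam3 S h : Set (ℤ × ℤ)) (Del S.P.Q (2 * h) p) (ω ∪ Wp S h p) (FF S h p) (ot c e) c P := by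
  classical
  intro e heΛ heC P c hP hev hst h1 h2 hpass
  have hn0 : (0 : ℤ) < 2 * (h : ℤ) := by omega
  obtain ⟨t, x, X⟩ := exists_XD hh (exS R hh hp) (oneS R hh hp)
  rw [Finset.mem_coe, Pool.Agent.H47.W.mem_Lam3] at heΛ
  obtain ⟨i, hi, hcv, rfl⟩ : ∃ i < S.N, Cv S i ∧ dg S h i = e := by
    rcases heΛ with g | ⟨i, hi, g⟩ | ⟨i, hi, g1, g2⟩
    · exact absurd (Or.inl g) heC
    · exact absurd (Or.inr (Or.inl ⟨i, hi, g⟩)) heC
    · exact ⟨i, hi, g1, g2⟩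
  rw [X.cv_LamC hi hcv] at heC
  have nE := dg_not_EE hh hcv.1
  have nL : ∀ j, dg S h i ∉ LY (2 * (h : ℤ)) (S.P.side j) := fun j => dg_not_LY hh hcv.1
  obtain ⟨m, hm, hc⟩ := at_pt (Pool.Agent.H72.W.V.dg_od i) hev h1 h2
  obtain ⟨i', hi', j, j0, j1, hPW⟩ := wallpt hh hev hP (m := m) (by rw [← hm]; exact nE)
  -- the point is the vertex
  have hlay : ∀ {a : ℕ} {b : ℤ}, 0 ≤ b → b < 2 * (h : ℤ) → dg S h i ≠ T (2 * (h : ℤ)) (S.P.side a) b := by
    intro a b b0 b1 hab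
    exact nL a (hab ▸ (LY_T hn0).2 ⟨b, ⟨b0, b1⟩, rfl⟩)
  have fa : P + dir (S.k i' - 1) = T (2 * (h : ℤ)) (S.P.side i') (j - 1) := by
    rw [Pool.Agent.H72.W.V.T_eq' (2 * (h : ℤ)) (S.P.side i') (j - 1), sub_add_cancel, hPW]; rfl
  have fi : P + dir (S.k i' + 2) ∈ EE S h := by
    have := Pool.Agent.H72.W.V.I_eq' (2 * (h : ℤ)) (S.P.side i') (j - 1)
    rw [sub_add_cancel] at this
    rw [hPW]
    have e : Pool.Agent.H72.W.V.W (2 * (h : ℤ)) (S.P.side i') j + dir (S.k i' + 2) =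
        lt (Pool.Agent.H33.Q1.it (2 * (h : ℤ)) (S.P.side i') (j - 1)) := this.symm
    rw [e]
    exact Pool.Agent.H72.W.V.I_EE hh (by omega) (by omega)
  have hr : m % 4 = (S.k i' - 1) % 4 ∨ m % 4 = S.k i' % 4 ∨ m % 4 = (S.k i' + 1) % 4 ∨
      m % 4 = (S.k i' + 2) % 4 := by omega
  have dirc : ∀ {a b : ℤ}, a % 4 = b % 4 → dir a = dir b := fun g => Pool.Agent.H21.FM.dir_congr g
  have hjn : j = 2 * (h : ℤ) := by
    by_contra hjn
    have f1 : P + dir (S.k i') = T (2 * (h : ℤ)) (S.P.side i') j := by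
      rw [Pool.Agent.H72.W.V.T_eq, hPW]; rfl
    have f2 : P + dir (S.k i' + 1) ∈ EE S h := by
      rw [hPW]
      have e : Pool.Agent.H72.W.V.W (2 * (h : ℤ)) (S.P.side i') j + dir (S.k i' + 1) =
        lt (Pool.Agent.H33.Q1.it (2 * (h : ℤ)) (S.P.side i') j) :=
          (Pool.Agent.H72.W.V.I_eq _ _ _).symm
      rw [e]
      exact Pool.Agent.H72.W.V.I_EE hh (by omega) (by omega)
    rcases hr with g | g | g | g
    · exact hlay (a := i') (b := j - 1) (by omega) (by omega) (by rw [hm, dirc g, fa])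
    · exact hlay (a := i') (b := j) (by omega) (by omega) (by rw [hm, dirc g, f1])
    · exact nE (by rw [hm, dirc g]; exact f2)
    · exact nE (by rw [hm, dirc g]; exact fi)
  subst hjn
  have hii : i' = i ∧ m % 4 = S.k i % 4 := by
    have g0 : m % 4 ≠ (S.k i' - 1) % 4 := fun g =>
      hlay (a := i') (b := 2 * (h : ℤ) - 1) (by omega) (by omega) (by rw [hm, dirc g, fa])
    have g3 : m % 4 ≠ (S.k i' + 2) % 4 := fun g => nE (by rw [hm, dirc g]; exact fi)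
    rcases vtx hh hi' with ⟨v1, v2, -, -⟩ | ⟨v1, v2, v3, -⟩ | v
    · exfalso
      rcases hr with g | g | g | g
      · exact g0 g
      · exact nE (by rw [hm, dirc g, hPW]; exact v1)
      · exact nE (by rw [hm, dirc g, hPW]; exact v2)
      · exact g3 g
    · exfalso
      rcases hr with g | g | g | g
      · exact g0 g
      · exact hlay (a := i' + 1) (b := 0) le_rfl hn0 (by rw [hm, dirc g, hPW]; exact v1)
      · exact nE (by rw [hm, dirc g, hPW]; exact v2)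
      · exact g3 g
    · rcases hr with g | g | g | g
      · exact absurd g g0
      · have e1 : dg S h i' = dg S h i := by
          rw [Pool.Agent.H72.W.V.dg_dir, hm, dirc g, hPW]
        have e2 := dg_inj hh hi' hi e1
        subst e2
        exact ⟨rfl, g⟩
      · exfalso
        refine hlay (a := i' + 1) (b := 0) le_rfl hn0 ?_
        rw [hm, dirc g, hPW, Pool.Agent.H72.W.V.cvx_tiles v]
      · exact absurd g g3
  obtain ⟨rfl, hmk⟩ := hii
  have hN := hcv.2.2.2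
  have hi1 : i' + 1 < S.N := by omega
  -- the neighbour
  have hnb : ∃ a b, a < S.N ∧ 0 ≤ b ∧ b < 2 * (h : ℤ) ∧ ot c (dg S h i') = T (2 * (h : ℤ)) (S.P.side a) b ∧
      (T (2 * (h : ℤ)) (S.P.side a) b ∉ Del S.P.Q (2 * h) p →
        T (2 * (h : ℤ)) (S.P.side a) b ∉ Wp S h p → ClW S h p i') := by
    rcases hc with hc | hc
    · refine ⟨i' + 1, 0, hi1, le_rfl, hn0, ?_, fun g1 g2 => Or.inr ⟨g1, g2⟩⟩
      rw [hm, hc, (ot_cs P m).1, dirc (show (m + 1) % 4 = (S.k i' + 1) % 4 by omega), hPW,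
        Pool.Agent.H72.W.V.cvx_tiles hcv.1]
    · refine ⟨i', 2 * h - 1, hi', by omega, by omega, ?_, fun g1 g2 => Or.inl ⟨g1, g2⟩⟩
      have e1 : P + dir m = P + dir (m - 1 + 1) := by rw [sub_add_cancel]
      rw [hm, hc, e1, (ot_cs P (m - 1)).2, dirc (show (m - 1) % 4 = (S.k i' - 1) % 4 by omega), fa]
  obtain ⟨a, b, ha, b0, b1, hab, hcl⟩ := hnb
  have hTL : T (2 * (h : ℤ)) (S.P.side a) b ∈ Lam3 S h := by
    rw [Pool.Agent.H47.W.mem_Lam3]
    exact Or.inr (Or.inl ⟨a, ha, (LY_T hn0).2 ⟨b, ⟨b0, b1⟩, rfl⟩⟩)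
  rw [hab] at hpass
  rcases hpass with ⟨-, q2, q3⟩ | ⟨-, q2, q3⟩ | ⟨q1, -⟩
  · refine heC (hcl q2 fun g => ?_)
    have h5 := q3.1 (mem_union_right _ g)
    rw [hPW] at h5
    have := W_par (h := h) (S.P.side i') (2 * h)
    omega
  · -- the exit
    have e1 := exit_S R hh hp q2 (by rw [Finset.mem_coe]; exact T_not_EE hh b0 b1)
    have e2 : dg S h i' = ot c (T (2 * (h : ℤ)) (S.P.side a) b) := by rw [← hab, ot_ot]
    rw [e1] at e2 q3
    rcases q3 with q3 | q3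
    · rw [q3, ot_eS, dn_lt] at e2
      obtain ⟨j', hj', hl⟩ := layR R hh hp (y := p.2 - 1) (by omega) (by omega)
      exact nL j' (by rw [e2]; exact hl)
    · rw [q3, ot_eN, up_lt] at e2
      obtain ⟨j', hj', hl⟩ := layR R hh hp (y := p.2 + 1) (by omega) (by omega)
      exact nL j' (by rw [e2]; exact hl)
  · exact q1 hTL

end

lemma FF_eq (S : Shape) (h : ℕ) (p : ℤ × ℤ) : FF S h p = {eW (lt p)} ∪ Set.range (yy S h p) := by
  ext z
  constructor
  · rintro (g | ⟨j, g⟩)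
    · exact Or.inl g
    · exact Or.inr ⟨j, g.symm⟩
  · rintro (g | ⟨j, g⟩)
    · exact Or.inl g
    · exact Or.inr ⟨j, g.symm⟩

/-- **The input of `StHol`.** -/
theorem inWA : InWA := by
  intro S pl W y0 y1 A R h h4 p hp
  have hh : 1 ≤ h := by omega
  refine ⟨fun T hT => ?_, yo_all (by omega) p, yi_all (by omega) p⟩
  have H := Pool.Agent.H72.W.V.wldV (by omega : 2 ≤ h) (exS R hh hp) (oneS R hh hp) hT
  have X := Pool.Agent.H72.W.V.extV (by omega : 2 ≤ h) (exS R hh hp) (oneS R hh hp)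
  rw [← FF_eq]
  refine toX H X (Finset.finite_toSet _) ?_ (hxS R hh hp) (del_S R hh hp hT)
    (row_S R hh hp h4 (Or.inl rfl))
  intro e he
  rw [Finset.mem_coe, Pool.Agent.H47.W.mem_Lam3] at he
  rcases he with g | ⟨i, hi, g⟩ | ⟨i, hi, g1, g2⟩
  · exact ((Pool.Agent.H72.W.V.mem_EE hh).1 g).1
  · obtain ⟨j, -, rfl⟩ := (LY_T (by omega : (0 : ℤ) < 2 * (h : ℤ))).1 g
    exact Pool.Agent.H72.W.V.od_T
  · rw [← g2]; exact Pool.Agent.H72.W.V.dg_od i

end Pool.Agent.H45.W
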