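import Mathlib
import Pool.Agent.H5.C3.Gen
import Pool.Agent.H5.FM.Rfn3

set_option autoImplicit false
open Finset

/-! # The shear of a polyomino (T10, part 1)

`Shr M Q` : every cell of the coarse polyomino `Q` becomes a block of `M × M` cells, and the coarse column
`i` is moved up by `i` fine units. It is good and, for `M` large, generic. -/

namespace Pool.Agent.H45.W

open Pool.Agent.H75.Perc (dir dir_cases)
open Pool.Agent.Q1.M4 (Cell Good IsSide nextSide Adj4 Conn4)
open Pool.Agent.H5.FM (dir0 dir1 dir2 dir3)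
open Pool.Agent.H5.C3 (Gen)

/-- the coarse cell of a fine cell -/
def pc (M : ℤ) (c : Cell) : Cell := (c.1 / M, (c.2 - c.1 / M) / M)

/-- the sheared polyomino -/
noncomputable def Shr (M : ℤ) (Q : Finset Cell) : Finset Cell :=
  Q.biUnion fun c => Finset.Ico (M * c.1) (M * c.1 + M) ×ˢ
    Finset.Ico (M * c.2 + c.1) (M * c.2 + c.1 + M)

lemma div_iff {M x q : ℤ} (hM : 0 < M) : x / M = q ↔ M * q ≤ x ∧ x < M * q + M := by
  constructor
  · rintro rfl
    have h1 := Int.mul_ediv_self_le (x := x) (k := M) hM.ne'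
    have h2 := Int.lt_mul_ediv_self_add (x := x) hM
    exact ⟨h1, by linarith⟩
  · rintro ⟨h1, h2⟩
    have h3 : x = (x - M * q) + M * q := by ring
    rw [h3, Int.add_mul_ediv_left _ _ hM.ne', Int.ediv_eq_zero_of_lt (by linarith) (by linarith)]
    omega

lemma pc_iff {M : ℤ} (hM : 0 < M) {c d : Cell} : pc M c = d ↔
    (M * d.1 ≤ c.1 ∧ c.1 < M * d.1 + M) ∧ (M * d.2 + d.1 ≤ c.2 ∧ c.2 < M * d.2 + d.1 + M) := by
  obtain ⟨x, y⟩ := c
  obtain ⟨i, j⟩ := d
  unfold pc
  rw [Prod.mk.injEq]
  simp only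
  constructor
  · rintro ⟨rfl, h2⟩
    refine ⟨(div_iff hM).1 rfl, ?_⟩
    have := (div_iff hM).1 h2
    constructor <;> linarith [this.1, this.2]
  · rintro ⟨h1, h2⟩
    have h3 := (div_iff hM).2 h1
    refine ⟨h3, ?_⟩
    rw [h3, div_iff hM]
    constructor <;> linarith [h2.1, h2.2]

lemma mem_Shr {M : ℤ} (hM : 0 < M) {Q : Finset Cell} {c : Cell} : c ∈ Shr M Q ↔ pc M c ∈ Q := by
  unfold Shr
  simp only [Finset.mem_biUnion, Finset.mem_product, Finset.mem_Ico]
  constructor
  · rintro ⟨d, hd, h1, h2⟩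
    rwa [(pc_iff hM).2 ⟨h1, h2⟩]
  · intro h
    exact ⟨_, h, ((pc_iff hM).1 rfl).1, ((pc_iff hM).1 rfl).2⟩

/-! ### connectivity -/

/-- a step inside a set -/
def St (A : Set Cell) (a b : Cell) : Prop := Relation.ReflTransGen (fun a b => Adj4 a b ∧ b ∈ A) a b

lemma adj_right (x y : ℤ) : Adj4 (x, y) (x + 1, y) :=
  ⟨0, by rw [(dir0 (by norm_num)).1]; ext <;> simp⟩
lemma adj_up (x y : ℤ) : Adj4 (x, y) (x, y + 1) :=
  ⟨1, by rw [(dir1 (by norm_num)).1]; ext <;> simp⟩
lemma adj_left (x y : ℤ) : Adj4 (x + 1, y) (x, y) :=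
  ⟨2, by rw [(dir2 (by norm_num)).1]; ext <;> simp⟩
lemma adj_down (x y : ℤ) : Adj4 (x, y + 1) (x, y) :=
  ⟨3, by rw [(dir3 (by norm_num)).1]; ext <;> simp⟩

lemma st_right {A : Set Cell} {y : ℤ} (x : ℤ) (n : ℕ) (h : ∀ t : ℤ, x ≤ t → t ≤ x + n → (t, y) ∈ A) :
    St A (x, y) (x + n, y) := by
  induction n with
  | zero => rw [Nat.cast_zero, add_zero]; exact Relation.ReflTransGen.refl
  | succ n ih =>
    refine (ih fun t h1 h2 => h t h1 (by push_cast; omega)).tail ⟨?_, h _ (by omega) le_rfl⟩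
    have := adj_right (x + n) y
    rwa [show x + n + 1 = x + ((n + 1 : ℕ) : ℤ) by push_cast; ring] at this

lemma st_left {A : Set Cell} {y : ℤ} (x : ℤ) (n : ℕ) (h : ∀ t : ℤ, x ≤ t → t ≤ x + n → (t, y) ∈ A) :
    St A (x + n, y) (x, y) := by
  induction n with
  | zero => rw [Nat.cast_zero, add_zero]; exact Relation.ReflTransGen.refl
  | succ n ih =>
    refine Relation.ReflTransGen.head ⟨?_, h _ (by omega) (by push_cast; omega)⟩
      (ih fun t h1 h2 => h t h1 (by push_cast; omega))
    have := adj_left (x + n) y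
    rwa [show x + n + 1 = x + ((n + 1 : ℕ) : ℤ) by push_cast; ring] at this

lemma st_up {A : Set Cell} {x : ℤ} (y : ℤ) (n : ℕ) (h : ∀ t : ℤ, y ≤ t → t ≤ y + n → (x, t) ∈ A) :
    St A (x, y) (x, y + n) := by
  induction n with
  | zero => rw [Nat.cast_zero, add_zero]; exact Relation.ReflTransGen.refl
  | succ n ih =>
    refine (ih fun t h1 h2 => h t h1 (by push_cast; omega)).tail ⟨?_, h _ (by omega) le_rfl⟩
    have := adj_up x (y + n)
    rwa [show y + n + 1 = y + ((n + 1 : ℕ) : ℤ) by push_cast; ring] at this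

lemma st_down {A : Set Cell} {x : ℤ} (y : ℤ) (n : ℕ) (h : ∀ t : ℤ, y ≤ t → t ≤ y + n → (x, t) ∈ A) :
    St A (x, y + n) (x, y) := by
  induction n with
  | zero => rw [Nat.cast_zero, add_zero]; exact Relation.ReflTransGen.refl
  | succ n ih =>
    refine Relation.ReflTransGen.head ⟨?_, h _ (by omega) (by push_cast; omega)⟩
      (ih fun t h1 h2 => h t h1 (by push_cast; omega))
    have := adj_down x (y + n)
    rwa [show y + n + 1 = y + ((n + 1 : ℕ) : ℤ) by push_cast; ring] at this

/-- a row of a set -/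
lemma st_row {A : Set Cell} {x x' y : ℤ} (h : ∀ t, min x x' ≤ t → t ≤ max x x' → (t, y) ∈ A) :
    St A (x, y) (x', y) := by
  rcases le_total x x' with g | g
  · have := st_right (A := A) (y := y) x (x' - x).toNat (fun t h1 h2 => h t (by omega) (by omega))
    rwa [show x + ((x' - x).toNat : ℤ) = x' by omega] at this
  · have := st_left (A := A) (y := y) x' (x - x').toNat (fun t h1 h2 => h t (by omega) (by omega))
    rwa [show x' + ((x - x').toNat : ℤ) = x by omega] at this

lemma st_col {A : Set Cell} {x y y' : ℤ} (h : ∀ t, min y y' ≤ t → t ≤ max y y' → (x, t) ∈ A) :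
    St A (x, y) (x, y') := by
  rcases le_total y y' with g | g
  · have := st_up (A := A) (x := x) y (y' - y).toNat (fun t h1 h2 => h t (by omega) (by omega))
    rwa [show y + ((y' - y).toNat : ℤ) = y' by omega] at this
  · have := st_down (A := A) (x := x) y' (y - y').toNat (fun t h1 h2 => h t (by omega) (by omega))
    rwa [show y' + ((y - y').toNat : ℤ) = y by omega] at this

/-- inside a block -/
lemma st_block {M : ℤ} (hM : 0 < M) {A : Set Cell} {a b : Cell} (h : pc M a = pc M b)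
    (ha : pc M b ∈ A) : St (pc M ⁻¹' A) a b := by
  obtain ⟨x, y⟩ := a
  obtain ⟨x', y'⟩ := b
  have h1 := (pc_iff hM).1 h
  have h2 := (pc_iff hM).1 (rfl : pc M (x', y') = _)
  simp only at h1 h2
  have s1 : St (pc M ⁻¹' A) (x, y) (x', y) := by
    apply st_row
    intro t t1 t2
    show pc M (t, y) ∈ A
    rw [(pc_iff hM).2 (show _ from ⟨⟨?_, ?_⟩, h1.2⟩)]
    · exact ha
    · rcases min_le_iff.1 t1 with g | g
      · exact h1.1.1.trans g
      · exact h2.1.1.trans g
    · rcases le_max_iff.1 t2 with g | g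
      · exact g.trans_lt h1.1.2
      · exact g.trans_lt h2.1.2
  have s2 : St (pc M ⁻¹' A) (x', y) (x', y') := by
    apply st_col
    intro t t1 t2
    show pc M (x', t) ∈ A
    rw [(pc_iff hM).2 (show _ from ⟨h2.1, ⟨?_, ?_⟩⟩)]
    · exact ha
    · rcases min_le_iff.1 t1 with g | g
      · exact h1.2.1.trans g
      · exact h2.2.1.trans g
    · rcases le_max_iff.1 t2 with g | g
      · exact g.trans_lt h1.2.2
      · exact g.trans_lt h2.2.2
  exact s1.trans s2

/-- the first cell of a block -/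
def fc (M : ℤ) (d : Cell) : Cell := (M * d.1, M * d.2 + d.1)

lemma pc_fc {M : ℤ} (hM : 0 < M) (d : Cell) : pc M (fc M d) = d := by
  rw [pc_iff hM]
  unfold fc
  simp only
  omega

/-- two fine cells with a common side in neighbouring blocks -/
lemma exists_adj {M : ℤ} (hM : 2 ≤ M) {c d : Cell} (h : Adj4 c d) :
    ∃ a b, Adj4 a b ∧ pc M a = c ∧ pc M b = d := by
  have h0 : 0 < M := by omega
  obtain ⟨k, rfl⟩ := h
  obtain ⟨i, j⟩ := c
  rcases dir_cases k with ⟨hk, e⟩ | ⟨hk, e⟩ | ⟨hk, e⟩ | ⟨hk, e⟩ <;> rw [e]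
  · refine ⟨(M * i + M - 1, M * j + i + 1), (M * i + M, M * j + i + 1), ?_, ?_, ?_⟩
    · have := adj_right (M * i + M - 1) (M * j + i + 1)
      rwa [sub_add_cancel] at this
    · rw [pc_iff h0]; simp only; constructor <;> constructor <;> linarith
    · rw [pc_iff h0]; simp only [Prod.fst_add, Prod.snd_add, mul_add, mul_one, add_zero]
      constructor <;> constructor <;> linarith
  · refine ⟨(M * i, M * j + i + M - 1), (M * i, M * j + i + M), ?_, ?_, ?_⟩
    · have := adj_up (M * i) (M * j + i + M - 1)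
      rwa [sub_add_cancel] at this
    · rw [pc_iff h0]; simp only; constructor <;> constructor <;> linarith
    · rw [pc_iff h0]; simp only [Prod.fst_add, Prod.snd_add, mul_add, mul_one, add_zero]
      constructor <;> constructor <;> linarith
  · refine ⟨(M * i, M * j + i), (M * i - 1, M * j + i), ?_, ?_, ?_⟩
    · have := adj_left (M * i - 1) (M * j + i)
      rwa [sub_add_cancel] at this
    · rw [pc_iff h0]; simp only; constructor <;> constructor <;> linarith
    · rw [pc_iff h0]
      simp only [Prod.fst_add, Prod.snd_add, mul_add, mul_neg, mul_one, add_zero]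
      constructor <;> constructor <;> linarith
  · refine ⟨(M * i, M * j + i), (M * i, M * j + i - 1), ?_, ?_, ?_⟩
    · have := adj_down (M * i) (M * j + i - 1)
      rwa [sub_add_cancel] at this
    · rw [pc_iff h0]; simp only; constructor <;> constructor <;> linarith
    · rw [pc_iff h0]
      simp only [Prod.fst_add, Prod.snd_add, mul_add, mul_neg, mul_one, add_zero]
      constructor <;> constructor <;> linarith

/-- **connectivity of the preimage** -/
theorem conn_pre {M : ℤ} (hM : 2 ≤ M) {A : Set Cell} (hA : Conn4 A) : Conn4 (pc M ⁻¹' A) := by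
  have h0 : 0 < M := by omega
  intro a ha b hb
  have key : ∀ d, Relation.ReflTransGen (fun a b => Adj4 a b ∧ b ∈ A) (pc M a) d → d ∈ A →
      ∀ b, pc M b = d → St (pc M ⁻¹' A) a b := by
    intro d hd
    induction hd with
    | refl => intro hd b hb; exact st_block h0 hb.symm (hb ▸ hd)
    | @tail c d hcd hs ih =>
      intro hd b hb
      have hc : c ∈ A := by
        rcases Relation.ReflTransGen.cases_tail hcd with h | ⟨_, _, h⟩
        · rw [h]; exact ha
        · exact h.2
      obtain ⟨u, v, huv, hu, hv⟩ := exists_adj hM hs.1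
      have s1 := ih hc u hu
      have s2 : St (pc M ⁻¹' A) u v :=
        Relation.ReflTransGen.single ⟨huv, show pc M v ∈ A by rw [hv]; exact hd⟩
      have s3 : St (pc M ⁻¹' A) v b := st_block h0 (hv.trans hb.symm) (hb ▸ hd)
      exact (s1.trans s2).trans s3
  exact key _ (hA _ ha _ hb) hb b rfl

/-- the fine cells of the sheared polyomino -/
lemma coe_Shr {M : ℤ} (hM : 0 < M) (Q : Finset Cell) : (Shr M Q : Set Cell) = pc M ⁻¹' (Q : Set Cell) := by
  ext c
  rw [Finset.mem_coe, mem_Shr hM]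
  rfl

/-! ### division -/

lemma dstep {M : ℤ} (hM : 0 < M) (a : ℤ) :
    (a + 1) / M = a / M ∨ ((a + 1) / M = a / M + 1 ∧ a + 1 = M * (a / M + 1)) := by
  have h := (div_iff (x := a) hM).1 rfl
  rcases lt_or_ge (a + 1) (M * (a / M) + M) with g | g
  · left
    rw [div_iff hM]
    constructor <;> linarith
  · right
    have e : a + 1 = M * (a / M + 1) := by
      rw [mul_add, mul_one]
      omega
    refine ⟨?_, e⟩
    rw [div_iff hM]
    constructor <;> linarith

lemma dstep2 {M : ℤ} (hM : 2 ≤ M) (a : ℤ) : (a - 1) / M = a / M ∨ (a + 1) / M = a / M := by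
  have h0 : 0 < M := by omega
  rcases dstep h0 a with h | ⟨-, h⟩
  · exact Or.inr h
  · left
    have h1 := (div_iff (x := a) h0).1 rfl
    rw [div_iff h0]
    rw [mul_add, mul_one] at h
    constructor <;> linarith

/-- two neighbouring columns -/
lemma pc_right {M : ℤ} (hM : 0 < M) (x : ℤ) :
    (∀ y, pc M (x + 1, y) = pc M (x, y)) ∨
    ((x + 1 = M * (x / M + 1)) ∧ ∀ y, pc M (x + 1, y) = (x / M + 1, (y - x / M - 1) / M)) := by
  rcases dstep hM x with h | ⟨h, h'⟩
  · left
    intro y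
    unfold pc
    simp only
    rw [h]
  · right
    refine ⟨h', fun y => ?_⟩
    unfold pc
    simp only
    rw [h, show y - (x / M + 1) = y - x / M - 1 by ring]

lemma pc_mk (M x y : ℤ) : pc M (x, y) = (x / M, (y - x / M) / M) := rfl

/-- **the sheared polyomino is good** -/
theorem good_Shr {Q : Finset Cell} (hQ : Good Q) {M : ℤ} (hM : 2 ≤ M) : Good (Shr M Q) := by
  have h0 : 0 < M := by omega
  refine ⟨?_, ?_, ?_, ?_, ?_⟩
  · obtain ⟨c, hc⟩ := hQ.ne
    exact ⟨fc M c, by rw [mem_Shr h0, pc_fc h0]; exact hc⟩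
  · rw [coe_Shr h0]
    exact conn_pre hM hQ.conn
  · rw [coe_Shr h0]
    exact conn_pre hM hQ.conn_compl
  · rintro ⟨x, y⟩ h1 h2
    rw [mem_Shr h0] at h1 h2
    simp only [Prod.mk_add_mk, add_zero] at h2 ⊢
    rw [mem_Shr h0, mem_Shr h0]
    rcases pc_right h0 x with h | ⟨-, h⟩
    · left
      rwa [h]
    · rw [h, show y + 1 - x / M - 1 = y - x / M by ring] at h2
      rw [h, pc_mk M x (y + 1), show y + 1 - x / M = (y - x / M) + 1 by ring]
      rw [pc_mk] at h1
      rcases dstep2 hM (y - x / M) with g | g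
      · left; rwa [g]
      · right; rwa [g]
  · rintro ⟨x, y⟩ h1 h2
    simp only [Prod.mk_add_mk, add_zero] at h1 h2 ⊢
    rw [mem_Shr h0] at h1 h2
    rw [mem_Shr h0, mem_Shr h0]
    rcases pc_right h0 x with h | ⟨-, h⟩
    · left
      rwa [h] at h1
    · rw [h] at h1
      rw [h, show y + 1 - x / M - 1 = y - x / M by ring, pc_mk M x y]
      rw [pc_mk, show y + 1 - x / M = (y - x / M) + 1 by ring] at h2
      rcases dstep2 hM (y - x / M) with g | g
      · right; rwa [g] at h1
      · left; rwa [g] at h2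

/-- **the sheared polyomino is generic** -/
theorem gen_Shr {Q : Finset Cell} {C : ℤ} (hC : ∀ c ∈ Q, |c.1| ≤ C) {M : ℤ} (hM : 2 * C < M)
    (h0 : 0 < M) : Gen (Shr M Q) := by
  have key : ∀ x y : ℤ, ¬ ((x, y) ∈ Shr M Q ↔ (x, y - 1) ∈ Shr M Q) →
      |x / M| ≤ C ∧ M ∣ y - x / M := by
    intro x y h
    rw [mem_Shr h0, mem_Shr h0, pc_mk, pc_mk] at h
    constructor
    · by_cases g : (x / M, (y - x / M) / M) ∈ Q
      · exact hC _ g
      · have : (x / M, (y - 1 - x / M) / M) ∈ Q := by tauto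
        exact hC _ this
    · rcases dstep h0 (y - 1 - x / M) with g | ⟨-, g⟩
      · exfalso
        apply h
        rw [← g, show y - 1 - x / M + 1 = y - x / M by ring]
      · exact ⟨_, by rw [← g]; ring⟩
  intro a b y hab hin
  by_contra hcon
  rw [not_or] at hcon
  obtain ⟨h1, h2⟩ := hcon
  obtain ⟨k1, k2⟩ := key _ _ h1
  obtain ⟨l1, l2⟩ := key _ _ h2
  have e : (a - 1) / M = b / M := by
    have h3 : M ∣ b / M - (a - 1) / M := by
      have := dvd_sub k2 l2
      rwa [show y - (a - 1) / M - (y - b / M) = b / M - (a - 1) / M by ring] at this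
    by_contra hne
    have h4 : b / M - (a - 1) / M ≠ 0 := fun h => hne (by omega)
    have h5 := Int.le_of_dvd (abs_pos.2 h4) ((dvd_abs _ _).2 h3)
    rw [abs_le] at k1 l1
    have h6 : |b / M - (a - 1) / M| ≤ 2 * C := abs_le.2 ⟨by omega, by omega⟩
    omega
  have ha : a / M = (a - 1) / M := by
    have g1 : (a - 1) / M ≤ a / M := Int.ediv_le_ediv h0 (by omega)
    have g2 : a / M ≤ b / M := Int.ediv_le_ediv h0 (by omega)
    omega
  obtain ⟨i1, i2⟩ := hin a le_rfl hab
  apply h1
  rw [mem_Shr h0, pc_mk, ha] at i1 i2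
  rw [mem_Shr h0, mem_Shr h0, pc_mk, pc_mk]
  exact ⟨fun _ => i2, fun _ => i1⟩

end Pool.Agent.H45.W
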