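import Mathlib
import Pool.Agent.H45.W.Shear

set_option autoImplicit false
open Finset

/-! # The boundary walk of the sheared polyomino (T10, part 2)

`pj` sends the sides of the sheared polyomino to sides of the polyomino; a step of the walk is sent to a
step or to nothing, and a convex turn comes from a convex turn. `exists_cover` : shapes from such maps. -/

namespace Pool.Agent.H45.W

open Pool.Agent.H75.Perc (dir dir_cases)
open Pool.Agent.Q1.M4 (Cell Good IsSide nextSide PType Adj4 Conn4 isSide_next isSide_iter)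
open Pool.Agent.H21.FM (Shape)
open Pool.Agent.H5.FM

/-- **Covering lemma**: a good polyomino whose sides are sent to the sides of a shape, step by step -/
theorem exists_cover {S : Shape} {Q' : Finset Cell} (hG : Good Q') (f : Cell × ℤ → Cell × ℤ)
    (f4 : ∀ s, f (s.1, s.2 + 4) = ((f s).1, (f s).2 + 4))
    (hf : ∀ s, IsSide Q' s → f (nextSide Q' s) = f s ∨ (f (nextSide Q' s) = nextSide S.P.Q (f s) ∧
      (nextSide S.P.Q (f s) = ((f s).1, (f s).2 + 1) → nextSide Q' s = (s.1, s.2 + 1))))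
    {t : Cell × ℤ} (ht : IsSide Q' t) {m : ℕ} (hm : m < S.N) (hft : f t = S.P.side m) :
    ∃ S' : Shape, S'.P.Q = Q' ∧ ∀ i < S'.N, ∃ q < S.N, arc S' i = arc S q ∧
      (f (S'.P.side i)).1 = (S.P.side q).1 ∧ ((f (S'.P.side i)).2 - (S.P.side q).2) % 4 = 0 := by
  obtain ⟨N', hN', hper, -, hinj⟩ := Pool.Agent.Q1.M4.walk hG ht
  have hT : ∀ n, IsSide Q' ((nextSide Q')^[n] t) := fun n => isSide_iter ht n
  have hc : ∃ c : ℕ → ℕ, c 0 = 0 ∧ ∀ n, (c (n + 1) = c n ∨ (c (n + 1) = c n + 1 ∧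
        (nextSide S.P.Q (f ((nextSide Q')^[n] t)) = ((f ((nextSide Q')^[n] t)).1,
          (f ((nextSide Q')^[n] t)).2 + 1) → nextSide Q' ((nextSide Q')^[n] t) =
          (((nextSide Q')^[n] t).1, ((nextSide Q')^[n] t).2 + 1)))) ∧
      f ((nextSide Q')^[n] t) = S.P.side (m + c n) := by
    classical
    let c : ℕ → ℕ := fun n => Nat.rec (motive := fun _ => ℕ) 0 (fun i ci =>
      if f ((nextSide Q')^[i + 1] t) = f ((nextSide Q')^[i] t) then ci else ci + 1) n
    have c0 : c 0 = 0 := rfl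
    have cs : ∀ n, c (n + 1) = if f ((nextSide Q')^[n + 1] t) = f ((nextSide Q')^[n] t) then c n
      else c n + 1 := fun n => rfl
    refine ⟨c, c0, fun n => ⟨?_, ?_⟩⟩
    · rw [cs]
      split_ifs with g
      · exact Or.inl rfl
      · right
        refine ⟨rfl, ?_⟩
        rw [Function.iterate_succ_apply'] at g
        rcases hf _ (hT n) with e | ⟨-, e⟩
        · exact absurd e g
        · exact e
    · induction n with
      | zero => rw [c0]; exact hft
      | succ n ih =>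
        rw [cs]
        have h1 := hf _ (hT n)
        rw [Function.iterate_succ_apply'] at *
        split_ifs with g
        · rw [g, ih]
        · rcases h1 with e | ⟨e, -⟩
          · exact absurd e g
          · rw [e, ih, ← Nat.add_assoc, side_succ'']
  obtain ⟨c, c0, hc⟩ := hc
  have hcN : ∀ n, c (n + N') = c n + S.N := by
    intro n
    have h1 := (hc (n + N')).2
    rw [Function.iterate_add_apply, hper, iter_shift (by norm_num), f4, (hc n).2,
      ← side_per] at h1
    have := side_injN h1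
    omega
  obtain ⟨S', r, hQ', hNN, hside, l0, l1, l2, l3⟩ := exists_shape_lab hG ht (by omega) hper hinj
    (L := fun n => lab S (m + c n)) (q := 4) (by
      intro n
      show lab S (m + c (n + 1)) = lab S (m + c n) ∨ _
      rcases (hc n).1 with e | ⟨e, e'⟩
      · left; rw [e]
      · rw [e, ← Nat.add_assoc]
        rcases lab_step (S := S) (m + c n) with g | ⟨g, g'⟩
        · exact Or.inl g
        · right
          refine ⟨g, ?_⟩
          rw [Function.iterate_succ_apply']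
          apply e'
          rw [(hc n).2, ← side_succ'', g']) (by
      intro n
      show lab S (m + c (n + N')) = lab S (m + c n) + 4
      rw [hcN, ← Nat.add_assoc, lab_add]) (by
      show lab S (m + c 0) < 4
      rw [c0, Nat.add_zero]
      unfold lab
      rw [Nat.div_eq_of_lt hm]
      have : arc S (m % S.N) ≤ 3 := by unfold arc; split_ifs <;> omega
      push_cast
      omega)
  refine ⟨S', hQ', fun i hi => ?_⟩
  have hlab : lab S (m + c (r + i)) = 4 + (arc S' i : ℤ) := by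
    have hi' : i < S'.P.N := hi
    unfold arc
    split_ifs with h1 h2 h3
    · exact l0 i h1
    · exact l1 i (by omega) h2
    · exact l2 i (by omega) h3
    · exact l3 i (by omega) hi'
  have hN := N_pos (S := S)
  refine ⟨(m + c (r + i)) % S.N, Nat.mod_lt _ hN, ?_, ?_, ?_⟩
  · unfold lab at hlab
    have h3 : arc S ((m + c (r + i)) % S.N) ≤ 3 := by unfold arc; split_ifs <;> omega
    have h4 : arc S' i ≤ 3 := by unfold arc; split_ifs <;> omega
    omega
  · rw [hside, (hc (r + i)).2]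
    conv_lhs => rw [← Nat.mod_add_div (m + c (r + i)) S.N]
    rw [side_mul]
  · rw [hside, (hc (r + i)).2]
    have h2 : (S.P.side (m + c (r + i))).2 = (S.P.side ((m + c (r + i)) % S.N)).2 +
        4 * (((m + c (r + i)) / S.N : ℕ) : ℤ) := by
      conv_lhs => rw [← Nat.mod_add_div (m + c (r + i)) S.N]
      rw [side_mul]
    rw [h2]
    omega

/-! ### the projection of the sides -/

/-- the side of the polyomino of a side of the sheared polyomino -/
def pj (M : ℤ) (Q : Finset Cell) (s : Cell × ℤ) : Cell × ℤ :=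
  if pc M s.1 + dir (s.2 - 1) ∈ Q then (pc M s.1 + dir (s.2 - 1), s.2 - 1) else (pc M s.1, s.2)

lemma pj_four {M : ℤ} {Q : Finset Cell} (s : Cell × ℤ) :
    pj M Q (s.1, s.2 + 4) = ((pj M Q s).1, (pj M Q s).2 + 4) := by
  unfold pj
  have e : dir (s.2 + 4 - 1) = dir (s.2 - 1) := by
    rw [show s.2 + 4 - 1 = s.2 - 1 + 4 by ring, Pool.Agent.Q1.M4.dir_add_four]
  simp only [e]
  split_ifs
  · exact Prod.ext rfl (by simp only; ring)
  · rfl

section
variable {M : ℤ} {Q : Finset Cell} {x y k : ℤ}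

lemma pj0 (h : k % 4 = 0) : pj M Q ((x, y), k) =
    if (x / M, (y - x / M) / M - 1) ∈ Q then ((x / M, (y - x / M) / M - 1), k - 1)
    else ((x / M, (y - x / M) / M), k) := by
  unfold pj
  simp only
  rw [(dir0 h).2, pc_mk, show ((x / M, (y - x / M) / M) + (0, -1) : ℤ × ℤ) =
    (x / M, (y - x / M) / M - 1) by ext <;> simp; ring]

lemma pj1 (h : k % 4 = 1) : pj M Q ((x, y), k) =
    if (x / M + 1, (y - x / M) / M) ∈ Q then ((x / M + 1, (y - x / M) / M), k - 1)
    else ((x / M, (y - x / M) / M), k) := by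
  unfold pj
  simp only
  rw [(dir1 h).2, pc_mk, show ((x / M, (y - x / M) / M) + (1, 0) : ℤ × ℤ) =
    (x / M + 1, (y - x / M) / M) by ext <;> simp]

lemma pj2 (h : k % 4 = 2) : pj M Q ((x, y), k) =
    if (x / M, (y - x / M) / M + 1) ∈ Q then ((x / M, (y - x / M) / M + 1), k - 1)
    else ((x / M, (y - x / M) / M), k) := by
  unfold pj
  simp only
  rw [(dir2 h).2, pc_mk, show ((x / M, (y - x / M) / M) + (0, 1) : ℤ × ℤ) =
    (x / M, (y - x / M) / M + 1) by ext <;> simp]

lemma pj3 (h : k % 4 = 3) : pj M Q ((x, y), k) =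
    if (x / M - 1, (y - x / M) / M) ∈ Q then ((x / M - 1, (y - x / M) / M), k - 1)
    else ((x / M, (y - x / M) / M), k) := by
  unfold pj
  simp only
  rw [(dir3 h).2, pc_mk, show ((x / M, (y - x / M) / M) + (-1, 0) : ℤ × ℤ) =
    (x / M - 1, (y - x / M) / M) by ext <;> simp; ring]

/-- division near a multiple -/
lemma dnear (hM : 2 ≤ M) (u : ℤ) :
    ((u - 1) / M = u / M ∧ (u + 1) / M = u / M) ∨
    (u = M * (u / M) ∧ (u - 1) / M = u / M - 1 ∧ (u - 2) / M = u / M - 1 ∧ (u + 1) / M = u / M) ∨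
    (u + 1 = M * (u / M + 1) ∧ (u - 1) / M = u / M ∧ (u + 1) / M = u / M + 1 ∧
      (u + 2) / M = u / M + 1) := by
  have h0 : 0 < M := by omega
  have h1 := (div_iff (x := u) h0).1 rfl
  rcases eq_or_lt_of_le h1.1 with e | e
  · right; left
    refine ⟨e.symm, ?_, ?_, ?_⟩ <;> rw [div_iff h0]
    · rw [mul_sub, mul_one]; constructor <;> linarith
    · rw [mul_sub, mul_one]; constructor <;> linarith
    · constructor <;> linarith
  · rcases lt_or_ge (u + 1) (M * (u / M) + M) with g | g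
    · left
      constructor <;> rw [div_iff h0] <;> constructor <;> linarith
    · right; right
      have e2 : u + 1 = M * (u / M + 1) := by rw [mul_add, mul_one]; omega
      refine ⟨e2, ?_, ?_, ?_⟩
      · rw [div_iff h0]; constructor <;> linarith
      · rw [div_iff h0]; constructor <;> linarith
      · rw [div_iff h0]; constructor <;> linarith

lemma col_right (hM : 0 < M) (x : ℤ) : (x + 1) / M = x / M ∨ (x + 1) / M = x / M + 1 := by
  rcases dstep hM x with h | ⟨h, -⟩
  · exact Or.inl h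
  · exact Or.inr h

lemma col_left (hM : 0 < M) (x : ℤ) : (x - 1) / M = x / M ∨ (x - 1) / M = x / M - 1 := by
  rcases dstep hM (x - 1) with h | ⟨h, -⟩ <;> rw [sub_add_cancel] at h
  · exact Or.inl h.symm
  · right; omega

lemma mem_mk (hM : 0 < M) : (x, y) ∈ Shr M Q ↔ (x / M, (y - x / M) / M) ∈ Q := by
  rw [mem_Shr hM, pc_mk]

end

/-- the step property at one side -/
def Stp (M : ℤ) (Q : Finset Cell) (s : Cell × ℤ) : Prop :=
  IsSide Q (pj M Q s) ∧ (pj M Q (nextSide (Shr M Q) s) = pj M Q s ∨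
    (pj M Q (nextSide (Shr M Q) s) = nextSide Q (pj M Q s) ∧
      (nextSide Q (pj M Q s) = ((pj M Q s).1, (pj M Q s).2 + 1) →
        nextSide (Shr M Q) s = (s.1, s.2 + 1))))

lemma stp0 {Q : Finset Cell} {M x y k : ℤ} (hM : 2 ≤ M) (hk : k % 4 = 0)
    (hs : IsSide (Shr M Q) ((x, y), k)) : Stp M Q ((x, y), k) := by
  have h0 : 0 < M := by omega
  rw [isSide0 hk, mem_mk h0, mem_mk h0, show y - 1 - x / M = (y - x / M) - 1 by ring] at hs
  obtain ⟨u, hu⟩ : ∃ u, u = y - x / M := ⟨_, rfl⟩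
  obtain ⟨i, hi⟩ : ∃ i, i = x / M := ⟨_, rfl⟩
  obtain ⟨r, hr⟩ : ∃ r, r = u / M := ⟨_, rfl⟩
  have hpj : pj M Q ((x, y), k) = ((i, r), k) := by
    rw [pj0 hk, ← hu, ← hi, ← hr]
    rw [← hu, ← hi, ← hr] at hs
    rcases dnear hM u with ⟨g, -⟩ | ⟨-, g, -⟩ | ⟨-, g, -⟩
    · rw [g, ← hr] at hs; exact absurd hs.1 hs.2
    · rw [g, ← hr] at hs; rw [if_neg hs.2]
    · rw [g, ← hr] at hs; exact absurd hs.1 hs.2
  rw [← hu, ← hi, ← hr] at hs
  have hr1 : (u - 1) / M = r - 1 ∧ (u - 2) / M = r - 1 := by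
    rcases dnear hM u with ⟨g, -⟩ | ⟨-, g, g2, -⟩ | ⟨-, g, -⟩
    · rw [g, ← hr] at hs; exact absurd hs.1 hs.2
    · rw [g, g2, ← hr]; exact ⟨rfl, rfl⟩
    · rw [g, ← hr] at hs; exact absurd hs.1 hs.2
  rw [hr1.1] at hs
  unfold Stp
  rw [hpj, next0 hk, next0 hk, isSide0 hk]
  refine ⟨hs, ?_⟩
  rcases col_right h0 x with hc | hc
  · -- same column
    have m1 : (x + 1, y - 1) ∉ Shr M Q := by
      rw [mem_mk h0, hc, ← hi, show y - 1 - i = u - 1 by omega, hr1.1]
      exact hs.2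
    have m2 : (x + 1, y) ∈ Shr M Q := by
      rw [mem_mk h0, hc, ← hi, show y - i = u by omega, ← hr]
      exact hs.1
    rw [if_neg m1, if_pos m2]
    left
    rw [pj0 hk, hc, ← hi, show y - i = u by omega, ← hr, if_neg hs.2]
  · have m1 : (x + 1, y - 1) ∈ Shr M Q ↔ (i + 1, r - 1) ∈ Q := by
      rw [mem_mk h0, hc, ← hi, show y - 1 - (i + 1) = u - 2 by omega, hr1.2]
    have m2 : (x + 1, y) ∈ Shr M Q ↔ (i + 1, r - 1) ∈ Q := by
      rw [mem_mk h0, hc, ← hi, show y - (i + 1) = u - 1 by omega, hr1.1]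
    right
    by_cases g : (i + 1, r - 1) ∈ Q
    · rw [if_pos (m1.2 g), if_pos g, pj3 (by omega), hc, ← hi,
        show y - 1 - (i + 1) = u - 2 by omega, hr1.2, show i + 1 - 1 = i by ring, if_neg hs.2]
      refine ⟨rfl, fun h => ?_⟩
      have := congrArg Prod.snd h
      simp only at this
      omega
    · rw [if_neg (fun h => g (m1.1 h)), if_neg (fun h => g (m2.1 h)), if_neg g, pj1 (by omega),
        ← hi, show y - i = u by omega, ← hr]
      split_ifs with g2
      · refine ⟨by rw [add_sub_cancel_right], fun h => ?_⟩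
        have := congrArg Prod.snd h
        simp only at this
        omega
      · exact ⟨rfl, fun _ => rfl⟩

lemma stp2 {Q : Finset Cell} {M x y k : ℤ} (hM : 2 ≤ M) (hk : k % 4 = 2)
    (hs : IsSide (Shr M Q) ((x, y), k)) : Stp M Q ((x, y), k) := by
  have h0 : 0 < M := by omega
  rw [isSide2 hk, mem_mk h0, mem_mk h0, show y + 1 - x / M = (y - x / M) + 1 by ring] at hs
  obtain ⟨u, hu⟩ : ∃ u, u = y - x / M := ⟨_, rfl⟩
  obtain ⟨i, hi⟩ : ∃ i, i = x / M := ⟨_, rfl⟩
  obtain ⟨r, hr⟩ : ∃ r, r = u / M := ⟨_, rfl⟩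
  have hpj : pj M Q ((x, y), k) = ((i, r), k) := by
    rw [pj2 hk, ← hu, ← hi, ← hr]
    rw [← hu, ← hi, ← hr] at hs
    rcases dnear hM u with ⟨-, g⟩ | ⟨-, -, -, g⟩ | ⟨-, -, g, -⟩
    · rw [g, ← hr] at hs; exact absurd hs.1 hs.2
    · rw [g, ← hr] at hs; exact absurd hs.1 hs.2
    · rw [g, ← hr] at hs; rw [if_neg hs.2]
  rw [← hu, ← hi, ← hr] at hs
  have hr1 : (u + 1) / M = r + 1 ∧ (u + 2) / M = r + 1 := by
    rcases dnear hM u with ⟨-, g⟩ | ⟨-, -, -, g⟩ | ⟨-, -, g, g2⟩
    · rw [g, ← hr] at hs; exact absurd hs.1 hs.2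
    · rw [g, ← hr] at hs; exact absurd hs.1 hs.2
    · rw [g, g2, ← hr]; exact ⟨rfl, rfl⟩
  rw [hr1.1] at hs
  unfold Stp
  rw [hpj, next2 hk, next2 hk, isSide2 hk]
  refine ⟨hs, ?_⟩
  rcases col_left h0 x with hc | hc
  · -- same column
    have m1 : (x - 1, y + 1) ∉ Shr M Q := by
      rw [mem_mk h0, hc, ← hi, show y + 1 - i = u + 1 by omega, hr1.1]
      exact hs.2
    have m2 : (x - 1, y) ∈ Shr M Q := by
      rw [mem_mk h0, hc, ← hi, show y - i = u by omega, ← hr]
      exact hs.1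
    rw [if_neg m1, if_pos m2]
    left
    rw [pj2 hk, hc, ← hi, show y - i = u by omega, ← hr, if_neg hs.2]
  · have m1 : (x - 1, y + 1) ∈ Shr M Q ↔ (i - 1, r + 1) ∈ Q := by
      rw [mem_mk h0, hc, ← hi, show y + 1 - (i - 1) = u + 2 by omega, hr1.2]
    have m2 : (x - 1, y) ∈ Shr M Q ↔ (i - 1, r + 1) ∈ Q := by
      rw [mem_mk h0, hc, ← hi, show y - (i - 1) = u + 1 by omega, hr1.1]
    right
    by_cases g : (i - 1, r + 1) ∈ Q
    · rw [if_pos (m1.2 g), if_pos g, pj1 (by omega), hc, ← hi,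
        show y + 1 - (i - 1) = u + 2 by omega, hr1.2, show i - 1 + 1 = i by ring, if_neg hs.2]
      refine ⟨rfl, fun h => ?_⟩
      have := congrArg Prod.snd h
      simp only at this
      omega
    · rw [if_neg (fun h => g (m1.1 h)), if_neg (fun h => g (m2.1 h)), if_neg g, pj3 (by omega),
        ← hi, show y - i = u by omega, ← hr]
      split_ifs with g2
      · refine ⟨by rw [add_sub_cancel_right], fun h => ?_⟩
        have := congrArg Prod.snd h
        simp only at this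
        omega
      · exact ⟨rfl, fun _ => rfl⟩

lemma stp1 {Q : Finset Cell} (hQ : Good Q) {M x y k : ℤ} (hM : 2 ≤ M) (hk : k % 4 = 1)
    (hs : IsSide (Shr M Q) ((x, y), k)) : Stp M Q ((x, y), k) := by
  have h0 : 0 < M := by omega
  rw [isSide1 hk, mem_mk h0, mem_mk h0] at hs
  obtain ⟨u, hu⟩ : ∃ u, u = y - x / M := ⟨_, rfl⟩
  obtain ⟨i, hi⟩ : ∃ i, i = x / M := ⟨_, rfl⟩
  obtain ⟨r, hr⟩ : ∃ r, r = u / M := ⟨_, rfl⟩
  have hc : (x + 1) / M = i + 1 := by
    rcases col_right h0 x with hc | hc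
    · rw [hc] at hs; exact absurd hs.1 hs.2
    · rw [hc, hi]
  rw [hc, ← hi, show y - i = u by omega, ← hr, show y - (i + 1) = u - 1 by omega] at hs
  have m1 : (x + 1, y + 1) ∈ Shr M Q ↔ (i + 1, r) ∈ Q := by
    rw [mem_mk h0, hc, show y + 1 - (i + 1) = u by omega, ← hr]
  have m2 : (x, y + 1) ∈ Shr M Q ↔ (i, (u + 1) / M) ∈ Q := by
    rw [mem_mk h0, ← hi, show y + 1 - i = u + 1 by omega]
  have hp : pj M Q ((x, y), k) = if (i + 1, r) ∈ Q then ((i + 1, r), k - 1) else ((i, r), k) := by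
    rw [pj1 hk, ← hi, show y - i = u by omega, ← hr]
  have hp2 : pj M Q ((x, y + 1), k) = if (i + 1, (u + 1) / M) ∈ Q then
      ((i + 1, (u + 1) / M), k - 1) else ((i, (u + 1) / M), k) := by
    rw [pj1 hk, ← hi, show y + 1 - i = u + 1 by omega]
  have hp3 : pj M Q ((x + 1, y + 1), k - 1) = if (i + 1, r - 1) ∈ Q then
      ((i + 1, r - 1), k - 1 - 1) else ((i + 1, r), k - 1) := by
    rw [pj0 (by omega), hc, show y + 1 - (i + 1) = u by omega, ← hr]
  have hp4 : pj M Q ((x, y), k + 1) = if (i, r + 1) ∈ Q then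
      ((i, r + 1), k + 1 - 1) else ((i, r), k + 1) := by
    rw [pj2 (by omega), ← hi, show y - i = u by omega, ← hr]
  unfold Stp
  rw [next1 hk]
  by_cases g : (i + 1, r) ∈ Q
  · -- the small side below a reflex or straight corner
    rw [if_pos g] at hp
    have hr1 : (u - 1) / M = r - 1 := by
      rcases dnear hM u with ⟨g1, -⟩ | ⟨-, g1, -⟩ | ⟨-, g1, -⟩
      · rw [g1, ← hr] at hs; exact absurd g hs.2
      · rw [g1, ← hr]
      · rw [g1, ← hr] at hs; exact absurd g hs.2
    rw [hr1] at hs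
    rw [hp, if_pos (m1.2 g), hp3, if_neg hs.2, isSide0 (by omega)]
    exact ⟨⟨g, hs.2⟩, Or.inl rfl⟩
  · rw [if_neg g] at hp
    rw [hp, if_neg (fun h => g (m1.1 h)), isSide1 hk, next1 hk]
    refine ⟨⟨hs.1, g⟩, ?_⟩
    rcases (show (u + 1) / M = r ∨ (u + 1) / M = r + 1 by
      rw [hr]; exact col_right h0 u) with g1 | g1
    · rw [g1] at m2 hp2
      rw [if_pos (m2.2 hs.1), hp2, if_neg g]
      exact Or.inl rfl
    · rw [g1] at m2 hp2
      right
      by_cases g2 : (i, r + 1) ∈ Q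
      · rw [if_pos (m2.2 g2), hp2, if_pos g2]
        refine ⟨rfl, fun h => ?_⟩
        split_ifs at h
        · have := congrArg Prod.snd h
          simp only at this
          omega
        · have := congrArg Prod.snd h
          simp only at this
          omega
      · have g3 : (i + 1, r + 1) ∉ Q := by
          intro g3
          rcases hQ.diag1 (i, r) hs.1 g3 with g4 | g4
          · exact g (by simpa using g4)
          · exact g2 (by simpa using g4)
        rw [if_neg (fun h => g2 (m2.1 h)), hp4, if_neg g2, if_neg g3, if_neg g2]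
        exact ⟨rfl, fun _ => rfl⟩

lemma stp3 {Q : Finset Cell} (hQ : Good Q) {M x y k : ℤ} (hM : 2 ≤ M) (hk : k % 4 = 3)
    (hs : IsSide (Shr M Q) ((x, y), k)) : Stp M Q ((x, y), k) := by
  have h0 : 0 < M := by omega
  rw [isSide3 hk, mem_mk h0, mem_mk h0] at hs
  obtain ⟨u, hu⟩ : ∃ u, u = y - x / M := ⟨_, rfl⟩
  obtain ⟨i, hi⟩ : ∃ i, i = x / M := ⟨_, rfl⟩
  obtain ⟨r, hr⟩ : ∃ r, r = u / M := ⟨_, rfl⟩
  have hc : (x - 1) / M = i - 1 := by
    rcases col_left h0 x with hc | hc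
    · rw [hc] at hs; exact absurd hs.1 hs.2
    · rw [hc, hi]
  rw [hc, ← hi, show y - i = u by omega, ← hr, show y - (i - 1) = u + 1 by omega] at hs
  have m1 : (x - 1, y - 1) ∈ Shr M Q ↔ (i - 1, r) ∈ Q := by
    rw [mem_mk h0, hc, show y - 1 - (i - 1) = u by omega, ← hr]
  have m2 : (x, y - 1) ∈ Shr M Q ↔ (i, (u - 1) / M) ∈ Q := by
    rw [mem_mk h0, ← hi, show y - 1 - i = u - 1 by omega]
  have hp : pj M Q ((x, y), k) = if (i - 1, r) ∈ Q then ((i - 1, r), k - 1) else ((i, r), k) := by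
    rw [pj3 hk, ← hi, show y - i = u by omega, ← hr]
  have hp2 : pj M Q ((x, y - 1), k) = if (i - 1, (u - 1) / M) ∈ Q then
      ((i - 1, (u - 1) / M), k - 1) else ((i, (u - 1) / M), k) := by
    rw [pj3 hk, ← hi, show y - 1 - i = u - 1 by omega]
  have hp3 : pj M Q ((x - 1, y - 1), k - 1) = if (i - 1, r + 1) ∈ Q then
      ((i - 1, r + 1), k - 1 - 1) else ((i - 1, r), k - 1) := by
    rw [pj2 (by omega), hc, show y - 1 - (i - 1) = u by omega, ← hr]
  have hp4 : pj M Q ((x, y), k + 1) = if (i, r - 1) ∈ Q then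
      ((i, r - 1), k + 1 - 1) else ((i, r), k + 1) := by
    rw [pj0 (by omega), ← hi, show y - i = u by omega, ← hr]
  unfold Stp
  rw [next3 hk]
  by_cases g : (i - 1, r) ∈ Q
  · rw [if_pos g] at hp
    have hr1 : (u + 1) / M = r + 1 := by
      rcases dnear hM u with ⟨-, g1⟩ | ⟨-, -, -, g1⟩ | ⟨-, -, g1, -⟩
      · rw [g1, ← hr] at hs; exact absurd g hs.2
      · rw [g1, ← hr] at hs; exact absurd g hs.2
      · rw [g1, ← hr]
    rw [hr1] at hs
    rw [hp, if_pos (m1.2 g), hp3, if_neg hs.2, isSide2 (by omega)]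
    exact ⟨⟨g, hs.2⟩, Or.inl rfl⟩
  · rw [if_neg g] at hp
    rw [hp, if_neg (fun h => g (m1.1 h)), isSide3 hk, next3 hk]
    refine ⟨⟨hs.1, g⟩, ?_⟩
    rcases (show (u - 1) / M = r ∨ (u - 1) / M = r - 1 by
      rw [hr]; exact col_left h0 u) with g1 | g1
    · rw [g1] at m2 hp2
      rw [if_pos (m2.2 hs.1), hp2, if_neg g]
      exact Or.inl rfl
    · rw [g1] at m2 hp2
      right
      by_cases g2 : (i, r - 1) ∈ Q
      · rw [if_pos (m2.2 g2), hp2, if_pos g2]
        refine ⟨rfl, fun h => ?_⟩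
        split_ifs at h
        · have := congrArg Prod.snd h
          simp only at this
          omega
        · have := congrArg Prod.snd h
          simp only at this
          omega
      · have g3 : (i - 1, r - 1) ∉ Q := by
          intro g3
          rcases hQ.diag1 (i - 1, r - 1) g3 (by simpa using hs.1) with g4 | g4
          · exact g2 (by simpa using g4)
          · exact g (by simpa using g4)
        rw [if_neg (fun h => g2 (m2.1 h)), hp4, if_neg g2, if_neg g3, if_neg g2]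
        exact ⟨rfl, fun _ => rfl⟩

/-- **the step property of the projection** -/
theorem pj_step {Q : Finset Cell} (hQ : Good Q) {M : ℤ} (hM : 2 ≤ M) {s : Cell × ℤ}
    (hs : IsSide (Shr M Q) s) : Stp M Q s := by
  obtain ⟨⟨x, y⟩, k⟩ := s
  rcases (show k % 4 = 0 ∨ k % 4 = 1 ∨ k % 4 = 2 ∨ k % 4 = 3 by omega) with h | h | h | h
  · exact stp0 hM h hs
  · exact stp1 hQ hM h hs
  · exact stp2 hM h hs
  · exact stp3 hQ hM h hs

lemma pj_add {M : ℤ} {Q : Finset Cell} (s : Cell × ℤ) {e : ℤ} (he : e % 4 = 0) :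
    pj M Q (s.1, s.2 + e) = ((pj M Q s).1, (pj M Q s).2 + e) := by
  unfold pj
  have e1 : dir (s.2 + e - 1) = dir (s.2 - 1) := by
    unfold dir
    have : (s.2 + e - 1) % 4 = (s.2 - 1) % 4 := by omega
    rw [this]
  simp only [e1]
  split_ifs
  · exact Prod.ext rfl (by simp only; ring)
  · rfl

/-- a good polyomino has a side -/
lemma exists_isSide {Q : Finset Cell} (hQ : Good Q) : ∃ s, IsSide Q s := by
  obtain ⟨c, hc, hmax⟩ := Finset.exists_max_image Q (fun c => c.1) hQ.ne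
  obtain ⟨x, y⟩ := c
  refine ⟨((x, y), 1), ?_⟩
  rw [isSide1 (by norm_num)]
  refine ⟨hc, fun h => ?_⟩
  have := hmax _ h
  simp only at this
  omega

/-- **The sheared shape.** -/
theorem exists_sheared (S : Shape) {M : ℤ} (hM : 2 ≤ M) :
    ∃ S' : Shape, S'.P.Q = Shr M S.P.Q ∧ ∀ i < S'.N, ∃ q < S.N, arc S' i = arc S q ∧
      (pj M S.P.Q (S'.P.side i)).1 = (S.P.side q).1 ∧
      ((pj M S.P.Q (S'.P.side i)).2 - (S.P.side q).2) % 4 = 0 := by
  have hG := good_Shr S.P.good hM
  obtain ⟨t0, ht0⟩ := exists_isSide hG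
  obtain ⟨g0, g1, g2⟩ := ix_spec (pj_step S.P.good hM ht0).1
  obtain ⟨m, hm⟩ : ∃ m, m = ix S (pj M S.P.Q t0) := ⟨_, rfl⟩
  rw [← hm] at g0 g1 g2
  obtain ⟨e, he⟩ : ∃ e, e = (S.P.side m).2 - (pj M S.P.Q t0).2 := ⟨_, rfl⟩
  have ht : IsSide (Shr M S.P.Q) (t0.1, t0.2 + e) := by
    obtain ⟨c, k⟩ := t0
    exact (isSide_congr (by simp only; omega)).2 ht0
  refine exists_cover hG (pj M S.P.Q) pj_four (fun s hs => (pj_step S.P.good hM hs).2) ht g0 ?_
  rw [pj_add _ (by omega)]
  exact Prod.ext g1.symm (by simp only; omega)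

end Pool.Agent.H45.W
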