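import Mathlib
import Pool.Agent.H45.W.ShearW

set_option autoImplicit false
open Finset Filter Topology

/-! # Every shape has generic perturbations (T10, part 3) -/

namespace Pool.Agent.H45.W

open Pool.Agent.H75.Perc (dir dir_cases)
open Pool.Agent.Q1.M4 (Cell Good IsSide nextSide PType rect Reg Om mem_rect)
open Pool.Agent.H21.FM (Shape)
open Pool.Agent.H14.FM (ic ic_mono)
open Pool.Agent.H5.FM
open Pool.Agent.H5.C3 (Gen Pert StGen)

lemma mem_ic {c : Cell} {z : ℂ} : z ∈ rect ic ic c ↔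
    ((c.1 : ℝ) ≤ z.re ∧ z.re ≤ c.1 + 1) ∧ ((c.2 : ℝ) ≤ z.im ∧ z.im ≤ c.2 + 1) := by
  rw [mem_rect]
  simp only [ic]
  push_cast
  rfl

lemma exists_ic (z : ℂ) : z ∈ rect ic ic (⌊z.re⌋, ⌊z.im⌋) := by
  rw [mem_ic]
  exact ⟨⟨Int.floor_le _, (Int.lt_floor_add_one _).le⟩, Int.floor_le _, (Int.lt_floor_add_one _).le⟩

/-- outside the open domain: a cell outside -/
lemma not_Om_ic {Q : Finset Cell} {z : ℂ} (hz : z ∉ Om Q ic ic) : ∃ c, c ∉ Q ∧ z ∈ rect ic ic c := by
  rw [Pool.Agent.Q1.M4.mem_Om ic_mono ic_mono] at hz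
  by_contra hcon
  push Not at hcon
  apply hz
  refine ⟨⟨_, ?_, exists_ic z⟩, fun c hc => ?_⟩
  · by_contra h
    exact hcon _ h (exists_ic z)
  · by_contra h
    exact hcon _ h hc

lemma notMem_Om_ic {Q : Finset Cell} {z : ℂ} {c : Cell} (hc : c ∉ Q) (hz : z ∈ rect ic ic c) :
    z ∉ Om Q ic ic := by
  rw [Pool.Agent.Q1.M4.mem_Om ic_mono ic_mono]
  exact fun h => hc (h.2 c hz)

lemma div_re (z : ℂ) (M : ℕ) : (z / (M : ℂ)).re = z.re / M := by
  rw [Complex.div_natCast_re]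

lemma div_im (z : ℂ) (M : ℕ) : (z / (M : ℂ)).im = z.im / M := by
  rw [Complex.div_natCast_im]

/-- strict inequalities inside a cell -/
lemma int_rect {c : Cell} {z : ℂ} (h : z ∈ interior (rect ic ic c)) :
    ((c.1 : ℝ) < z.re ∧ z.re < c.1 + 1) ∧ ((c.2 : ℝ) < z.im ∧ z.im < c.2 + 1) := by
  have e : rect ic ic c = Set.Icc (c.1 : ℝ) (c.1 + 1) ×ℂ Set.Icc (c.2 : ℝ) (c.2 + 1) := by
    ext w
    rw [mem_ic, Complex.mem_reProdIm]
    rfl
  rw [e, Complex.interior_reProdIm, interior_Icc, interior_Icc, Complex.mem_reProdIm] at h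
  exact ⟨⟨h.1.1, h.1.2⟩, h.2.1, h.2.2⟩

/-- shift of the column of a cell -/
noncomputable def vs (M : ℕ) (c : Cell) : ℂ := ⟨0, (c.1 : ℝ) / M⟩

lemma norm_vs (M : ℕ) (c : Cell) : ‖vs M c‖ = |(c.1 : ℝ)| / M := by
  have : vs M c = (((c.1 : ℝ) / M : ℝ) : ℂ) * Complex.I := by
    apply Complex.ext <;> simp [vs]
  rw [this, norm_mul, Complex.norm_I, mul_one, Complex.norm_real, Real.norm_eq_abs, abs_div,
    Nat.abs_cast]

/-- a fine cell lies in its block -/
lemma block_mem {M : ℕ} (hM : 0 < M) {f : Cell} {z : ℂ} (h : z ∈ rect ic ic f) :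
    z / M - vs M (pc M f) ∈ rect ic ic (pc M f) := by
  have hMr : (0 : ℝ) < M := by exact_mod_cast hM
  have h1 := (pc_iff (M := M) (by exact_mod_cast hM)).1 (rfl : pc M f = _)
  obtain ⟨⟨h2, h3⟩, h4, h5⟩ := h1
  rw [mem_ic] at h ⊢
  rw [Complex.sub_re, Complex.sub_im, div_re, div_im]
  have g2 : (M : ℝ) * (pc M f).1 ≤ f.1 := by exact_mod_cast h2
  have g3 : (f.1 : ℝ) + 1 ≤ M * (pc M f).1 + M := by exact_mod_cast h3
  have g4 : (M : ℝ) * (pc M f).2 + (pc M f).1 ≤ f.2 := by exact_mod_cast h4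
  have g5 : (f.2 : ℝ) + 1 ≤ M * (pc M f).2 + (pc M f).1 + M := by exact_mod_cast h5
  have e1 : (vs M (pc M f)).re = 0 := rfl
  have e2 : (vs M (pc M f)).im = ((pc M f).1 : ℝ) / M := rfl
  rw [e1, e2, sub_zero, ← sub_div, le_div_iff₀ hMr, div_le_iff₀ hMr, le_div_iff₀ hMr,
    div_le_iff₀ hMr]
  obtain ⟨⟨k1, k2⟩, k3, k4⟩ := h
  constructor <;> constructor <;> nlinarith

/-- a point with the same real part -/
lemma norm_sub_im {z : ℂ} {M : ℕ} {b K : ℝ} (hM : 0 < M) (h : |z.im - M * b| ≤ K) {a : ℝ}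
    (ha : z.re = M * a) : ‖z / M - (⟨a, b⟩ : ℂ)‖ ≤ K / M := by
  have hMr : (0 : ℝ) < M := by exact_mod_cast hM
  have e : z / M - (⟨a, b⟩ : ℂ) = (((z.im - M * b) / M : ℝ) : ℂ) * Complex.I := by
    apply Complex.ext
    · rw [Complex.sub_re, div_re, ha]
      simp
      field_simp
      simp
    · rw [Complex.sub_im, div_im]
      simp
      field_simp
  rw [e, norm_mul, Complex.norm_I, mul_one, Complex.norm_real, Real.norm_eq_abs, abs_div,
    Nat.abs_cast]
  exact div_le_div_of_nonneg_right h hMr.le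

/-- **the sides are close** -/
theorem side_close {Q : Finset Cell} {C : ℤ} (hC : ∀ c ∈ Q, |c.1| ≤ C) {M : ℕ} (hM : 2 ≤ M)
    {s : Cell × ℤ} (hs : IsSide (Shr M Q) s) {z : ℂ} (hz : OnS 1 s z) :
    ∃ w, OnS 1 (pj M Q s) w ∧ ‖z / M - w‖ ≤ ((C : ℝ) + 1) / M := by
  have hM2 : (2 : ℤ) ≤ M := by exact_mod_cast hM
  have h0 : (0 : ℤ) < M := by omega
  have hMn : 0 < M := by omega
  have hMr : (0 : ℝ) < M := by exact_mod_cast hMn
  obtain ⟨⟨x, y⟩, k⟩ := s
  obtain ⟨u, hu⟩ : ∃ u, u = y - x / M := ⟨_, rfl⟩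
  obtain ⟨i, hi⟩ : ∃ i, i = x / M := ⟨_, rfl⟩
  obtain ⟨r, hr⟩ : ∃ r, r = u / M := ⟨_, rfl⟩
  have hy : y = u + i := by omega
  have hxi := (div_iff (x := x) h0).1 hi.symm
  have hur := (div_iff (x := u) h0).1 hr.symm
  have hin : (i, r) ∈ Q := by
    have := hs.1
    rw [mem_mk h0, ← hu, ← hi, ← hr] at this
    exact this
  have hiC : |(i : ℝ)| ≤ C := by exact_mod_cast hC _ hin
  have hiC1 := abs_le.1 hiC
  have q1 : (M : ℝ) * i ≤ x := by exact_mod_cast hxi.1
  have q2 : (x : ℝ) + 1 ≤ M * i + M := by exact_mod_cast hxi.2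
  have q3 : (M : ℝ) * r ≤ u := by exact_mod_cast hur.1
  have q4 : (u : ℝ) + 1 ≤ M * r + M := by exact_mod_cast hur.2
  have qy : (y : ℝ) = u + i := by exact_mod_cast hy
  rcases (show k % 4 = 0 ∨ k % 4 = 1 ∨ k % 4 = 2 ∨ k % 4 = 3 by omega) with hk | hk | hk | hk
  · -- bottom
    have hz' : z.im = y ∧ (x : ℝ) ≤ z.re ∧ z.re ≤ x + 1 := by
      rcases hz with h | h | h | h
      · simpa using h.2
      · have := h.1; simp only at this; omega
      · have := h.1; simp only at this; omega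
      · have := h.1; simp only at this; omega
    rw [isSide0 hk, mem_mk h0, mem_mk h0, show y - 1 - x / M = (y - x / M) - 1 by ring, ← hu, ← hi,
      ← hr] at hs
    have hd : u = M * r ∧ (u - 1) / M = r - 1 := by
      rcases dnear hM2 u with ⟨g, -⟩ | ⟨g0, g, -⟩ | ⟨-, g, -⟩
      · rw [g, ← hr] at hs; exact absurd hs.1 hs.2
      · rw [← hr] at g0 g; exact ⟨g0, g⟩
      · rw [g, ← hr] at hs; exact absurd hs.1 hs.2
    rw [hd.2] at hs
    have e : pj M Q ((x, y), k) = ((i, r), k) := by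
      rw [pj0 hk, ← hu, ← hi, ← hr, if_neg hs.2]
    have q5 : (u : ℝ) = M * r := by exact_mod_cast hd.1
    refine ⟨⟨z.re / M, r⟩, ?_, norm_sub_im hMn ?_ (by field_simp)⟩
    · rw [e]
      left
      simp only [one_mul]
      refine ⟨hk, trivial, ?_, ?_⟩
      · rw [le_div_iff₀ hMr]; nlinarith [hz'.2.1]
      · rw [div_le_iff₀ hMr]; nlinarith [hz'.2.2]
    · rw [hz'.1, qy, q5, add_sub_cancel_left]
      linarith
  · -- right
    have hz' : z.re = x + 1 ∧ (y : ℝ) ≤ z.im ∧ z.im ≤ y + 1 := by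
      rcases hz with h | h | h | h
      · have := h.1; simp only at this; omega
      · simpa using h.2
      · have := h.1; simp only at this; omega
      · have := h.1; simp only at this; omega
    have hc : x + 1 = M * (i + 1) := by
      rcases dstep h0 x with hc | ⟨-, hc⟩
      · rw [isSide1 hk, mem_mk h0, mem_mk h0, hc] at hs
        exact absurd hs.1 hs.2
      · rw [hi]; exact hc
    have q5 : (x : ℝ) + 1 = M * (i + 1) := by exact_mod_cast hc
    have e : pj M Q ((x, y), k) = if (i + 1, r) ∈ Q then ((i + 1, r), k - 1) else ((i, r), k) := by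
      rw [pj1 hk, ← hi, show y - i = u by omega, ← hr]
    by_cases g : (i + 1, r) ∈ Q
    · rw [if_pos g] at e
      have hd : u = M * r := by
        have hx1 : (x + 1) / M = i + 1 := by
          rw [hc, Int.mul_ediv_cancel_left _ h0.ne']
        rw [isSide1 hk, mem_mk h0, mem_mk h0, hx1, show y - (i + 1) = u - 1 by omega] at hs
        rcases dnear hM2 u with ⟨g1, -⟩ | ⟨g0, -⟩ | ⟨-, g1, -⟩
        · rw [g1, ← hr] at hs; exact absurd g hs.2
        · rw [← hr] at g0; exact g0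
        · rw [g1, ← hr] at hs; exact absurd g hs.2
      have q6 : (u : ℝ) = M * r := by exact_mod_cast hd
      refine ⟨⟨i + 1, r⟩, ?_, norm_sub_im hMn ?_ (hz'.1.trans q5)⟩
      · rw [e]
        left
        simp only [one_mul]
        refine ⟨by omega, trivial, ?_, ?_⟩ <;> push_cast <;> linarith
      · rw [abs_le]
        constructor <;> linarith [hz'.2.1, hz'.2.2, hiC1.1, hiC1.2]
    · rw [if_neg g] at e
      refine ⟨⟨i + 1, (z.im - i) / M⟩, ?_, norm_sub_im hMn ?_ (hz'.1.trans q5)⟩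
      · rw [e]
        right; left
        simp only [one_mul]
        refine ⟨hk, trivial, ?_, ?_⟩
        · rw [le_div_iff₀ hMr]; nlinarith [hz'.2.1]
        · rw [div_le_iff₀ hMr]; nlinarith [hz'.2.2]
      · rw [mul_div_cancel₀ _ hMr.ne', sub_sub_cancel]
        linarith
  · -- top
    have hz' : z.im = y + 1 ∧ (x : ℝ) ≤ z.re ∧ z.re ≤ x + 1 := by
      rcases hz with h | h | h | h
      · have := h.1; simp only at this; omega
      · have := h.1; simp only at this; omega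
      · simpa using h.2
      · have := h.1; simp only at this; omega
    rw [isSide2 hk, mem_mk h0, mem_mk h0, show y + 1 - x / M = (y - x / M) + 1 by ring, ← hu, ← hi,
      ← hr] at hs
    have hd : u + 1 = M * (r + 1) ∧ (u + 1) / M = r + 1 := by
      rcases dnear hM2 u with ⟨-, g⟩ | ⟨-, -, -, g⟩ | ⟨g0, -, g, -⟩
      · rw [g, ← hr] at hs; exact absurd hs.1 hs.2
      · rw [g, ← hr] at hs; exact absurd hs.1 hs.2
      · rw [← hr] at g0 g; exact ⟨g0, g⟩
    rw [hd.2] at hs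
    have e : pj M Q ((x, y), k) = ((i, r), k) := by
      rw [pj2 hk, ← hu, ← hi, ← hr, if_neg hs.2]
    have q5 : (u : ℝ) + 1 = M * (r + 1) := by exact_mod_cast hd.1
    refine ⟨⟨z.re / M, r + 1⟩, ?_, norm_sub_im hMn ?_ (by field_simp)⟩
    · rw [e]
      right; right; left
      simp only [one_mul]
      refine ⟨hk, trivial, ?_, ?_⟩
      · rw [le_div_iff₀ hMr]; nlinarith [hz'.2.1]
      · rw [div_le_iff₀ hMr]; nlinarith [hz'.2.2]
    · rw [hz'.1, qy, ← q5, show (u : ℝ) + i + 1 - (u + 1) = i by ring]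
      linarith
  · -- left
    have hz' : z.re = x ∧ (y : ℝ) ≤ z.im ∧ z.im ≤ y + 1 := by
      rcases hz with h | h | h | h
      · have := h.1; simp only at this; omega
      · have := h.1; simp only at this; omega
      · have := h.1; simp only at this; omega
      · simpa using h.2
    have hc : x = M * i := by
      rcases dstep h0 (x - 1) with hc | ⟨h1, hc⟩ <;> rw [sub_add_cancel] at hc
      · rw [isSide3 hk, mem_mk h0, mem_mk h0, hc] at hs
        exact absurd hs.1 hs.2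
      · rw [sub_add_cancel, ← hi] at h1
        rw [← h1] at hc
        exact hc
    have q5 : (x : ℝ) = M * i := by exact_mod_cast hc
    have e : pj M Q ((x, y), k) = if (i - 1, r) ∈ Q then ((i - 1, r), k - 1) else ((i, r), k) := by
      rw [pj3 hk, ← hi, show y - i = u by omega, ← hr]
    by_cases g : (i - 1, r) ∈ Q
    · rw [if_pos g] at e
      have hd : u + 1 = M * (r + 1) := by
        have hx1 : (x - 1) / M = i - 1 := by
          rw [div_iff h0, hc, mul_sub, mul_one]; constructor <;> omega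
        rw [isSide3 hk, mem_mk h0, mem_mk h0, hx1, show y - (i - 1) = u + 1 by omega] at hs
        rcases dnear hM2 u with ⟨-, g1⟩ | ⟨-, -, -, g1⟩ | ⟨g0, -, g1, -⟩
        · rw [g1, ← hr] at hs; exact absurd g hs.2
        · rw [g1, ← hr] at hs; exact absurd g hs.2
        · rw [← hr] at g0; exact g0
      have q6 : (u : ℝ) + 1 = M * (r + 1) := by exact_mod_cast hd
      refine ⟨⟨i, r + 1⟩, ?_, norm_sub_im hMn ?_ (hz'.1.trans q5)⟩
      · rw [e]
        right; right; left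
        simp only [one_mul]
        refine ⟨by omega, trivial, ?_, ?_⟩ <;> push_cast <;> linarith
      · rw [abs_le]
        constructor <;> linarith [hz'.2.1, hz'.2.2, hiC1.1, hiC1.2]
    · rw [if_neg g] at e
      refine ⟨⟨i, (z.im - i) / M⟩, ?_, norm_sub_im hMn ?_ (hz'.1.trans q5)⟩
      · rw [e]
        right; right; right
        simp only [one_mul]
        refine ⟨hk, trivial, ?_, ?_⟩
        · rw [le_div_iff₀ hMr]; nlinarith [hz'.2.1]
        · rw [div_le_iff₀ hMr]; nlinarith [hz'.2.2]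
      · rw [mul_div_cancel₀ _ hMr.ne', sub_sub_cancel]
        linarith

lemma onS_mod {ε : ℝ} {c : Cell} {k k' : ℤ} (h : (k - k') % 4 = 0) {z : ℂ} :
    OnS ε (c, k) z ↔ OnS ε (c, k') z := by
  unfold OnS
  have : k % 4 = k' % 4 := by omega
  simp only [this]

lemma arc_cases (S : Shape) (j : ℕ) : (arc S j = 0 ∧ j < S.m2) ∨
    (arc S j = 1 ∧ S.m2 ≤ j ∧ j < S.m3) ∨ (arc S j = 2 ∧ S.m3 ≤ j ∧ j < S.P.m) ∨
    (arc S j = 3 ∧ S.P.m ≤ j) := by
  have g02 := S.h02
  have g23 := S.h23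
  have g34 := S.h34
  unfold arc
  split_ifs <;> omega

/-- **the sheared shape is a perturbation** -/
theorem pert_sheared (S : Shape) {C : ℤ} (hC0 : 0 ≤ C) (hC : ∀ c ∈ S.P.Q, |c.1| ≤ C) {M : ℕ}
    (hM : 2 ≤ M) : ∃ S' : Shape, S'.P.Q = Shr M S.P.Q ∧ Pert S S' M (((C : ℝ) + 1) / M) := by
  have hM2 : (2 : ℤ) ≤ M := by exact_mod_cast hM
  have h0 : (0 : ℤ) < M := by omega
  have hMn : 0 < M := by omega
  have hMr : (0 : ℝ) < M := by exact_mod_cast hMn
  have hCr : (0 : ℝ) ≤ C := by exact_mod_cast hC0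
  obtain ⟨S', hQ, hS⟩ := exists_sheared S hM2
  have hv : ∀ c : Cell, |c.1| ≤ C → ‖vs M c‖ ≤ ((C : ℝ) + 1) / M := by
    intro c hc
    rw [norm_vs]
    have : |(c.1 : ℝ)| ≤ C := by exact_mod_cast hc
    exact div_le_div_of_nonneg_right (by linarith) hMr.le
  have hl : ∀ i < S'.N, ∀ z, OnS 1 (S'.P.side i) z → ∃ j < S.N, arc S' i = arc S j ∧
      ∃ w, OnS 1 (S.P.side j) w ∧ ‖z / M - w‖ ≤ ((C : ℝ) + 1) / M := by
    intro i hi z hz
    obtain ⟨q, hq, h1, h2, h3⟩ := hS i hi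
    have hs : IsSide (Shr M S.P.Q) (S'.P.side i) := by
      rw [← hQ]
      exact Pool.Agent.Q1.M4.isSide_iter S'.P.side0 i
    obtain ⟨w, hw, hw'⟩ := side_close hC hM hs hz
    refine ⟨q, hq, h1, w, ?_, hw'⟩
    have e : pj M S.P.Q (S'.P.side i) = ((S.P.side q).1, (pj M S.P.Q (S'.P.side i)).2) :=
      Prod.ext h2 rfl
    rw [e] at hw
    exact (onS_mod h3).1 hw
  have g02 := S.h02
  have g23 := S.h23
  have g34 := S.h34
  have g4N := S.P.hmN
  have g02' := S'.h02
  have g23' := S'.h23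
  have g34' := S'.h34
  have g4N' := S'.P.hmN
  refine ⟨S', hQ, ⟨hMn, ?_, ?_, ?_, ?_, ?_, ?_⟩⟩
  · rintro z ⟨f, hf, hz⟩
    rw [hQ, mem_Shr h0] at hf
    refine ⟨_, hf, vs M (pc M f), hv _ (hC _ hf), block_mem hMn hz, fun u hu => ?_⟩
    have h1 := int_rect hu
    rw [Complex.sub_re, Complex.sub_im, div_re, div_im] at h1
    have e1 : (vs M (pc M f)).re = 0 := rfl
    have e2 : (vs M (pc M f)).im = ((pc M f).1 : ℝ) / M := rfl
    rw [e1, e2, sub_zero, ← sub_div, lt_div_iff₀ hMr, div_lt_iff₀ hMr, lt_div_iff₀ hMr,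
      div_lt_iff₀ hMr] at h1
    obtain ⟨⟨k1, k2⟩, k3, k4⟩ := h1
    have key : ∀ d, u ∈ rect ic ic d → d ∈ S'.P.Q := by
      intro d hd
      rw [hQ, mem_Shr h0]
      have : pc M d = pc M f := by
        rw [pc_iff h0]
        rw [mem_ic] at hd
        obtain ⟨⟨d1, d2⟩, d3, d4⟩ := hd
        refine ⟨⟨?_, ?_⟩, ?_, ?_⟩
        · have : ((M : ℤ) * (pc M f).1 : ℝ) < d.1 + 1 := by push_cast; nlinarith
          have : (M : ℤ) * (pc M f).1 < d.1 + 1 := by exact_mod_cast this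
          omega
        · have : (d.1 : ℝ) < (M : ℤ) * (pc M f).1 + M := by push_cast; nlinarith
          exact_mod_cast this
        · have : ((M : ℤ) * (pc M f).2 + (pc M f).1 : ℝ) < d.2 + 1 := by push_cast; nlinarith
          have : (M : ℤ) * (pc M f).2 + (pc M f).1 < d.2 + 1 := by exact_mod_cast this
          omega
        · have : (d.2 : ℝ) < (M : ℤ) * (pc M f).2 + (pc M f).1 + M := by push_cast; nlinarith
          exact_mod_cast this
      rw [this]
      exact hf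
    rw [Pool.Agent.Q1.M4.mem_Om ic_mono ic_mono]
    exact ⟨⟨_, key _ (exists_ic u), exists_ic u⟩, key⟩
  · intro z hz
    obtain ⟨f, hf, hzf⟩ := not_Om_ic hz
    rw [hQ, mem_Shr h0] at hf
    by_cases hc : |(pc M f).1| ≤ C
    · refine ⟨z / M - vs M (pc M f), notMem_Om_ic hf (block_mem hMn hzf), ?_⟩
      rw [sub_sub_cancel]
      exact hv _ hc
    · refine ⟨z / M, ?_, ?_⟩
      · have hb := block_mem hMn hzf
        rw [mem_ic] at hb
        rw [Complex.sub_re] at hb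
        have e1 : (vs M (pc M f)).re = 0 := rfl
        rw [e1, sub_zero] at hb
        refine notMem_Om_ic (c := ((pc M f).1, ⌊(z / M).im⌋)) (fun h => hc (hC ((pc M f).1, ⌊(z / M).im⌋) h)) ?_
        rw [mem_ic]
        exact ⟨hb.1, Int.floor_le _, (Int.lt_floor_add_one _).le⟩
      · rw [sub_self, norm_zero]
        positivity
  · intro i hi z hz
    obtain ⟨j, hj, h1, h2⟩ := hl i (by show i < S'.P.N; omega) z hz
    refine ⟨j, ?_, h2⟩
    have a1 := arc_cases S' i
    have a2 := arc_cases S j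
    omega
  · intro i hi1 hi z hz
    obtain ⟨j, hj, h1, h2⟩ := hl i (by show i < S'.P.N; omega) z hz
    refine ⟨j, ?_, h2⟩
    have a1 := arc_cases S' i
    have a2 := arc_cases S j
    omega
  · intro i hi1 hi z hz
    have hi' : i < S'.P.m := hi
    obtain ⟨j, hj, h1, h2⟩ := hl i (by show i < S'.P.N; omega) z hz
    refine ⟨j, ?_, h2⟩
    have a1 := arc_cases S' i
    have a2 := arc_cases S j
    show S.m3 ≤ j ∧ j < S.P.m
    omega
  · intro i hi1 hi z hz
    have hi1' : S'.P.m ≤ i := hi1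
    obtain ⟨j, hj, h1, h2⟩ := hl i hi z hz
    refine ⟨j, ⟨?_, hj⟩, h2⟩
    have a1 := arc_cases S' i
    have a2 := arc_cases S j
    show S.P.m ≤ j
    omega

/-- **(T10)** every shape has generic perturbations -/
theorem stGen : StGen := by
  intro S
  obtain ⟨C, hC0, hC⟩ : ∃ C : ℤ, 0 ≤ C ∧ ∀ c ∈ S.P.Q, |c.1| ≤ C := by
    refine ⟨∑ c ∈ S.P.Q, |c.1|, Finset.sum_nonneg fun c _ => abs_nonneg _, fun c hc => ?_⟩
    exact Finset.single_le_sum (f := fun c : Cell => |c.1|) (fun c _ => abs_nonneg _) hc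
  refine ⟨(C : ℝ) + 1, ?_⟩
  filter_upwards [eventually_ge_atTop (2 * C.toNat + 2)] with M hM
  obtain ⟨S', h1, h2⟩ := pert_sheared S hC0 hC (M := M) (by omega)
  refine ⟨S', ?_, h2⟩
  rw [h1]
  exact gen_Shr hC (by omega) (by omega)

end Pool.Agent.H45.W
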