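import Mathlib
import Pool.Agent.H45.W.EndsT
import Pool.Agent.H61.W.JWorld

set_option autoImplicit false
open Finset

/-! # Where the strands of the junction worlds end (C6, J2): geometry of the box

`Lc b q` = left end of the cell row `q`, `LL b n y` = left end of the tile row `y`. -/

namespace Pool.Agent.H45.W

open Pool.Agent.H33.Q1 Pool.Agent.H6.W Pool.Agent.H50.W Pool.Agent.H58.W Pool.Agent.H13.W
open Pool.Agent.H61.W Pool.Agent.H99.W
open Pool.Agent.Q1.M4 (Cell)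

/-- geometric facts of the box -/
structure BG (b : JBox) : Prop where
  H0 : 0 < b.H
  X0 : 0 < b.X
  mono : ∀ i, i + 1 < b.K → b.st i < b.st (i + 1)
  lo : ∀ i < b.K, -(b.X : ℤ) < b.st i ∧ b.st i < b.X

variable {b : JBox}

lemma BG.of_ok {δ σ : ℝ} (h : b.Ok δ σ) : BG b := by
  refine ⟨h.H0, ?_, h.st_mono, h.st_lo⟩
  rcases Nat.eq_zero_or_pos b.X with h0 | h0
  · exfalso
    have h1 := h.X_ge
    rw [h0, Nat.cast_zero, mul_zero] at h1
    have h2 : (0 : ℝ) < b.H := by exact_mod_cast h.H0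
    linarith
  · exact h0

lemma divJ {M x q : ℤ} (hM : 0 < M) : x / M = q ↔ M * q ≤ x ∧ x < M * q + M := by
  constructor
  · rintro rfl
    have h1 := Int.mul_ediv_self_le (x := x) (k := M) hM.ne'
    have h2 := Int.lt_mul_ediv_self_add (x := x) hM
    exact ⟨h1, by linarith⟩
  · rintro ⟨h1, h2⟩
    have h3 : x = (x - M * q) + M * q := by ring
    rw [h3, Int.add_mul_ediv_left _ _ hM.ne', Int.ediv_eq_zero_of_lt (by linarith) (by linarith)]
    omega

lemma dstepJ {M : ℤ} (hM : 0 < M) (a : ℤ) :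
    (a + 1) / M = a / M ∨ ((a + 1) / M = a / M + 1 ∧ a + 1 = M * (a / M + 1)) := by
  have h := (divJ (x := a) hM).1 rfl
  rcases lt_or_ge (a + 1) (M * (a / M) + M) with g | g
  · left
    rw [divJ hM]
    constructor <;> linarith
  · right
    have e : a + 1 = M * (a / M + 1) := by
      rw [mul_add, mul_one]
      omega
    refine ⟨?_, e⟩
    rw [divJ hM]
    constructor <;> linarith

/-- distance of a row from the middle -/
def ds (y : ℤ) : ℤ := if 0 ≤ y then y else -1 - y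

/-- left end of the cell row -/
def Lc (b : JBox) (q : ℤ) : ℤ :=
  if ds q < b.H then -(b.X : ℤ) else if ds q < b.H + b.K then b.st (ds q - b.H).toNat else b.X

lemma ds_nonneg (y : ℤ) : 0 ≤ ds y := by unfold ds; split_ifs <;> omega

lemma ds_of_nonneg {y : ℤ} (h : 0 ≤ y) : ds y = y := if_pos h

lemma ds_of_neg {y : ℤ} (h : y < 0) : ds y = -1 - y := if_neg (by omega)

lemma mem_RC {a b c d : ℤ} {p q : ℤ} : (p, q) ∈ RC a b c d ↔ (a ≤ p ∧ p < b) ∧ (c ≤ q ∧ q < d) := by
  unfold RC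
  rw [Finset.mem_product, Finset.mem_Ico, Finset.mem_Ico]

theorem mem_Q {p q : ℤ} : (p, q) ∈ b.Q ↔ Lc b q ≤ p ∧ p < b.X := by
  unfold JBox.Q
  rw [Finset.mem_union, Finset.mem_biUnion, mem_RC]
  simp only [Finset.mem_range, Finset.mem_union, mem_RC]
  have hd := ds_nonneg q
  constructor
  · rintro (⟨h1, h2⟩ | ⟨i, hi, ⟨h1, h2⟩ | ⟨h1, h2⟩⟩)
    · have : ds q < b.H := by unfold ds; split_ifs <;> omega
      unfold Lc
      rw [if_pos this]
      exact h1
    · have e : ds q = b.H + i := by unfold ds; split_ifs <;> omega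
      unfold Lc
      rw [if_neg (by omega), if_pos (by omega), e, show ((b.H : ℤ) + i - b.H).toNat = i by omega]
      exact h1
    · have e : ds q = b.H + i := by unfold ds; split_ifs <;> omega
      unfold Lc
      rw [if_neg (by omega), if_pos (by omega), e, show ((b.H : ℤ) + i - b.H).toNat = i by omega]
      exact h1
  · rintro ⟨h1, h2⟩
    unfold Lc at h1
    split_ifs at h1 with g1 g2
    · left
      refine ⟨⟨h1, h2⟩, ?_⟩
      unfold ds at g1; split_ifs at g1 <;> omega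
    · right
      refine ⟨(ds q - b.H).toNat, by omega, ?_⟩
      rcases le_or_gt 0 q with h | h
      · left
        rw [ds_of_nonneg h] at *
        exact ⟨⟨h1, h2⟩, by omega⟩
      · right
        rw [ds_of_neg h] at *
        exact ⟨⟨h1, h2⟩, by omega⟩
    · omega

lemma Lc_congr {q q' : ℤ} (h : ds q = ds q') : Lc b q = Lc b q' := by unfold Lc; rw [h]

lemma Lc_low {q : ℤ} (h : ds q < b.H) : Lc b q = -(b.X : ℤ) := if_pos h

lemma Lc_mid {q : ℤ} {i : ℕ} (hi : i < b.K) (h : ds q = b.H + i) : Lc b q = b.st i := by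
  unfold Lc
  rw [if_neg (by omega), if_pos (by omega), h, show ((b.H : ℤ) + i - b.H).toNat = i by omega]

lemma Lc_high {q : ℤ} (h : (b.H : ℤ) + b.K ≤ ds q) : Lc b q = b.X := by
  unfold Lc
  rw [if_neg (by omega), if_neg (by omega)]

lemma Lc_cases (q : ℤ) : (ds q < b.H ∧ Lc b q = -(b.X : ℤ)) ∨
    (∃ i, i < b.K ∧ ds q = b.H + i ∧ Lc b q = b.st i) ∨ ((b.H : ℤ) + b.K ≤ ds q ∧ Lc b q = b.X) := by
  rcases lt_or_ge (ds q) b.H with h | h
  · exact Or.inl ⟨h, Lc_low h⟩
  · rcases lt_or_ge (ds q) (b.H + b.K) with h' | h'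
    · right; left
      have e : ds q = b.H + ((ds q - b.H).toNat : ℤ) := by omega
      exact ⟨(ds q - b.H).toNat, by omega, e, Lc_mid (by omega) e⟩
    · exact Or.inr (Or.inr ⟨h', Lc_high h'⟩)

/-- the rows get shorter -/
lemma Lc_step (hb : BG b) {q q' : ℤ} (h : ds q' = ds q + 1) :
    Lc b q ≤ Lc b q' ∧ ((b.H : ℤ) - 1 ≤ ds q → ds q < b.H + b.K → Lc b q < Lc b q') := by
  have hX := hb.X0
  have h0 := ds_nonneg q
  rcases Lc_cases (b := b) q with ⟨h1, e1⟩ | ⟨i, hi, h1, e1⟩ | ⟨h1, e1⟩ <;>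
    rcases Lc_cases (b := b) q' with ⟨h2, e2⟩ | ⟨j, hj, h2, e2⟩ | ⟨h2, e2⟩ <;> rw [e1, e2]
  · constructor <;> intros <;> omega
  · have := hb.lo j hj
    constructor <;> intros <;> omega
  · constructor <;> intros <;> omega
  · omega
  · have : j = i + 1 := by omega
    subst this
    have := hb.mono i hj
    constructor <;> intros <;> omega
  · have := hb.lo i hi
    constructor <;> intros <;> omega
  · omega
  · omega
  · constructor <;> intros <;> omega

lemma Lc_bd (hb : BG b) (q : ℤ) : -(b.X : ℤ) ≤ Lc b q ∧ Lc b q ≤ b.X := by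
  rcases Lc_cases (b := b) q with ⟨h1, e1⟩ | ⟨i, hi, h1, e1⟩ | ⟨h1, e1⟩ <;> rw [e1]
  · omega
  · have := hb.lo i hi; omega
  · omega

/-- left end of the tile row -/
def LL (b : JBox) (n y : ℤ) : ℤ := Lc b (y / n) * n

variable {n : ℤ}

theorem InQ_iff (hn : 0 < n) {x y : ℤ} : InQ b n x y ↔ LL b n y ≤ x ∧ x < b.X * n := by
  unfold InQ LL
  rw [mem_Q, Int.le_ediv_iff_mul_le hn, Int.ediv_lt_iff_lt_mul hn]

/-- cell row of a tile row and its distance -/
lemma ds_div (hn : 0 < n) (y : ℤ) : ds (y / n) = ds y / n := by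
  rcases le_or_gt 0 y with h | h
  · rw [ds_of_nonneg h, ds_of_nonneg (Int.ediv_nonneg h hn.le)]
  · have h1 : y / n < 0 := Int.ediv_neg_of_neg_of_pos h hn
    rw [ds_of_neg h, ds_of_neg h1]
    have h2 := (divJ (x := y) hn).1 rfl
    symm
    rw [divJ hn]
    constructor <;> nlinarith

lemma LL_congr (hn : 0 < n) {y y' : ℤ} (h : ds y = ds y') : LL b n y = LL b n y' := by
  unfold LL
  rw [Lc_congr (b := b) (q := y / n) (q' := y' / n) (by rw [ds_div hn, ds_div hn, h])]

lemma LL_bd (hb : BG b) (hn : 0 < n) (y : ℤ) : -(b.X * n) ≤ LL b n y ∧ LL b n y ≤ b.X * n := by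
  unfold LL
  have := Lc_bd hb (y / n)
  constructor <;> nlinarith [this.1, this.2]

/-- the tile rows get shorter -/
lemma LL_step (hb : BG b) (hn : 0 < n) {y y' : ℤ} (h : ds y' = ds y + 1) : LL b n y ≤ LL b n y' := by
  unfold LL
  rcases dstepJ hn (ds y) with h1 | ⟨h1, -⟩
  · rw [Lc_congr (b := b) (q := y / n) (q' := y' / n) (by rw [ds_div hn, ds_div hn, h, h1])]
  · have := (Lc_step hb (q := y / n) (q' := y' / n) (by rw [ds_div hn, ds_div hn, h, h1])).1
    nlinarith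

lemma LL_low (hn : 0 < n) {y : ℤ} (h : ds y < b.H * n) : LL b n y = -(b.X * n) := by
  unfold LL
  rw [Lc_low]
  · ring
  · rw [ds_div hn, Int.ediv_lt_iff_lt_mul hn]; exact h

lemma LL_high (hn : 0 < n) {y : ℤ} (h : ((b.H : ℤ) + b.K) * n ≤ ds y) : LL b n y = b.X * n := by
  unfold LL
  rw [Lc_high]
  rw [ds_div hn, Int.le_ediv_iff_mul_le hn]; exact h

lemma LL_lt_high (hb : BG b) (hn : 0 < n) {y : ℤ} (h : b.X * n ≤ LL b n y) :
    ((b.H : ℤ) + b.K) * n ≤ ds y := by
  by_contra hcon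
  have h1 : ds (y / n) < (b.H : ℤ) + b.K := by
    rw [ds_div hn, Int.ediv_lt_iff_lt_mul hn]; omega
  unfold LL at h
  have hX := hb.X0
  have h2 : Lc b (y / n) < b.X := by
    rcases Lc_cases (b := b) (y / n) with ⟨g, e⟩ | ⟨i, hi, g, e⟩ | ⟨g, e⟩
    · omega
    · have := hb.lo i hi; omega
    · omega
  nlinarith

lemma LL_mid (hn : 0 < n) {y : ℤ} {i : ℕ} (hi : i < b.K) (h1 : ((b.H : ℤ) + i) * n ≤ ds y)
    (h2 : ds y < ((b.H : ℤ) + i + 1) * n) : LL b n y = b.st i * n := by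
  unfold LL
  rw [Lc_mid (i := i) hi]
  rw [ds_div hn, divJ hn]
  constructor <;> nlinarith

end Pool.Agent.H45.W
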