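import Mathlib
import Pool.Agent.H45.W.EndsJ

set_option autoImplicit false
open Finset

/-! # Where the strands of the junction worlds end (C6, J2): the worlds of `JWorld` -/

namespace Pool.Agent.H45.W

open Pool.Agent.H33.Q1 Pool.Agent.H6.W Pool.Agent.H50.W Pool.Agent.H58.W Pool.Agent.H13.W
open Pool.Agent.H61.W Pool.Agent.H99.W
open Pool.Agent.Q1.M4 (Cell)

/-! ### colours -/

lemma par_add (a b : ℕ) : par (a + b) = (par a ^^ par b) := by
  unfold par
  rcases Nat.mod_two_eq_zero_or_one a with h | h <;> rcases Nat.mod_two_eq_zero_or_one b with h' | h' <;>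
    simp [Nat.add_mod, h, h']

lemma par_even {a : ℕ} (h : Even a) : par a = false := by
  unfold par
  rw [Nat.even_iff.1 h]
  rfl

section col
variable {base : Bool} {M : Finset (Bool × ℕ)} {ex : Option ℤ}

lemma colM_u {i : ℕ} (h : (true, i) ∉ M) : (colM base M ex).u (i + 1) = (colM base M ex).u i := by
  unfold colM
  simp only
  have : (M.filter fun c => c.1 = true ∧ c.2 < i + 1) = M.filter fun c => c.1 = true ∧ c.2 < i := by
    ext c
    simp only [Finset.mem_filter]
    constructor
    · rintro ⟨h1, h2, h3⟩
      refine ⟨h1, h2, ?_⟩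
      by_contra hc
      have : c = (true, i) := Prod.ext h2 (by omega)
      exact h (this ▸ h1)
    · rintro ⟨h1, h2, h3⟩
      exact ⟨h1, h2, by omega⟩
  rw [this]

lemma colM_l {i : ℕ} (h : (false, i) ∉ M) : (colM base M ex).l (i + 1) = (colM base M ex).l i := by
  unfold colM
  simp only
  have : (M.filter fun c => c.1 = false ∧ i + 1 ≤ c.2) = M.filter fun c => c.1 = false ∧ i ≤ c.2 := by
    ext c
    simp only [Finset.mem_filter]
    constructor
    · rintro ⟨h1, h2, h3⟩
      exact ⟨h1, h2, by omega⟩
    · rintro ⟨h1, h2, h3⟩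
      refine ⟨h1, h2, ?_⟩
      by_contra hc
      have : c = (false, i) := Prod.ext h2 (by simp only; omega)
      exact h (this ▸ h1)
  rw [this]

/-- the colour changes at the marks -/
lemma colM_u' {i : ℕ} (h : (true, i) ∈ M) : (colM base M ex).u (i + 1) = !(colM base M ex).u i := by
  unfold colM
  simp only
  have : (M.filter fun c => c.1 = true ∧ c.2 < i + 1) =
      insert (true, i) (M.filter fun c => c.1 = true ∧ c.2 < i) := by
    ext c
    simp only [Finset.mem_filter, Finset.mem_insert]
    constructor
    · rintro ⟨h1, h2, h3⟩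
      by_cases hc : c.2 = i
      · exact Or.inl (Prod.ext h2 hc)
      · exact Or.inr ⟨h1, h2, by omega⟩
    · rintro (rfl | ⟨h1, h2, h3⟩)
      · exact ⟨h, rfl, by simp only; omega⟩
      · exact ⟨h1, h2, by omega⟩
  rw [this, Finset.card_insert_of_notMem (by simp), par_add]
  generalize par _ = a
  have : par 1 = true := rfl
  rw [this]
  cases base <;> cases a <;> rfl

lemma colM_l' {i : ℕ} (h : (false, i) ∈ M) : (colM base M ex).l (i + 1) = !(colM base M ex).l i := by
  unfold colM
  simp only
  have : (M.filter fun c => c.1 = false ∧ i ≤ c.2) =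
      insert (false, i) (M.filter fun c => c.1 = false ∧ i + 1 ≤ c.2) := by
    ext c
    simp only [Finset.mem_filter, Finset.mem_insert]
    constructor
    · rintro ⟨h1, h2, h3⟩
      by_cases hc : c.2 = i
      · exact Or.inl (Prod.ext h2 hc)
      · exact Or.inr ⟨h1, h2, by omega⟩
    · rintro (rfl | ⟨h1, h2, h3⟩)
      · exact ⟨h, rfl, by simp only; omega⟩
      · exact ⟨h1, h2, by omega⟩
  rw [this, Finset.card_insert_of_notMem (by simp), par_add]
  generalize par (Finset.card _) = a
  generalize par (Finset.card _) = a'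
  have : par 1 = true := rfl
  rw [this]
  cases base <;> cases a <;> cases a' <;> cases ex.isSome <;> rfl

lemma colM_uK {K : ℕ} (h : ∀ c ∈ M, c.2 < K) :
    (colM base M ex).u K = (base ^^ par (M.filter fun c => c.1 = true).card) := by
  unfold colM
  simp only
  have : (M.filter fun c => c.1 = true ∧ c.2 < K) = M.filter fun c => c.1 = true := by
    ext c
    simp only [Finset.mem_filter]
    exact ⟨fun g => ⟨g.1, g.2.1⟩, fun g => ⟨g.1, g.2, h c g.1⟩⟩
  rw [this]

lemma colM_lK {K : ℕ} (h : ∀ c ∈ M, c.2 < K) :
    (colM base M ex).l K = (base ^^ par (M.filter fun c => c.1 = true).card ^^ ex.isSome) := by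
  unfold colM
  simp only
  have : (M.filter fun c => c.1 = false ∧ K ≤ c.2) = ∅ := by
    rw [Finset.filter_eq_empty_iff]
    rintro c hc ⟨-, g⟩
    exact absurd (h c hc) (by omega)
  rw [this, Finset.card_empty]
  have : par 0 = false := rfl
  rw [this, Bool.xor_false]

lemma colM_foot : ((colM base M ex).u 0 ^^ (colM base M ex).l 0) = (par M.card ^^ ex.isSome) := by
  unfold colM
  simp only
  have e1 : (M.filter fun c => c.1 = true ∧ c.2 < 0) = ∅ := by
    rw [Finset.filter_eq_empty_iff]
    rintro c hc ⟨-, g⟩
    omega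
  have e2 : (M.filter fun c => c.1 = false ∧ 0 ≤ c.2) = M.filter fun c => ¬ c.1 = true := by
    ext c
    simp only [Finset.mem_filter, Bool.not_eq_true]
    exact ⟨fun g => ⟨g.1, g.2.1⟩, fun g => ⟨g.1, g.2, by omega⟩⟩
  have e3 := Finset.card_filter_add_card_filter_not (s := M) (fun c => c.1 = true)
  rw [e1, e2, ← e3, par_add, Finset.card_empty]
  have : par 0 = false := rfl
  rw [this]
  generalize par (Finset.card _) = a
  generalize par (Finset.card _) = a'
  cases base <;> cases a <;> cases a' <;> cases ex.isSome <;> rfl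

end col

end Pool.Agent.H45.W
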