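import Mathlib
import Pool.Agent.H45.W.EndsJ2

set_option autoImplicit false
open Finset

/-! # Where the strands of the junction worlds end (C6, J2): local facts -/

namespace Pool.Agent.H45.W

open Pool.Agent.H33.Q1 Pool.Agent.H6.W Pool.Agent.H50.W Pool.Agent.H58.W Pool.Agent.H13.W
open Pool.Agent.H61.W Pool.Agent.H99.W
open Pool.Agent.Q1.M4 (Cell)

variable {b : JBox} {n : ℤ}

/-- tiles of the box, as labels -/
def QS (b : JBox) (n : ℤ) : Set (ℤ × ℤ) := {e | ∃ x y, e = lt (x, y) ∧ InQ b n x y}

lemma mem_QS {x y : ℤ} : lt (x, y) ∈ QS b n ↔ InQ b n x y := by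
  constructor
  · rintro ⟨x', y', h, h'⟩
    have := lt_inj h
    rw [Prod.mk.injEq] at this
    rw [this.1, this.2]; exact h'
  · exact fun h => ⟨x, y, rfl, h⟩

lemma mem_Lam {M : Finset (Bool × ℕ)} {x y : ℤ} : lt (x, y) ∈ Lam b n M ↔
    (InQ b n x y ∨ (Ly b n x y ∧ ∀ c ∈ M, (x, y) ≠ dgt b n c)) := by
  constructor
  · rintro ⟨x', y', h, h'⟩
    have := lt_inj h
    rw [Prod.mk.injEq] at this
    rw [this.1, this.2]; exact h'
  · exact fun h => ⟨x, y, rfl, h⟩

lemma mem_ltD {D : Set (ℤ × ℤ)} {x y : ℤ} : lt (x, y) ∈ lt '' D ↔ (x, y) ∈ D := by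
  constructor
  · rintro ⟨p, hp, h⟩
    rwa [← lt_inj h]
  · exact fun h => ⟨_, h, rfl⟩

/-- the row to the left of the tile `s` -/
def lfD (s : ℤ × ℤ) : Set (ℤ × ℤ) := {p | p.2 = s.2 ∧ p.1 < s.1}

/-- the deleted tiles: string of the moving end `v` (to the right), row to the left of the mark `s` -/
def DD (vo so : Option (ℤ × ℤ)) : Set (ℤ × ℤ) :=
  {p | (∃ v ∈ vo, p ∈ strD v) ∨ ∃ s ∈ so, p ∈ lfD s}

/-- the admissible ends -/
def FF (b : JBox) (n : ℤ) (M : Finset (Bool × ℕ)) (vo so : Option (ℤ × ℤ)) :
    Set (ℤ × ℤ) :=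
  {c | (∃ q ∈ M, c = f1 b n q ∨ c = f2 b n q) ∨ (∃ v ∈ vo, c = zc v) ∨ ∃ s ∈ so, c = eW (lt s)}

/-- **Hypotheses on the world.** `M` marks, `v` moving end, `s` mark with the deleted row to the left -/
structure JOk (b : JBox) (n : ℤ) (M : Finset (Bool × ℕ)) (vo so : Option (ℤ × ℤ)) : Prop where
  bg : BG b
  n0 : 0 < n
  idx : ∀ c ∈ M, c.2 < b.K
  hv : ∀ v ∈ vo, InQ b n v.1 v.2
  hs : ∀ s ∈ so, (-(b.X * n) < s.1 ∧ s.1 < b.X * n) ∧ (-(b.H * n) ≤ s.2 ∧ s.2 < b.H * n)
  vs : ∀ v ∈ vo, ∀ s ∈ so, v.2 = s.2 → s.1 < v.1
  par : par M.card = (vo.isSome ^^ so.isSome)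

/-- row where the left wall changes its colour -/
def foot (so : Option (ℤ × ℤ)) : ℤ := match so with
  | none => 0
  | some s => s.2

/-- colour of the layer tiles: as `lcol`, but the left wall changes its colour at the deleted row -/
def lcolG (b : JBox) (n : ℤ) (cl : Cl) (so : Option (ℤ × ℤ)) (x y : ℤ) : Bool :=
  if x < -(b.X * n) then (if foot so < y then cl.u 0 else cl.l 0) else lcol b n cl x y

section world
variable {M : Finset (Bool × ℕ)} {vo so : Option (ℤ × ℤ)} {base : Bool}

/-- a lattice point of the box, in terms of the rows -/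
lemma near_iff (hn : 0 < n) (p q : ℤ) : Near (QS b n) p q ↔
    ((LL b n q ≤ p ∧ LL b n q < b.X * n) ∨ (LL b n (q - 1) ≤ p ∧ LL b n (q - 1) < b.X * n)) ∧
      p ≤ b.X * n := by
  unfold Near
  rw [mem_QS, mem_QS, mem_QS, mem_QS, InQ_iff hn, InQ_iff hn, InQ_iff hn, InQ_iff hn]
  constructor
  · rintro (h | h | h | h)
    · exact ⟨Or.inl ⟨h.1, by omega⟩, by omega⟩
    · exact ⟨Or.inl ⟨by omega, by omega⟩, by omega⟩
    · exact ⟨Or.inr ⟨h.1, by omega⟩, by omega⟩
    · exact ⟨Or.inr ⟨by omega, by omega⟩, by omega⟩
  · rintro ⟨h | h, h'⟩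
    · rcases lt_or_ge p (b.X * n) with g | g
      · left; omega
      · right; left; omega
    · rcases lt_or_ge p (b.X * n) with g | g
      · right; right; left; omega
      · right; right; right; omega

/-- a tile outside which touches the box belongs to the layer -/
lemma ly_of_near {x y : ℤ} (h : ¬ InQ b n x y)
    (h' : Near (QS b n) x y ∨ Near (QS b n) x (y + 1) ∨ Near (QS b n) (x + 1) y ∨
      Near (QS b n) (x + 1) (y + 1)) : Ly b n x y := by
  refine ⟨h, ?_⟩
  have key : ∀ i j : ℤ, |i| ≤ 3 → |j| ≤ 3 → InQ b n (x + i) (y + j) →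
      ∃ i j : ℤ, |i| ≤ 3 ∧ |j| ≤ 3 ∧ InQ b n (x + i) (y + j) := fun i j h1 h2 h3 => ⟨i, j, h1, h2, h3⟩
  unfold Near at h'
  simp only [mem_QS] at h'
  rcases h' with (g | g | g | g) | (g | g | g | g) | (g | g | g | g) | (g | g | g | g)
  · exact absurd g h
  · exact key (-1) 0 (by norm_num) (by norm_num) (by rwa [add_zero, ← sub_eq_add_neg])
  · exact key 0 (-1) (by norm_num) (by norm_num) (by rwa [add_zero, ← sub_eq_add_neg])
  · exact key (-1) (-1) (by norm_num) (by norm_num) (by rwa [← sub_eq_add_neg, ← sub_eq_add_neg])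
  · exact key 0 1 (by norm_num) (by norm_num) (by rwa [add_zero])
  · exact key (-1) 1 (by norm_num) (by norm_num) (by rwa [← sub_eq_add_neg])
  · rw [add_sub_cancel_right] at g; exact absurd g h
  · rw [add_sub_cancel_right] at g
    exact key (-1) 0 (by norm_num) (by norm_num) (by rwa [add_zero, ← sub_eq_add_neg])
  · exact key 1 0 (by norm_num) (by norm_num) (by rwa [add_zero])
  · rw [add_sub_cancel_right] at g; exact absurd g h
  · exact key 1 (-1) (by norm_num) (by norm_num) (by rwa [← sub_eq_add_neg])
  · rw [add_sub_cancel_right] at g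
    exact key 0 (-1) (by norm_num) (by norm_num) (by rwa [add_zero, ← sub_eq_add_neg])
  · exact key 1 1 (by norm_num) (by norm_num) g
  · rw [add_sub_cancel_right] at g
    exact key 0 1 (by norm_num) (by norm_num) (by rwa [add_zero])
  · rw [add_sub_cancel_right] at g
    exact key 1 0 (by norm_num) (by norm_num) (by rwa [add_zero])
  · rw [add_sub_cancel_right, add_sub_cancel_right] at g; exact absurd g h

/-- the diagonal tile at a corner: rows next to it -/
lemma dgt_rows (hb : BG b) (hn : 0 < n) {c : Bool × ℕ} (hc : c.2 < b.K) :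
    (dgt b n c).1 + 1 < LL b n (dgt b n c).2 ∧
    (c.1 = true → LL b n ((dgt b n c).2 - 1) = (dgt b n c).1 + 1 ∧
      (dgt b n c).1 + 1 < LL b n ((dgt b n c).2 + 1) ∧ 0 ≤ (dgt b n c).2 - 1) ∧
    (c.1 = false → LL b n ((dgt b n c).2 + 1) = (dgt b n c).1 + 1 ∧
      (dgt b n c).1 + 1 < LL b n ((dgt b n c).2 - 1) ∧ (dgt b n c).2 + 1 < 0) ∧
    (dgt b n c).1 + 1 = b.st c.2 * n := by
  obtain ⟨s, i⟩ := c
  simp only at hc
  have hH := hb.H0
  have e1 : ∀ s, (dgt b n (s, i)).1 + 1 = b.st i * n := by
    intro s; unfold dgt cpt; simp only; ring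
  have hi : (0 : ℤ) < ((b.H : ℤ) + i + 1) * n := by positivity
  have key : ∀ y, ((b.H : ℤ) + i + 1) * n ≤ ds y → b.st i * n < LL b n y := by
    intro y hy
    have h1 : (b.H : ℤ) + i + 1 ≤ ds (y / n) := by
      rw [ds_div hn, Int.le_ediv_iff_mul_le hn]; exact hy
    unfold LL
    have h2 : b.st i < Lc b (y / n) := by
      rcases Lc_cases (b := b) (y / n) with ⟨g, e⟩ | ⟨j, hj, g, e⟩ | ⟨g, e⟩
      · omega
      · rw [e]
        have hij : i < j := by omega
        have hmono : ∀ k, i < k → k < b.K → b.st i < b.st k := by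
          intro k
          induction k with
          | zero => intro h; omega
          | succ k ih =>
            intro h1 h2
            have h3 := hb.mono k h2
            rcases Nat.lt_succ_iff_lt_or_eq.1 h1 with h4 | h4
            · have := ih h4 (by omega); omega
            · subst h4; exact h3
        exact hmono j hij hj
      · rw [e]; exact (hb.lo i hc).2
    exact mul_lt_mul_of_pos_right h2 hn
  cases s
  · have e2 : (dgt b n (false, i)).2 = -(((b.H : ℤ) + i + 1) * n) - 1 := by
      unfold dgt cpt; simp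
    rw [e1, e2]
    refine ⟨key _ ?_, fun h => absurd h (by simp), fun _ => ⟨?_, key _ ?_, by omega⟩, rfl⟩
    · rw [ds_of_neg (by omega)]; omega
    · rw [LL_mid hn hc (i := i)]
      · rw [ds_of_neg (by omega)]; nlinarith
      · rw [ds_of_neg (by omega)]; omega
    · rw [ds_of_neg (by omega)]; omega
  · have e2 : (dgt b n (true, i)).2 = ((b.H : ℤ) + i + 1) * n := by
      unfold dgt cpt; simp
    rw [e1, e2]
    refine ⟨key _ ?_, fun _ => ⟨?_, key _ ?_, by omega⟩, fun h => absurd h (by simp), rfl⟩
    · rw [ds_of_nonneg (by omega)]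
    · rw [LL_mid hn hc (i := i)]
      · rw [ds_of_nonneg (by omega)]; nlinarith
      · rw [ds_of_nonneg (by omega)]; omega
    · rw [ds_of_nonneg (by omega)]; omega

/-- the point of the box nearest to the diagonal tile is the corner only -/
lemma dgt_not_near (hb : BG b) (hn : 0 < n) {c : Bool × ℕ} (hc : c.2 < b.K) :
    ¬ Near (QS b n) (dgt b n c).1 (dgt b n c).2 ∧ ¬ Near (QS b n) (dgt b n c).1 ((dgt b n c).2 + 1) ∧
    (c.1 = true → ¬ Near (QS b n) ((dgt b n c).1 + 1) ((dgt b n c).2 + 1)) ∧
    (c.1 = false → ¬ Near (QS b n) ((dgt b n c).1 + 1) (dgt b n c).2) := by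
  obtain ⟨h1, h2, h3, -⟩ := dgt_rows hb hn hc
  rw [near_iff hn, near_iff hn, near_iff hn, near_iff hn, add_sub_cancel_right]
  cases hs : c.1
  · obtain ⟨g1, g2, -⟩ := h3 hs
    refine ⟨by omega, by omega, fun h => absurd h (by simp), fun _ => by omega⟩
  · obtain ⟨g1, g2, -⟩ := h2 hs
    refine ⟨by omega, by omega, fun _ => by omega, fun h => absurd h (by simp)⟩

lemma dgt_true {i : ℕ} : dgt b n (true, i) = (b.st i * n - 1, ((b.H : ℤ) + i + 1) * n) := by
  unfold dgt cpt; simp

lemma dgt_false {i : ℕ} : dgt b n (false, i) = (b.st i * n - 1, -(((b.H : ℤ) + i + 1) * n) - 1) := by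
  unfold dgt cpt; simp

/-- **colours of two layer tiles, one above the other** -/
lemma vert_same (J : JOk b n M vo so) {x y : ℤ} (h1 : ¬ InQ b n x y) (h2 : ¬ InQ b n x (y + 1))
    (m1 : ∀ c ∈ M, (x, y) ≠ dgt b n c) (m2 : ∀ c ∈ M, (x, y + 1) ≠ dgt b n c)
    (d1 : (x, y) ∉ DD vo so) (d2 : (x, y + 1) ∉ DD vo so)
    (hn : Near (QS b n) x (y + 1) ∨ Near (QS b n) (x + 1) (y + 1)) :
    lcolG b n (colM base M (vo.map Prod.snd)) so x y =
      lcolG b n (colM base M (vo.map Prod.snd)) so x (y + 1) := by
  have hn0 := J.n0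
  have hb := J.bg
  have hH := hb.H0
  have hXn : 0 < b.X * n := by have := hb.X0; positivity
  rw [InQ_iff hn0] at h1 h2
  unfold lcolG
  by_cases hxl : x < -(b.X * n)
  · -- left wall
    rw [if_pos hxl, if_pos hxl]
    cases hso : so with
    | none =>
      have h3 := colM_foot (base := base) (M := M) (ex := vo.map Prod.snd)
      rw [J.par, hso] at h3
      have h4 : (vo.map Prod.snd).isSome = vo.isSome := by cases vo <;> rfl
      rw [h4] at h3
      have h5 : (colM base M (vo.map Prod.snd)).u 0 = (colM base M (vo.map Prod.snd)).l 0 := by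
        generalize (colM base M (vo.map Prod.snd)).u 0 = A at *
        generalize (colM base M (vo.map Prod.snd)).l 0 = B at *
        revert h3
        cases A <;> cases B <;> cases vo.isSome <;> simp
      rw [h5, ite_self, ite_self]
    | some s =>
      have hs := J.hs s hso
      have hne : y ≠ s.2 := fun h => d1 (Or.inr ⟨s, hso, h, by show x < s.1; omega⟩)
      have : (foot (some s) < y) ↔ (foot (some s) < y + 1) := by
        show s.2 < y ↔ s.2 < y + 1
        omega
      simp only [this]
  rw [if_neg hxl, if_neg hxl]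
  unfold lcol
  by_cases hx : b.X * n ≤ x
  · -- right wall
    rw [if_pos hx, if_pos hx]
    cases hvo : vo with
    | none => rfl
    | some v =>
      subst hvo
      have hv := J.hv v rfl
      rw [InQ_iff hn0] at hv
      have hne : v.2 ≠ y + 1 := by
        intro h
        apply d2
        left
        exact ⟨v, rfl, h.symm, by show v.1 ≤ x; omega⟩
      unfold colM
      simp only [Option.map_some]
      have : decide (y < v.2) = decide (y + 1 < v.2) := by
        rw [decide_eq_decide]; omega
      rw [this]
  · rw [if_neg hx, if_neg hx]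
    have hx' : x < b.X * n := not_le.1 hx
    rcases lt_trichotomy y (-1) with hy | hy | hy
    · -- below the slit
      rw [if_neg (by omega), if_neg (by omega)]
      obtain ⟨a, ha⟩ : ∃ a, a = -(y + 1) - 1 := ⟨_, rfl⟩
      rw [show -y - 1 = a + 1 by omega, ← ha]
      rcases dstepJ hn0 a with e | ⟨e, e'⟩
      · rw [e]
      · rw [e]
        obtain ⟨q, hq⟩ : ∃ q, q = a / n := ⟨_, rfl⟩
        rw [← hq] at e' ⊢
        rcases le_or_gt (q + 1) b.H with g | g
        · rw [show (q + 1 - (b.H : ℤ)).toNat = 0 by omega, show (q - (b.H : ℤ)).toNat = 0 by omega]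
        · obtain ⟨i, hi⟩ : ∃ i : ℕ, q = b.H + i := ⟨(q - b.H).toNat, by omega⟩
          rw [show (q + 1 - (b.H : ℤ)).toNat = i + 1 by omega, show (q - (b.H : ℤ)).toNat = i by omega]
          rcases lt_or_ge i b.K with g2 | g2
          · rw [min_eq_right (show i + 1 ≤ b.K by omega), min_eq_right g2.le]
            by_cases hm : (false, i) ∈ M
            · exfalso
              have hLL : LL b n (y + 1) = b.st i * n := by
                have e3 : ds (y + 1) = a := by rw [ds_of_neg (by omega)]; omega
                apply LL_mid hn0 g2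
                · rw [e3]; rw [hi] at e'; nlinarith
                · rw [e3]; rw [hi] at e'; nlinarith
              have hst : LL b n (y + 1) ≤ LL b n y := LL_step hb hn0 (by
                rw [ds_of_neg (by omega), ds_of_neg (by omega)]; omega)
              rw [near_iff hn0, near_iff hn0, add_sub_cancel_right] at hn
              have hx3 : x + 1 = b.st i * n := by omega
              apply m1 _ hm
              rw [dgt_false]
              refine Prod.ext (by simp only; omega) ?_
              simp only
              rw [hi] at e'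
              nlinarith
            · exact colM_l hm
          · rw [min_eq_left (show b.K ≤ i + 1 by omega), min_eq_left g2]
    · -- the foot
      exfalso
      subst hy
      have e3 : LL b n (-1) = -(b.X * n) := by
        apply LL_low hn0
        rw [ds_of_neg (by omega)]
        positivity
      omega
    · -- above the slit
      rw [if_pos (by omega), if_pos (by omega)]
      rcases dstepJ hn0 y with e | ⟨e, e'⟩
      · rw [e]
      · rw [e]
        obtain ⟨q, hq⟩ : ∃ q, q = y / n := ⟨_, rfl⟩
        rw [← hq] at e' ⊢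
        rcases le_or_gt (q + 1) b.H with g | g
        · rw [show (q + 1 - (b.H : ℤ)).toNat = 0 by omega, show (q - (b.H : ℤ)).toNat = 0 by omega]
        · obtain ⟨i, hi⟩ : ∃ i : ℕ, q = b.H + i := ⟨(q - b.H).toNat, by omega⟩
          rw [show (q + 1 - (b.H : ℤ)).toNat = i + 1 by omega, show (q - (b.H : ℤ)).toNat = i by omega]
          rcases lt_or_ge i b.K with g2 | g2
          · rw [min_eq_right (show i + 1 ≤ b.K by omega), min_eq_right g2.le]
            by_cases hm : (true, i) ∈ M
            · exfalso
              have hLL : LL b n y = b.st i * n := by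
                have e3 : ds y = y := ds_of_nonneg (by omega)
                apply LL_mid hn0 g2
                · rw [e3]; rw [hi] at e'; nlinarith
                · rw [e3]; rw [hi] at e'; nlinarith
              have hst : LL b n y ≤ LL b n (y + 1) := LL_step hb hn0 (by
                rw [ds_of_nonneg (by omega), ds_of_nonneg (by omega)])
              rw [near_iff hn0, near_iff hn0, add_sub_cancel_right] at hn
              have hx3 : x + 1 = b.st i * n := by omega
              apply m2 _ hm
              rw [dgt_true]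
              refine Prod.ext (by simp only; omega) ?_
              simp only
              rw [hi] at e'
              nlinarith
            · exact (colM_u hm).symm
          · rw [min_eq_left (show b.K ≤ i + 1 by omega), min_eq_left g2]

/-- **colours of two layer tiles side by side** -/
lemma horiz_same (J : JOk b n M vo so) {x y : ℤ} (h1 : ¬ InQ b n x y) (h2 : ¬ InQ b n (x + 1) y)
    (hn : Near (QS b n) (x + 1) y ∨ Near (QS b n) (x + 1) (y + 1)) :
    lcolG b n (colM base M (vo.map Prod.snd)) so x y =
      lcolG b n (colM base M (vo.map Prod.snd)) so (x + 1) y := by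
  have hn0 := J.n0
  have hb := J.bg
  have hH := hb.H0
  have hXn : 0 < b.X * n := by have := hb.X0; positivity
  rw [InQ_iff hn0] at h1 h2
  unfold lcolG
  by_cases hxl : x + 1 < -(b.X * n)
  · rw [if_pos (by omega), if_pos hxl]
  rw [if_neg hxl]
  by_cases hxl2 : x < -(b.X * n)
  · -- left corners
    rw [if_pos hxl2]
    have hx3 : x + 1 = -(b.X * n) := by omega
    rw [hx3] at h2 hn ⊢
    have hlow : ¬ ds y < b.H * n := fun h => by
      have := LL_low (b := b) hn0 h
      omega
    have hf : -(b.H * n) ≤ foot so ∧ foot so < b.H * n := by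
      cases hso : so with
      | none =>
        have : 0 < (b.H : ℤ) * n := by positivity
        show -(b.H * n) ≤ (0 : ℤ) ∧ (0 : ℤ) < b.H * n
        omega
      | some s => exact (J.hs s hso).2
    have hlt : ∀ y', LL b n y' ≤ -(b.X * n) → ds y' < b.H * n := by
      intro y' h
      by_contra hc
      have h3 : (b.H : ℤ) ≤ ds (y' / n) := by
        rw [ds_div hn0, Int.le_ediv_iff_mul_le hn0]; omega
      have h4 : -(b.X : ℤ) < Lc b (y' / n) := by
        have hX := hb.X0
        rcases Lc_cases (b := b) (y' / n) with ⟨g, e⟩ | ⟨i, hi, g, e⟩ | ⟨g, e⟩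
        · omega
        · have := hb.lo i hi; omega
        · omega
      unfold LL at h
      nlinarith
    rw [near_iff hn0, near_iff hn0, add_sub_cancel_right] at hn
    have hX3 : ¬ b.X * n ≤ -(b.X * n) := by omega
    unfold lcol
    rw [if_neg hX3]
    rcases le_or_gt 0 y with hy | hy
    · rw [if_pos (show (0 : ℤ) ≤ y from hy)]
      rw [ds_of_nonneg hy] at hlow
      have h5 : y = b.H * n := by
        have h5 : LL b n (y - 1) ≤ -(b.X * n) ∨ LL b n (y + 1) ≤ -(b.X * n) ∨
          LL b n y ≤ -(b.X * n) := by omega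
        rcases h5 with h5 | h5 | h5 <;> have h6 := hlt _ h5
        · have h7 : y - 1 < b.H * n := by
            refine lt_of_le_of_lt ?_ h6
            unfold ds; split_ifs <;> omega
          omega
        · rw [ds_of_nonneg (by omega)] at h6; omega
        · rw [ds_of_nonneg (by omega)] at h6; omega
      have h8 : foot so < y := by omega
      rw [if_pos h8, h5, Int.mul_ediv_cancel _ hn0.ne', sub_self]
      simp
    · rw [if_neg (show ¬ (0 : ℤ) ≤ y from not_le.2 hy)]
      rw [ds_of_neg hy] at hlow
      have h5 : -y - 1 = b.H * n := by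
        have h5 : LL b n (y - 1) ≤ -(b.X * n) ∨ LL b n (y + 1) ≤ -(b.X * n) ∨
          LL b n y ≤ -(b.X * n) := by omega
        rcases h5 with h5 | h5 | h5 <;> have h6 := hlt _ h5
        · rw [ds_of_neg (by omega)] at h6; omega
        · have h7 : -1 - (y + 1) < b.H * n := by
            refine lt_of_le_of_lt ?_ h6
            unfold ds; split_ifs <;> omega
          omega
        · rw [ds_of_neg (by omega)] at h6; omega
      have h8 : ¬ foot so < y := by omega
      rw [if_neg h8, h5, Int.mul_ediv_cancel _ hn0.ne', sub_self]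
      simp
  rw [if_neg hxl2]
  unfold lcol
  by_cases hx : b.X * n ≤ x
  · rw [if_pos hx, if_pos (by omega)]
  · rw [if_neg hx]
    by_cases hx2 : b.X * n ≤ x + 1
    · rw [if_pos hx2]
      have hx3 : x + 1 = b.X * n := by omega
      have h3 : b.X * n ≤ LL b n y := by omega
      have h4 := LL_lt_high hb hn0 h3
      have hv2 : ∀ v ∈ vo, ds v.2 < ((b.H : ℤ) + b.K) * n := by
        intro v hv
        have h5 := J.hv v hv
        rw [InQ_iff hn0] at h5
        by_contra hc
        have := LL_high (b := b) hn0 (not_lt.1 hc)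
        omega
      have h0 : (0 : ℤ) ≤ ((b.H : ℤ) + b.K) * n := by positivity
      rw [near_iff hn0, near_iff hn0, add_sub_cancel_right] at hn
      have hlt : ∀ y', LL b n y' < b.X * n → ds y' < ((b.H : ℤ) + b.K) * n := by
        intro y' h
        by_contra hc
        have := LL_high (b := b) hn0 (not_lt.1 hc)
        omega
      rcases le_or_gt 0 y with hy | hy
      · rw [if_pos hy]
        rw [ds_of_nonneg hy] at h4
        have hy2 : y = ((b.H : ℤ) + b.K) * n := by
          have h5 : LL b n (y - 1) < b.X * n ∨ LL b n (y + 1) < b.X * n := by omega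
          rcases h5 with h5 | h5
          · have h6 := hlt _ h5
            have h7 : y - 1 < ((b.H : ℤ) + b.K) * n := by
              refine lt_of_le_of_lt ?_ h6
              unfold ds; split_ifs <;> omega
            omega
          · have h6 := hlt _ h5
            rw [ds_of_nonneg (by omega)] at h6
            omega
        have e1 : y / n = b.H + b.K := by
          rw [hy2]; exact Int.mul_ediv_cancel _ hn0.ne'
        rw [e1, show ((b.H : ℤ) + b.K - b.H).toNat = b.K by omega, min_self, colM_uK J.idx]
        cases hvo : vo with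
        | none => unfold colM; simp
        | some v =>
          have h7 := hv2 v hvo
          have h8 : v.2 ≤ ds v.2 := by unfold ds; split_ifs <;> omega
          unfold colM
          simp only [Option.map_some]
          rw [decide_eq_false (by omega), Bool.xor_false]
      · rw [if_neg (by omega)]
        rw [ds_of_neg hy] at h4
        have hy2 : -y - 1 = ((b.H : ℤ) + b.K) * n := by
          have h5 : LL b n (y - 1) < b.X * n ∨ LL b n (y + 1) < b.X * n := by omega
          rcases h5 with h5 | h5
          · have h6 := hlt _ h5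
            rw [ds_of_neg (by omega)] at h6
            omega
          · have h6 := hlt _ h5
            have h7 : -1 - (y + 1) < ((b.H : ℤ) + b.K) * n := by
              refine lt_of_le_of_lt ?_ h6
              unfold ds; split_ifs <;> omega
            omega
        have e1 : (-y - 1) / n = b.H + b.K := by
          rw [hy2]; exact Int.mul_ediv_cancel _ hn0.ne'
        rw [e1, show ((b.H : ℤ) + b.K - b.H).toNat = b.K by omega, min_self, colM_lK J.idx]
        cases hvo : vo with
        | none => unfold colM; simp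
        | some v =>
          have h7 := hv2 v hvo
          have h8 : -v.2 - 1 ≤ ds v.2 := by unfold ds; split_ifs <;> omega
          unfold colM
          simp only [Option.map_some]
          rw [decide_eq_true (by omega)]
          rfl
    · rw [if_neg hx2]

end world

end Pool.Agent.H45.W
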