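import Mathlib
import Pool.Agent.H45.W.EndsJ3

set_option autoImplicit false
open Finset

/-! # Where the strands of the junction worlds end (C6, J2): the structure `WldT` -/

namespace Pool.Agent.H45.W

open Pool.Agent.H33.Q1 Pool.Agent.H6.W Pool.Agent.H50.W Pool.Agent.H58.W Pool.Agent.H13.W
open Pool.Agent.H61.W Pool.Agent.H99.W
open Pool.Agent.Q1.M4 (Cell)

variable {b : JBox} {n : ℤ} {M : Finset (Bool × ℕ)} {vo so : Option (ℤ × ℤ)} {base : Bool}
variable {Λ : Set (ℤ × ℤ)} {w : Finset (ℤ × ℤ)}

/-- a tile touches the box -/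
def Tq (b : JBox) (n x y : ℤ) : Prop :=
  Near (QS b n) x y ∨ Near (QS b n) x (y + 1) ∨ Near (QS b n) (x + 1) y ∨ Near (QS b n) (x + 1) (y + 1)

/-- admissible regions: box and layer, without the diagonal tiles at the marks -/
structure LamG (b : JBox) (n : ℤ) (M : Finset (Bool × ℕ)) (Λ : Set (ℤ × ℤ)) : Prop where
  fin : Λ.Finite
  odd : ∀ e ∈ Λ, od e
  sub : QS b n ⊆ Λ
  ly : ∀ x y, ¬ InQ b n x y → Tq b n x y → (∀ c ∈ M, (x, y) ≠ dgt b n c) → lt (x, y) ∈ Λ
  nd : ∀ c ∈ M, lt (dgt b n c) ∉ Λ

lemma nearP {x y : ℤ} (h : InQ b n x y) : Near (QS b n) x y ∧ Near (QS b n) x (y + 1) ∧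
    Near (QS b n) (x + 1) y ∧ Near (QS b n) (x + 1) (y + 1) := by
  have h' := mem_QS.2 h
  unfold Near
  rw [add_sub_cancel_right, add_sub_cancel_right]
  exact ⟨Or.inl h', Or.inr (Or.inr (Or.inl h')), Or.inr (Or.inl h'), Or.inr (Or.inr (Or.inr h'))⟩

lemma eE_lt (x y : ℤ) : eE (lt (x, y)) = eW (lt (x + 1, y)) := by
  unfold eE eW lt; exact Prod.ext (by simp only; ring) (by simp only; ring)
lemma eN_lt (x y : ℤ) : eN (lt (x, y)) = eS (lt (x, y + 1)) := by
  unfold eN eS lt; exact Prod.ext (by simp only; ring) (by simp only; ring)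

lemma JOk.sInQ (J : JOk b n M vo so) {s : ℤ × ℤ} (hs : s ∈ so) {x : ℤ} (h1 : -(b.X * n) ≤ x)
    (h2 : x < b.X * n) : InQ b n x s.2 := by
  have h := J.hs s hs
  rw [InQ_iff J.n0, LL_low J.n0]
  · exact ⟨h1, h2⟩
  · unfold ds; split_ifs <;> omega

lemma JOk.vInQ (J : JOk b n M vo so) {v : ℤ × ℤ} (hv : v ∈ vo) {x : ℤ} (h1 : v.1 ≤ x)
    (h2 : x < b.X * n) : InQ b n x v.2 := by
  have h := J.hv v hv
  rw [InQ_iff J.n0] at *
  exact ⟨h.1.trans h1, h2⟩

/-- **The structure `WldT` of the junction worlds.** -/
theorem JOk.wldT (J : JOk b n M vo so) (L : LamG b n M Λ)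
    (hw : ∀ x y, ¬ InQ b n x y → Tq b n x y → (x, y) ∉ DD vo so →
      (lt (x, y) ∈ w ↔ lcolG b n (colM base M (vo.map Prod.snd)) so x y = true)) :
    WldT (QS b n) Λ (lt '' (DD vo so)) w (FF b n M vo so) := by
  have hn0 := J.n0
  have hb := J.bg
  have hH := hb.H0
  have hXn : 0 < b.X * n := by have := hb.X0; positivity
  have hHn : 0 < b.H * n := by positivity
  -- diagonal tiles
  have dg : ∀ c ∈ M, ∀ x y, (x, y) = dgt b n c → ¬ Near (QS b n) x y ∧ ¬ Near (QS b n) x (y + 1) ∧
      (c.1 = true → ¬ Near (QS b n) (x + 1) (y + 1)) ∧ (c.1 = false → ¬ Near (QS b n) (x + 1) y) := by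
    intro c hc x y h
    have := dgt_not_near (b := b) hb hn0 (J.idx c hc)
    rw [← h] at this
    exact this
  have mem_of : ∀ x y, Tq b n x y → (¬ ∃ c ∈ M, (x, y) = dgt b n c) → lt (x, y) ∈ Λ := by
    intro x y h1 h2
    by_cases hq : InQ b n x y
    · exact L.sub (mem_QS.2 hq)
    · exact L.ly x y hq h1 fun c hc he => h2 ⟨c, hc, he⟩
  refine ⟨L.fin, L.odd, L.sub, ?_, ?_, ?_, ?_, ?_, ?_, ?_⟩
  · -- lay
    intro x y h
    rw [mem_QS] at h
    obtain ⟨p1, p2, p3, p4⟩ := nearP h
    refine ⟨mem_of _ _ (Or.inl p3) ?_, mem_of _ _ ?_ ?_, mem_of _ _ (Or.inl p2) ?_, mem_of _ _ ?_ ?_⟩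
    · rintro ⟨c, hc, he⟩
      exact (dg c hc _ _ he).1 p3
    · right; right; left
      rw [sub_add_cancel]; exact p1
    · rintro ⟨c, hc, he⟩
      have := dg c hc _ _ he
      rw [sub_add_cancel] at this
      rcases Bool.eq_false_or_eq_true c.1 with h' | h'
      · exact this.2.2.1 h' p2
      · exact this.2.2.2 h' p1
    · rintro ⟨c, hc, he⟩
      exact (dg c hc _ _ he).1 p2
    · right; left
      rw [sub_add_cancel]; exact p1
    · rintro ⟨c, hc, he⟩
      have := dg c hc _ _ he
      rw [sub_add_cancel] at this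
      exact this.2.1 p1
  · -- right
    intro x y h1 h2 h3 hn
    rw [mem_QS] at h2
    rw [mem_ltD] at h3
    by_cases hq : InQ b n (x + 1) y
    · exact Or.inl (mem_QS.2 hq)
    right; left
    have hT : Tq b n (x + 1) y := by
      rcases hn with h | h
      · exact Or.inl h
      · exact Or.inr (Or.inl h)
    have hT' : Tq b n x y := by
      rcases hn with h | h
      · exact Or.inr (Or.inr (Or.inl h))
      · exact Or.inr (Or.inr (Or.inr h))
    have hD : (x + 1, y) ∉ DD vo so := by
      rintro (⟨v, hv, e1, e2⟩ | ⟨s, hs, e1, e2⟩)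
      · simp only at e1 e2
        apply h3
        left
        refine ⟨v, hv, e1, ?_⟩
        show v.1 ≤ x
        by_contra hcon
        have : v = (x + 1, y) := Prod.ext (by simp only; omega) e1.symm
        have h4 := J.hv v hv
        rw [this] at h4
        exact hq h4
      · simp only at e1 e2
        exact h3 (Or.inr ⟨s, hs, e1, by show x < s.1; omega⟩)
    refine ⟨mem_of _ _ hT ?_, ?_, ?_⟩
    · rintro ⟨c, hc, he⟩
      have := dg c hc _ _ he
      rcases hn with h | h
      · exact this.1 h
      · exact this.2.1 h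
    · rwa [mem_ltD]
    · rw [hw _ _ hq hT hD, hw _ _ h2 hT' h3, horiz_same J h2 hq hn]
  · -- left
    intro x y h1 h2 h3 hn
    rw [mem_QS] at h2
    rw [mem_ltD] at h3
    by_cases hq : InQ b n (x - 1) y
    · exact Or.inl (mem_QS.2 hq)
    right
    have hT : Tq b n (x - 1) y := by
      unfold Tq
      rw [sub_add_cancel]
      rcases hn with h | h
      · exact Or.inr (Or.inr (Or.inl h))
      · exact Or.inr (Or.inr (Or.inr h))
    have hT' : Tq b n x y := by
      rcases hn with h | h
      · exact Or.inl h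
      · exact Or.inr (Or.inl h)
    by_cases hM : ∃ c ∈ M, (x - 1, y) = dgt b n c
    · obtain ⟨c, hc, he⟩ := hM
      right
      refine ⟨fun h => L.nd c hc (by rwa [← he]), ?_⟩
      left
      refine ⟨c, hc, Or.inl ?_⟩
      show _ = eE (lt (dgt b n c))
      rw [← he, eE_lt, sub_add_cancel]
    left
    have hD : (x - 1, y) ∉ DD vo so := by
      rintro (⟨v, hv, e1, e2⟩ | ⟨s, hs, e1, e2⟩)
      · simp only at e1 e2
        exact h3 (Or.inl ⟨v, hv, e1, by show v.1 ≤ x; omega⟩)
      · simp only at e1 e2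
        apply h3
        right
        refine ⟨s, hs, e1, ?_⟩
        show x < s.1
        by_contra hcon
        apply h2
        have h4 := J.hs s hs
        have h5 := J.sInQ hs (x := x) (by omega) (by omega)
        rwa [← e1] at h5
    refine ⟨mem_of _ _ hT hM, ?_, ?_⟩
    · rwa [mem_ltD]
    · have := horiz_same (base := base) J (x := x - 1) hq (by rwa [sub_add_cancel])
        (by rwa [sub_add_cancel])
      rw [sub_add_cancel] at this
      rw [hw _ _ hq hT hD, hw _ _ h2 hT' h3, this]
  · -- up
    intro x y h1 h2 h3 hn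
    rw [mem_QS] at h2
    rw [mem_ltD] at h3
    by_cases hq : InQ b n x (y + 1)
    · exact Or.inl (mem_QS.2 hq)
    right
    have hT : Tq b n x (y + 1) := by
      rcases hn with h | h
      · exact Or.inl h
      · exact Or.inr (Or.inr (Or.inl h))
    have hT' : Tq b n x y := by
      rcases hn with h | h
      · exact Or.inr (Or.inl h)
      · exact Or.inr (Or.inr (Or.inr h))
    by_cases hM : ∃ c ∈ M, (x, y + 1) = dgt b n c
    · obtain ⟨c, hc, he⟩ := hM
      right
      refine ⟨fun h => L.nd c hc (by rwa [← he]), ?_⟩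
      left
      refine ⟨c, hc, Or.inr ?_⟩
      have := dg c hc _ _ he
      have h6 : c.1 = true := by
        rcases Bool.eq_false_or_eq_true c.1 with h' | h'
        · exact h'
        · exact absurd hn (by rintro (h | h); exacts [this.1 h, this.2.2.2 h' h])
      unfold f2
      rw [if_pos h6, ← he, eN_lt]
    left
    refine ⟨mem_of _ _ hT hM, fun h => ?_⟩
    rw [mem_ltD] at h
    rw [hw _ _ hq hT h, hw _ _ h2 hT' h3, vert_same (base := base) J h2 hq ?_ ?_ h3 h hn]
    · intro c hc he
      exact L.nd c hc (by rwa [← he])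
    · intro c hc he
      exact hM ⟨c, hc, he⟩
  · -- down
    intro x y h1 h2 h3 hn
    rw [mem_QS] at h2
    rw [mem_ltD] at h3
    by_cases hq : InQ b n x (y - 1)
    · exact Or.inl (mem_QS.2 hq)
    right
    have hT : Tq b n x (y - 1) := by
      unfold Tq
      rw [sub_add_cancel]
      rcases hn with h | h
      · exact Or.inr (Or.inl h)
      · exact Or.inr (Or.inr (Or.inr h))
    have hT' : Tq b n x y := by
      rcases hn with h | h
      · exact Or.inl h
      · exact Or.inr (Or.inr (Or.inl h))
    by_cases hM : ∃ c ∈ M, (x, y - 1) = dgt b n c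
    · obtain ⟨c, hc, he⟩ := hM
      right
      refine ⟨fun h => L.nd c hc (by rwa [← he]), ?_⟩
      left
      refine ⟨c, hc, Or.inr ?_⟩
      have := dg c hc _ _ he
      rw [sub_add_cancel] at this
      have h6 : ¬ c.1 = true := by
        intro h'
        exact absurd hn (by rintro (h | h); exacts [this.2.1 h, this.2.2.1 h' h])
      unfold f2
      rw [if_neg h6, ← he, eN_lt, sub_add_cancel]
    left
    refine ⟨mem_of _ _ hT hM, fun h => ?_⟩
    rw [mem_ltD] at h
    have := vert_same (base := base) J (x := x) (y := y - 1) hq (by rwa [sub_add_cancel]) ?_ ?_ h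
      (by rwa [sub_add_cancel]) (by rwa [sub_add_cancel])
    · rw [sub_add_cancel] at this
      rw [hw _ _ hq hT h, hw _ _ h2 hT' h3, this]
    · intro c hc he
      exact hM ⟨c, hc, he⟩
    · rw [sub_add_cancel]
      intro c hc he
      exact L.nd c hc (by rwa [← he])
  · -- deleted rows which cross the layer
    intro x y h1 h2 h3 hn
    rw [mem_ltD] at h2
    rw [mem_QS] at h3
    have hnx : x ≤ b.X * n ∧ -(b.X * n) ≤ x + 1 := by
      have b1 := LL_bd hb hn0 y
      have b2 := LL_bd hb hn0 (y - 1)
      have b3 := LL_bd hb hn0 (y + 1)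
      rw [near_iff hn0, near_iff hn0, near_iff hn0, near_iff hn0, add_sub_cancel_right] at hn
      omega
    have nR : ∀ y', ¬ Near (QS b n) (b.X * n + 1) y' := by
      intro y' h
      rw [near_iff hn0] at h
      omega
    have nL : ∀ y', ¬ Near (QS b n) (-(b.X * n) - 1) y' := by
      intro y' h
      rw [near_iff hn0] at h
      have b1 := LL_bd hb hn0 y'
      have b2 := LL_bd hb hn0 (y' - 1)
      omega
    rcases h2 with ⟨v, hv, e1, e2⟩ | ⟨s, hs, e1, e2⟩
    · -- right wall
      simp only at e1 e2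
      have hx : x = b.X * n := by
        by_contra hcon
        apply h3
        rw [e1]
        exact J.vInQ hv e2 (by omega)
      subst hx
      have hv1 := J.hv v hv
      rw [InQ_iff hn0] at hv1
      have h5 : InQ b n (b.X * n - 1) y := by
        rw [e1]; exact J.vInQ hv (by omega) (by omega)
      obtain ⟨-, -, p3, p4⟩ := nearP h5
      rw [sub_add_cancel] at p3 p4
      have hnq : ∀ y', ¬ InQ b n (b.X * n) y' := by
        intro y' h
        rw [InQ_iff hn0] at h
        omega
      have hnd : ∀ y', ¬ ∃ c ∈ M, (b.X * n, y') = dgt b n c := by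
        rintro y' ⟨c, hc, he⟩
        have h6 := (dgt_rows (b := b) hb hn0 (J.idx c hc)).2.2.2
        rw [← he] at h6
        simp only at h6
        have h7 := hb.lo c.2 (J.idx c hc)
        nlinarith
      have hnD : ∀ y', y' ≠ y → (b.X * n, y') ∉ DD vo so := by
        rintro y' hne (⟨v', hv', g1, g2⟩ | ⟨s, hs, g1, g2⟩)
        · simp only at g1 g2
          rw [Option.mem_def] at hv hv'
          rw [hv, Option.some.injEq] at hv'
          rw [← hv'] at g1
          omega
        · simp only at g1 g2
          have := (J.hs s hs).1.2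
          omega
      have hTu : Tq b n (b.X * n) (y + 1) := Or.inl p4
      have hTd : Tq b n (b.X * n) (y - 1) := Or.inr (Or.inl (by rwa [sub_add_cancel]))
      refine ⟨⟨mem_of _ _ hTu (hnd _), ?_, ?_⟩, ⟨mem_of _ _ hTd (hnd _), ?_, ?_⟩, ?_, ⟨fun _ => p4, fun _ => p3⟩,
        ⟨fun h => absurd h (nR _), fun h => absurd h (nR _)⟩⟩
      · rw [mem_ltD]; exact hnD _ (by omega)
      · rw [mem_QS]; exact hnq _
      · rw [mem_ltD]; exact hnD _ (by omega)
      · rw [mem_QS]; exact hnq _
      · rw [hw _ _ (hnq _) hTu (hnD _ (by omega)), hw _ _ (hnq _) hTd (hnD _ (by omega))]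
        rw [Option.mem_def] at hv
        unfold lcolG lcol
        rw [if_neg (show ¬ b.X * n < -(b.X * n) by omega), if_neg (show ¬ b.X * n < -(b.X * n) by omega),
          if_pos le_rfl, if_pos le_rfl, hv]
        unfold colM
        simp only [Option.map_some]
        rw [decide_eq_false (show ¬ y + 1 < v.2 by omega), decide_eq_true (show y - 1 < v.2 by omega)]
        clear hw
        generalize Pool.Agent.H61.W.par (Finset.card _) = A
        generalize base = B
        cases B <;> cases A <;> simp
    · -- left wall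
      simp only at e1 e2
      have hs1 := J.hs s hs
      have hx : x = -(b.X * n) - 1 := by
        by_contra hcon
        apply h3
        rw [e1]
        exact J.sInQ hs (by omega) (by omega)
      subst hx
      have h5 : InQ b n (-(b.X * n)) y := by
        rw [e1]; exact J.sInQ hs le_rfl (by omega)
      obtain ⟨p1, p2, -, -⟩ := nearP h5
      have hnq : ∀ y', ¬ InQ b n (-(b.X * n) - 1) y' := by
        intro y' h
        rw [InQ_iff hn0] at h
        have b1 := LL_bd hb hn0 y'
        omega
      have hnd : ∀ y', ¬ ∃ c ∈ M, (-(b.X * n) - 1, y') = dgt b n c := by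
        rintro y' ⟨c, hc, he⟩
        have h6 := (dgt_rows (b := b) hb hn0 (J.idx c hc)).2.2.2
        rw [← he] at h6
        simp only at h6
        have h7 := hb.lo c.2 (J.idx c hc)
        nlinarith
      have hnD : ∀ y', y' ≠ y → (-(b.X * n) - 1, y') ∉ DD vo so := by
        rintro y' hne (⟨v', hv', g1, g2⟩ | ⟨s', hs', g1, g2⟩)
        · simp only at g1 g2
          have h6 := J.hv v' hv'
          rw [InQ_iff hn0] at h6
          have b1 := LL_bd hb hn0 v'.2
          omega
        · simp only at g1 g2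
          rw [Option.mem_def] at hs hs'
          rw [hs, Option.some.injEq] at hs'
          rw [← hs'] at g1
          omega
      have hTu : Tq b n (-(b.X * n) - 1) (y + 1) := by
        unfold Tq
        rw [sub_add_cancel]
        exact Or.inr (Or.inr (Or.inl p2))
      have hTd : Tq b n (-(b.X * n) - 1) (y - 1) := by
        unfold Tq
        rw [sub_add_cancel, sub_add_cancel]
        exact Or.inr (Or.inr (Or.inr p1))
      rw [sub_add_cancel]
      refine ⟨⟨mem_of _ _ hTu (hnd _), ?_, ?_⟩, ⟨mem_of _ _ hTd (hnd _), ?_, ?_⟩, ?_,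
        ⟨fun h => absurd h (nL _), fun h => absurd h (nL _)⟩, ⟨fun _ => p2, fun _ => p1⟩⟩
      · rw [mem_ltD]; exact hnD _ (by omega)
      · rw [mem_QS]; exact hnq _
      · rw [mem_ltD]; exact hnD _ (by omega)
      · rw [mem_QS]; exact hnq _
      · rw [hw _ _ (hnq _) hTu (hnD _ (by omega)), hw _ _ (hnq _) hTd (hnD _ (by omega))]
        rw [Option.mem_def] at hs
        have h7 := colM_foot (base := base) (M := M) (ex := vo.map Prod.snd)
        rw [J.par, hs] at h7
        have h8 : (vo.map Prod.snd).isSome = vo.isSome := by cases vo <;> rfl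
        rw [h8] at h7
        unfold lcolG
        rw [if_pos (show -(b.X * n) - 1 < -(b.X * n) by omega),
          if_pos (show -(b.X * n) - 1 < -(b.X * n) by omega), hs]
        have h9 : foot (some s) < y + 1 := by show s.2 < y + 1; omega
        have h10 : ¬ foot (some s) < y - 1 := by show ¬ s.2 < y - 1; omega
        rw [if_pos h9, if_neg h10]
        generalize (colM base M (vo.map Prod.snd)).u 0 = A at *
        generalize (colM base M (vo.map Prod.snd)).l 0 = B at *
        revert h7
        cases A <;> cases B <;> cases vo.isSome <;> simp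
  · -- ends of the rows
    intro x y h1 h2
    rw [mem_ltD] at h2
    rw [mem_ltD, mem_ltD]
    rcases h2 with ⟨v, hv, e1, e2⟩ | ⟨s, hs, e1, e2⟩
    · simp only at e1 e2
      refine ⟨Or.inr (Or.inl ⟨v, hv, e1, by show v.1 ≤ x + 1; omega⟩), ?_⟩
      by_cases h : v.1 ≤ x - 1
      · exact Or.inr (Or.inl ⟨v, hv, e1, h⟩)
      · left
        right; left
        refine ⟨v, hv, ?_⟩
        have : v = (x, y) := Prod.ext (by simp only; omega) e1.symm
        rw [this]
        rfl
    · simp only at e1 e2
      refine ⟨?_, Or.inr (Or.inr ⟨s, hs, e1, by show x - 1 < s.1; omega⟩)⟩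
      by_cases h : x + 1 < s.1
      · exact Or.inr (Or.inr ⟨s, hs, e1, h⟩)
      · left
        right; right
        refine ⟨s, hs, ?_⟩
        have : s = (x + 1, y) := Prod.ext (by simp only; omega) e1.symm
        rw [this, eE_lt]

end Pool.Agent.H45.W
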