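import Mathlib
import Pool.Agent.H45.W.EndsJ4
import Pool.Agent.H73.W.JCut

set_option autoImplicit false
open Finset

/-! # Where the strands of the junction worlds end (C6, J2): regions and standard colours -/

namespace Pool.Agent.H45.W

open Pool.Agent.H33.Q1 Pool.Agent.H6.W Pool.Agent.H50.W Pool.Agent.H58.W Pool.Agent.H13.W
open Pool.Agent.H61.W Pool.Agent.H99.W
open Pool.Agent.Q1.M4 (Cell)

variable {b : JBox} {n : ℤ} {M : Finset (Bool × ℕ)} {vo so : Option (ℤ × ℤ)} {base : Bool}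
variable {Λ : Set (ℤ × ℤ)} {w : Finset (ℤ × ℤ)}

/-! ### regions -/

lemma dgt_notInQ (hb : BG b) (hn : 0 < n) {c : Bool × ℕ} (hc : c.2 < b.K) :
    ¬ InQ b n (dgt b n c).1 (dgt b n c).2 := by
  have h1 := (dgt_rows hb hn hc).1
  rw [InQ_iff hn]
  omega

/-- a tile of the box is in a bounded range -/
lemma InQ_bd (hb : BG b) (hn : 0 < n) {x y : ℤ} (h : InQ b n x y) :
    (-(b.X * n) ≤ x ∧ x < b.X * n) ∧ (-(((b.H : ℤ) + b.K) * n) ≤ y ∧ y < ((b.H : ℤ) + b.K) * n) := by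
  rw [InQ_iff hn] at h
  have b1 := LL_bd hb hn y
  refine ⟨⟨by omega, h.2⟩, ?_⟩
  have h2 : ds y < ((b.H : ℤ) + b.K) * n := by
    by_contra hc
    have := LL_high (b := b) hn (not_lt.1 hc)
    omega
  unfold ds at h2
  split_ifs at h2 <;> constructor <;> omega

lemma fin_of_near (hb : BG b) (hn : 0 < n) {Λ : Set (ℤ × ℤ)}
    (h : ∀ e ∈ Λ, ∃ x y, e = lt (x, y) ∧ ∃ i j : ℤ, |i| ≤ 3 ∧ |j| ≤ 3 ∧ InQ b n (x + i) (y + j)) :
    Λ.Finite := by
  apply Set.Finite.subset (Set.Finite.image lt (Set.Finite.prod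
    (Set.finite_Icc (-(b.X * n) - 3) (b.X * n + 3))
    (Set.finite_Icc (-(((b.H : ℤ) + b.K) * n) - 3) (((b.H : ℤ) + b.K) * n + 3))))
  intro e he
  obtain ⟨x, y, rfl, i, j, h1, h2, h3⟩ := h e he
  refine ⟨(x, y), ?_, rfl⟩
  have h4 := InQ_bd hb hn h3
  rw [abs_le] at h1 h2
  rw [Set.mem_prod, Set.mem_Icc, Set.mem_Icc]
  simp only
  constructor <;> constructor <;> omega

lemma lamG_Lam (hb : BG b) (hn : 0 < n) (hM : ∀ c ∈ M, c.2 < b.K) : LamG b n M (Lam b n M) := by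
  refine ⟨fin_of_near hb hn ?_, ?_, ?_, ?_, ?_⟩
  · rintro e ⟨x, y, rfl, h⟩
    refine ⟨x, y, rfl, ?_⟩
    rcases h with h | ⟨⟨-, h⟩, -⟩
    · exact ⟨0, 0, by norm_num, by norm_num, by rwa [add_zero, add_zero]⟩
    · exact h
  · rintro e ⟨x, y, rfl, -⟩
    exact lt_odd _
  · rintro e ⟨x, y, rfl, h⟩
    exact ⟨x, y, rfl, Or.inl h⟩
  · intro x y h1 h2 h3
    rw [mem_Lam]
    exact Or.inr ⟨ly_of_near h1 h2, h3⟩
  · intro c hc h
    have h1 := dgt_notInQ hb hn (hM c hc)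
    obtain ⟨p, q, hq⟩ : ∃ p q, dgt b n c = (p, q) := ⟨_, _, rfl⟩
    rw [hq] at h h1
    rw [mem_Lam] at h
    rcases h with h | ⟨-, h⟩
    · exact h1 h
    · exact h c hc hq.symm

lemma mem_LamT {x y : ℤ} : lt (x, y) ∈ H73.W.LamT b n M ↔
    ((∃ i j : ℤ, |i| ≤ 1 ∧ |j| ≤ 1 ∧ InQ b n (x + i) (y + j)) ∧ ∀ c ∈ M, (x, y) ≠ dgt b n c) := by
  constructor
  · rintro ⟨x', y', h, h'⟩
    have := lt_inj h
    rw [Prod.mk.injEq] at this
    rw [this.1, this.2]; exact h'
  · exact fun h => ⟨x, y, rfl, h⟩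

/-- a tile touches the box if and only if one of the nine tiles round it belongs to the box -/
lemma Tq_iff {x y : ℤ} : Tq b n x y ↔ ∃ i j : ℤ, |i| ≤ 1 ∧ |j| ≤ 1 ∧ InQ b n (x + i) (y + j) := by
  unfold Tq Near
  simp only [mem_QS, add_sub_cancel_right]
  constructor
  · have key : ∀ i j : ℤ, |i| ≤ 1 → |j| ≤ 1 → InQ b n (x + i) (y + j) →
        ∃ i j : ℤ, |i| ≤ 1 ∧ |j| ≤ 1 ∧ InQ b n (x + i) (y + j) := fun i j h1 h2 h3 => ⟨i, j, h1, h2, h3⟩
    rintro ((g | g | g | g) | (g | g | g | g) | (g | g | g | g) | (g | g | g | g))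
    · exact key 0 0 (by norm_num) (by norm_num) (by rwa [add_zero, add_zero])
    · exact key (-1) 0 (by norm_num) (by norm_num) (by rwa [add_zero, ← sub_eq_add_neg])
    · exact key 0 (-1) (by norm_num) (by norm_num) (by rwa [add_zero, ← sub_eq_add_neg])
    · exact key (-1) (-1) (by norm_num) (by norm_num) (by rwa [← sub_eq_add_neg, ← sub_eq_add_neg])
    · exact key 0 1 (by norm_num) (by norm_num) (by rwa [add_zero])
    · exact key (-1) 1 (by norm_num) (by norm_num) (by rwa [← sub_eq_add_neg])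
    · exact key 0 0 (by norm_num) (by norm_num) (by rwa [add_zero, add_zero])
    · exact key (-1) 0 (by norm_num) (by norm_num) (by rwa [add_zero, ← sub_eq_add_neg])
    · exact key 1 0 (by norm_num) (by norm_num) (by rwa [add_zero])
    · exact key 0 0 (by norm_num) (by norm_num) (by rwa [add_zero, add_zero])
    · exact key 1 (-1) (by norm_num) (by norm_num) (by rwa [← sub_eq_add_neg])
    · exact key 0 (-1) (by norm_num) (by norm_num) (by rwa [add_zero, ← sub_eq_add_neg])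
    · exact key 1 1 (by norm_num) (by norm_num) g
    · exact key 0 1 (by norm_num) (by norm_num) (by rwa [add_zero])
    · exact key 1 0 (by norm_num) (by norm_num) (by rwa [add_zero])
    · exact key 0 0 (by norm_num) (by norm_num) (by rwa [add_zero, add_zero])
  · rintro ⟨i, j, h1, h2, h3⟩
    rw [abs_le] at h1 h2
    have hi : i = -1 ∨ i = 0 ∨ i = 1 := by omega
    have hj : j = -1 ∨ j = 0 ∨ j = 1 := by omega
    rcases hi with rfl | rfl | rfl <;> rcases hj with rfl | rfl | rfl <;>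
      (try simp only [add_zero, ← sub_eq_add_neg] at h3) <;> tauto

lemma lamG_LamT (hb : BG b) (hn : 0 < n) (hM : ∀ c ∈ M, c.2 < b.K) :
    LamG b n M (H73.W.LamT b n M) := by
  refine ⟨fin_of_near hb hn ?_, ?_, ?_, ?_, ?_⟩
  · rintro e ⟨x, y, rfl, ⟨i, j, h1, h2, h3⟩, -⟩
    exact ⟨x, y, rfl, i, j, h1.trans (by norm_num), h2.trans (by norm_num), h3⟩
  · rintro e ⟨x, y, rfl, -⟩
    exact lt_odd _
  · rintro e ⟨x, y, rfl, h⟩
    rw [mem_LamT]
    refine ⟨⟨0, 0, by norm_num, by norm_num, by rwa [add_zero, add_zero]⟩, fun c hc he => ?_⟩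
    have h1 := dgt_notInQ hb hn (hM c hc)
    rw [← he] at h1
    exact h1 h
  · intro x y h1 h2 h3
    rw [mem_LamT]
    exact ⟨Tq_iff.1 h2, h3⟩
  · rintro c hc ⟨x, y, h1, -, h2⟩
    exact h2 c hc (lt_inj h1).symm

/-- the thin region is the thick one, restricted to the tiles which touch the box -/
lemma LamT_iff (hb : BG b) (hn : 0 < n) (hM : ∀ c ∈ M, c.2 < b.K) {e : ℤ × ℤ} :
    e ∈ H73.W.LamT b n M ↔ (e ∈ Lam b n M ∧ Tch (QS b n) e) := by
  have hQ : ∀ e ∈ QS b n, od e := by rintro e ⟨x, y, rfl, -⟩; exact lt_odd _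
  constructor
  · rintro ⟨x, y, rfl, h1, h2⟩
    refine ⟨?_, (tch_iff hQ x y).2 (Tq_iff.2 h1)⟩
    by_cases h : InQ b n x y
    · exact mem_Lam.2 (Or.inl h)
    · exact mem_Lam.2 (Or.inr ⟨ly_of_near h (Tq_iff.2 h1), h2⟩)
  · rintro ⟨⟨x, y, rfl, h⟩, h2⟩
    have h3 := Tq_iff.1 ((tch_iff hQ x y).1 h2)
    rw [mem_LamT]
    refine ⟨h3, ?_⟩
    rcases h with h | h
    · intro c hc he
      have h1 := dgt_notInQ hb hn (hM c hc)
      rw [← he] at h1
      exact h1 h
    · exact h.2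

/-! ### colours -/

lemma LL_le_low (hb : BG b) (hn : 0 < n) {y : ℤ} (h : LL b n y ≤ -(b.X * n)) : ds y < b.H * n := by
  by_contra hc
  have h3 : (b.H : ℤ) ≤ ds (y / n) := by
    rw [ds_div hn, Int.le_ediv_iff_mul_le hn]; omega
  have h4 : -(b.X : ℤ) < Lc b (y / n) := by
    have hX := hb.X0
    rcases Lc_cases (b := b) (y / n) with ⟨g, e⟩ | ⟨i, hi, g, e⟩ | ⟨g, e⟩
    · omega
    · have := hb.lo i hi; omega
    · omega
  unfold LL at h
  nlinarith

open Classical in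
lemma mem_Wl {cl : Cl} {x y : ℤ} : lt (x, y) ∈ Wl b n cl ↔
    (((-(b.X * n) - 3 ≤ x ∧ x ≤ b.X * n + 2) ∧
      (-(((b.H : ℤ) + b.K) * n) - 3 ≤ y ∧ y ≤ ((b.H : ℤ) + b.K) * n + 2)) ∧
      ¬ InQ b n x y ∧ lcol b n cl x y = true) := by
  unfold Wl
  rw [Finset.mem_image]
  constructor
  · rintro ⟨t, h1, h2⟩
    rw [lt_inj h2, Finset.mem_filter, Finset.mem_product, Finset.mem_Icc, Finset.mem_Icc] at h1
    exact h1
  · intro h
    refine ⟨(x, y), ?_, rfl⟩
    rw [Finset.mem_filter, Finset.mem_product, Finset.mem_Icc, Finset.mem_Icc]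
    exact h

lemma Tq_bd (hb : BG b) (hn : 0 < n) {x y : ℤ} (h : Tq b n x y) :
    (-(b.X * n) - 1 ≤ x ∧ x ≤ b.X * n) ∧
      (-(((b.H : ℤ) + b.K) * n) - 1 ≤ y ∧ y ≤ ((b.H : ℤ) + b.K) * n) := by
  obtain ⟨i, j, h1, h2, h3⟩ := Tq_iff.1 h
  have h4 := InQ_bd hb hn h3
  rw [abs_le] at h1 h2
  constructor <;> constructor <;> omega

/-- `lcolG` is the natural colour if the left wall changes its colour in the slit -/
lemma lcolG_eq (J : JOk b n M vo so) (hso : ∀ s ∈ so, s.2 = 0 ∨ s.2 = -1) {x y : ℤ}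
    (hT : Tq b n x y) (hD : (x, y) ∉ DD vo so) :
    lcolG b n (colM base M (vo.map Prod.snd)) so x y = lcol b n (colM base M (vo.map Prod.snd)) x y := by
  have hn0 := J.n0
  have hb := J.bg
  have hXn : 0 < b.X * n := by have := hb.X0; positivity
  unfold lcolG
  by_cases hx : x < -(b.X * n)
  · rw [if_pos hx]
    unfold lcol
    rw [if_neg (show ¬ b.X * n ≤ x by omega)]
    have hy : -(b.H * n) - 1 ≤ y ∧ y ≤ b.H * n := by
      obtain ⟨i, j, h1, h2, h3⟩ := Tq_iff.1 hT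
      rw [InQ_iff hn0] at h3
      rw [abs_le] at h1 h2
      have h4 := LL_le_low hb hn0 (y := y + j) (by omega)
      unfold ds at h4
      split_ifs at h4 <;> constructor <;> omega
    have e0 : foot so < y ∨ foot so = y ∨ y < foot so := by omega
    have hle : ∀ z : ℤ, z ≤ b.H * n → (z / n - (b.H : ℤ)).toNat = 0 := by
      intro z hz
      have : z / n ≤ b.H := by
        rw [Int.ediv_le_iff_le_mul hn0]; linarith
      omega
    cases hs : so with
    | none =>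
      have h3 := colM_foot (base := base) (M := M) (ex := vo.map Prod.snd)
      rw [J.par, hs] at h3
      have h4 : (vo.map Prod.snd).isSome = vo.isSome := by cases vo <;> rfl
      rw [h4] at h3
      have h5 : (colM base M (vo.map Prod.snd)).u 0 = (colM base M (vo.map Prod.snd)).l 0 := by
        generalize (colM base M (vo.map Prod.snd)).u 0 = A at *
        generalize (colM base M (vo.map Prod.snd)).l 0 = B at *
        revert h3
        cases A <;> cases B <;> cases vo.isSome <;> simp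
      rw [h5, ite_self, hle y hy.2, hle (-y - 1) (by omega), min_eq_right (Nat.zero_le _), h5, ite_self]
    | some s =>
      have h1 := J.hs s hs
      have h2 := hso s hs
      have hne : y ≠ s.2 := fun h => hD (Or.inr ⟨s, hs, h, by show x < s.1; omega⟩)
      rw [hle y hy.2, hle (-y - 1) (by omega), min_eq_right (Nat.zero_le _)]
      have h3 : (foot (some s) < y) ↔ 0 ≤ y := by
        show s.2 < y ↔ 0 ≤ y
        omega
      simp only [h3]
  · rw [if_neg hx]

/-- **The structure `WldT` for the colours `colM`** -/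
theorem JOk.std (J : JOk b n M vo so) (L : LamG b n M Λ) (hso : ∀ s ∈ so, s.2 = 0 ∨ s.2 = -1)
    {w0 : Finset (ℤ × ℤ)} (h0 : ∀ x y, lt (x, y) ∈ w0 → InQ b n x y) :
    WldT (QS b n) Λ (lt '' (DD vo so)) (w0 ∪ Wl b n (colM base M (vo.map Prod.snd)))
      (FF b n M vo so) := by
  refine J.wldT (base := base) L ?_
  intro x y hq hT hD
  rw [Finset.mem_union, lcolG_eq J hso hT hD, mem_Wl]
  have h1 := Tq_bd J.bg J.n0 hT
  constructor
  · rintro (h | h)
    · exact absurd (h0 x y h) hq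
    · exact h.2.2
  · intro h
    right
    exact ⟨by omega, hq, h⟩

end Pool.Agent.H45.W
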