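import Mathlib
import Pool.Agent.H45.W.EndsJ5

set_option autoImplicit false
open Finset

/-! # Where the strands of the junction worlds end (C6, J2): the ends -/

namespace Pool.Agent.H45.W

open Pool.Agent.H33.Q1 Pool.Agent.H6.W Pool.Agent.H50.W Pool.Agent.H58.W Pool.Agent.H13.W
open Pool.Agent.H61.W Pool.Agent.H99.W
open Pool.Agent.Q1.M4 (Cell)

section gen
variable {Q Λ D : Set (ℤ × ℤ)} {w : Finset (ℤ × ℤ)} {F : Set (ℤ × ℤ)} {c d e P : ℤ × ℤ}

/-- a side one of whose tiles is missing: when it can be visited -/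
lemma AS_dead (hoQ : ∀ e ∈ Q, od e) (he : od e) (h1 : sq c e) (hQ : e ∉ Q) (hΛ : e ∉ Λ)
    (hF : c ∈ F) (hQ' : ot c e ∉ Q) (hΛ' : ot c e ∈ Λ) (hD' : ot c e ∉ D) {P0 : ℤ × ℤ} (g1 : ev P0)
    (g2 : sq c P0) (g3 : PB Q P0) (g4 : ∀ P, ev P → sq c P → PB Q P → P = P0) :
    AS Q Λ D w F c ↔ (ot c e ∈ w ↔ P0.1 % 2 = 1) := by
  constructor
  · rintro (⟨e', h2, h3⟩ | ⟨P, k1, k2, k3, k4⟩)
    · rcases lab_cases' he h1 (hoQ e' h2) h3 with h | h
      · exact absurd (h ▸ h2) hQ
      · exact absurd (h ▸ h2) hQ'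
    · rw [g4 P k1 k2 k3] at k4
      rcases k4 _ (od_ot (c := c) he) (sq_ot h1) with h | h | h
      · exact h.2.2
      · exact absurd h.2.1 hD'
      · exact absurd hΛ' h.1
  · intro h
    refine Or.inr ⟨P0, g1, g2, g3, fun e' h2 h3 => ?_⟩
    rcases lab_cases' he h1 h2 h3 with k | k
    · rw [k]; exact Or.inr (Or.inr ⟨hΛ, hF⟩)
    · rw [k]; exact Or.inl ⟨hΛ', hD', h⟩

lemma isEnd_dead (he : od e) (h1 : sq c e) (hΛ : e ∉ Λ) : IsEnd (SG Λ D w) c := by
  apply isEnd_of_notMem
  rcases (lab_iff c e).2 ⟨he, h1⟩ with h | h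
  · exact Or.inl (h ▸ hΛ)
  · exact Or.inr (h ▸ hΛ)

/-- the west or east side of a deleted tile is an end -/
lemma isEnd_del (he : od e) (hD : e ∈ D) (h1 : c = eW e ∨ c = eE e) : IsEnd (SG Λ D w) c := by
  rintro a b ⟨e1, he1, h1'⟩ ⟨e2, he2, h2'⟩
  have hs : sq c e := by
    rcases h1 with rfl | rfl
    · exact sq_eW _
    · exact sq_eE _
  have key : ∀ e1 a, TJ D w e1 c a → e1 = ot c e := by
    intro e1 a h
    obtain ⟨k1, k2, -⟩ := TJ.sqs h
    rcases lab_cases' he hs k1 k2 with k | k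
    · exfalso
      rw [k] at h
      rcases h1 with rfl | rfl
      · exact not_TJ_eW hD h
      · exact not_TJ_eE hD h
    · exact k
  have e3 := key e1 a h1'
  have e4 := key e2 b h2'
  subst e3
  rw [← e4] at h1'
  exact h1'.unique h2'

/-- a side of a natural tile of the graph is not isolated -/
lemma adj_of (he : od e) (h1 : sq c e) (hΛ : e ∈ Λ) (hD : e ∉ D) : ∃ x, (SG Λ D w).Adj c x := by
  obtain ⟨d, hd⟩ := exists_nb (w := w) he h1 (Or.inl hD)
  exact ⟨d, e, hΛ, hd⟩

end gen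

variable {b : JBox} {n : ℤ} {M : Finset (Bool × ℕ)} {vo so : Option (ℤ × ℤ)} {base : Bool}
variable {Λ : Set (ℤ × ℤ)} {w : Finset (ℤ × ℤ)}

/-- colour on the side `j` of the piece of the wall of `q` -/
def cc (cl : Cl) (q : Bool × ℕ) (j : ℕ) : Bool := if q.1 then cl.u j else cl.l j

/-- **Worlds of the junction step** with marks `M`, moving end `vo`, mark `so` with a deleted row to the left -/
structure JW (b : JBox) (n : ℤ) (M : Finset (Bool × ℕ)) (vo so : Option (ℤ × ℤ)) (base : Bool)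
    (Λ : Set (ℤ × ℤ)) (w : Finset (ℤ × ℤ)) : Prop where
  J : JOk b n M vo so
  L : LamG b n M Λ
  hw : ∀ x y, ¬ InQ b n x y → Tq b n x y → (x, y) ∉ DD vo so →
      (lt (x, y) ∈ w ↔ lcolG b n (colM base M (vo.map Prod.snd)) so x y = true)

lemma odQ {e : ℤ × ℤ} (h : e ∈ QS b n) : od e := by
  obtain ⟨x, y, rfl, -⟩ := h; exact lt_odd _

section W
variable (W : JW b n M vo so base Λ w)
include W

lemma JW.wldT : WldT (QS b n) Λ (lt '' (DD vo so)) w (FF b n M vo so) := W.J.wldT W.L W.hw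

lemma JW.wld : Wld (QS b n) Λ (lt '' (DD vo so)) w (FF b n M vo so) := W.wldT.wld

/-! ### the moving end -/

lemma JW.zc_AS {v : ℤ × ℤ} (hv : v ∈ vo) :
    AS (QS b n) Λ (lt '' (DD vo so)) w (FF b n M vo so) (zc v) :=
  Or.inl ⟨lt v, mem_QS (x := v.1) (y := v.2).2 (W.J.hv v hv), sq_eW _⟩

omit W in
lemma zc_isEnd {v : ℤ × ℤ} (hv : v ∈ vo) : IsEnd (SG Λ (lt '' (DD vo so)) w) (zc v) :=
  isEnd_del (e := lt v) (lt_odd v) ⟨v, Or.inl ⟨v, hv, rfl, le_rfl⟩, rfl⟩ (Or.inl rfl)

lemma JW.zc_adj {v : ℤ × ℤ} (hv : v ∈ vo) : ∃ x, (SG Λ (lt '' (DD vo so)) w).Adj (zc v) x := by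
  have h1 := (W.wldT.lay v.1 v.2 (mem_QS.2 (W.J.hv v hv))).2.1
  refine adj_of (e := lt (v.1 - 1, v.2)) (lt_odd _) ?_ h1 ?_
  · have : zc v = eE (lt (v.1 - 1, v.2)) := by rw [eE_lt, sub_add_cancel]; rfl
    rw [this]; exact sq_eE _
  · rw [mem_ltD]
    rintro (⟨v', hv', e1, e2⟩ | ⟨s, hs, e1, e2⟩)
    · rw [Option.mem_def] at hv hv'
      rw [hv, Option.some.injEq] at hv'
      subst hv'
      simp only at e2
      omega
    · simp only at e1 e2
      have := W.J.vs v hv s hs e1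
      omega

/-! ### the end of the row to the left -/

lemma JW.sInQ {s : ℤ × ℤ} (hs : s ∈ so) : InQ b n s.1 s.2 := by
  have h := W.J.hs s hs
  exact W.J.sInQ hs (by omega) (by omega)

lemma JW.mc_AS {s : ℤ × ℤ} (hs : s ∈ so) :
    AS (QS b n) Λ (lt '' (DD vo so)) w (FF b n M vo so) (eW (lt s)) :=
  Or.inl ⟨lt s, mem_QS (x := s.1) (y := s.2).2 (W.sInQ hs), sq_eW _⟩

omit W in
lemma mc_isEnd {s : ℤ × ℤ} (hs : s ∈ so) : IsEnd (SG Λ (lt '' (DD vo so)) w) (eW (lt s)) :=
  isEnd_del (e := lt (s.1 - 1, s.2)) (lt_odd _)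
    ⟨(s.1 - 1, s.2), Or.inr ⟨s, hs, rfl, by show s.1 - 1 < s.1; omega⟩, rfl⟩
    (Or.inr (by rw [eE_lt, sub_add_cancel]))

lemma JW.mc_adj {s : ℤ × ℤ} (hs : s ∈ so) : ∃ x, (SG Λ (lt '' (DD vo so)) w).Adj (eW (lt s)) x := by
  refine adj_of (e := lt (s.1, s.2)) (lt_odd _) (sq_eW _) (W.L.sub (mem_QS.2 (W.sInQ hs))) ?_
  rw [mem_ltD]
  rintro (⟨v, hv, e1, e2⟩ | ⟨s', hs', e1, e2⟩)
  · simp only at e1 e2
    have := W.J.vs v hv s hs e1.symm
    omega
  · rw [Option.mem_def] at hs hs'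
    rw [hs, Option.some.injEq] at hs'
    subst hs'
    simp only at e2
    omega

/-! ### the marks -/

lemma JW.f1_isEnd {q : Bool × ℕ} (hq : q ∈ M) : IsEnd (SG Λ (lt '' (DD vo so)) w) (f1 b n q) :=
  isEnd_dead (e := lt (dgt b n q)) (lt_odd _) (sq_eE _) (W.L.nd q hq)

lemma JW.f2_isEnd {q : Bool × ℕ} (hq : q ∈ M) : IsEnd (SG Λ (lt '' (DD vo so)) w) (f2 b n q) := by
  refine isEnd_dead (e := lt (dgt b n q)) (lt_odd _) ?_ (W.L.nd q hq)
  unfold f2
  split_ifs
  · exact sq_eS _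
  · exact sq_eN _

omit W in
lemma near_cpt (hb : BG b) (hn : 0 < n) {q : Bool × ℕ} (hq : q.2 < b.K) :
    Near (QS b n) ((dgt b n q).1 + 1) (if q.1 then (dgt b n q).2 else (dgt b n q).2 + 1) := by
  obtain ⟨h1, h2, h3, h4⟩ := dgt_rows hb hn hq
  have h5 := hb.lo q.2 hq
  have h6 : (dgt b n q).1 + 1 < b.X * n := by rw [h4]; nlinarith
  rw [near_iff hn]
  cases hs : q.1
  · obtain ⟨g1, g2, g3⟩ := h3 hs
    simp only [Bool.false_eq_true, if_false, add_sub_cancel_right]
    refine ⟨Or.inl ⟨by omega, by omega⟩, by omega⟩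
  · obtain ⟨g1, g2, g3⟩ := h2 hs
    simp only [if_true]
    refine ⟨Or.inr ⟨by omega, by omega⟩, by omega⟩

/-- the tile beyond the mark -/
def tb (b : JBox) (n : ℤ) (q : Bool × ℕ) : ℤ × ℤ := ((dgt b n q).1 + 1, (dgt b n q).2)

/-- the tile before the mark -/
def ta (b : JBox) (n : ℤ) (q : Bool × ℕ) : ℤ × ℤ :=
  ((dgt b n q).1, if q.1 then (dgt b n q).2 - 1 else (dgt b n q).2 + 1)

omit W in
lemma tb_facts (J : JOk b n M vo so) {q : Bool × ℕ} (hq : q.2 < b.K) :
    ¬ InQ b n (tb b n q).1 (tb b n q).2 ∧ Tq b n (tb b n q).1 (tb b n q).2 ∧ tb b n q ∉ DD vo so ∧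
      lcolG b n (colM base M (vo.map Prod.snd)) so (tb b n q).1 (tb b n q).2 =
        cc (colM base M (vo.map Prod.snd)) q (q.2 + 1) := by
  have hb := J.bg
  have hn := J.n0
  have hH := hb.H0
  obtain ⟨h1, h2, h3, h4⟩ := dgt_rows hb hn hq
  have h5 := hb.lo q.2 hq
  have h6 : (dgt b n q).1 + 1 < b.X * n := by rw [h4]; nlinarith
  have h6' : -(b.X * n) < (dgt b n q).1 + 1 := by rw [h4]; nlinarith
  have hnq : ¬ InQ b n (tb b n q).1 (tb b n q).2 := by
    unfold tb
    rw [InQ_iff hn]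
    simp only
    omega
  have hc := near_cpt hb hn hq
  have hT : Tq b n (tb b n q).1 (tb b n q).2 := by
    unfold tb Tq
    simp only
    cases hs : q.1 <;> rw [hs] at hc
    · exact Or.inr (Or.inl hc)
    · exact Or.inl hc
  refine ⟨hnq, hT, ?_, ?_⟩
  · rintro (⟨v, hv, e1, e2⟩ | ⟨s, hs, e1, e2⟩)
    · apply hnq
      rw [e1]
      exact J.vInQ hv e2 (by unfold tb; exact h6)
    · apply hnq
      rw [e1]
      have := J.hs s hs
      exact J.sInQ hs (by unfold tb; simp only; omega) (by unfold tb; exact h6)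
  · unfold lcolG tb
    simp only
    rw [if_neg (by omega)]
    unfold lcol
    rw [if_neg (by omega)]
    obtain ⟨s, i⟩ := q
    simp only at hq
    have hm : min b.K (i + 1) = i + 1 := min_eq_right (by omega)
    have hi : (0 : ℤ) < ((b.H : ℤ) + i + 1) * n := by positivity
    unfold cc
    cases s
    · rw [dgt_false]
      simp only [Bool.false_eq_true, if_false]
      rw [if_neg (by omega)]
      have e1 : (-(-(((b.H : ℤ) + i + 1) * n) - 1) - 1) / n = b.H + i + 1 := by
        rw [show (-(-(((b.H : ℤ) + i + 1) * n) - 1) - 1) = ((b.H : ℤ) + i + 1) * n by ring]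
        exact Int.mul_ediv_cancel _ hn.ne'
      rw [e1, show ((b.H : ℤ) + i + 1 - b.H).toNat = i + 1 by omega, hm]
    · rw [dgt_true]
      simp only [if_true]
      rw [if_pos (by omega)]
      have e1 : (((b.H : ℤ) + i + 1) * n) / n = b.H + i + 1 := Int.mul_ediv_cancel _ hn.ne'
      rw [e1, show ((b.H : ℤ) + i + 1 - b.H).toNat = i + 1 by omega, hm]

omit W in
lemma ta_facts (J : JOk b n M vo so) {q : Bool × ℕ} (hq : q.2 < b.K) :
    ¬ InQ b n (ta b n q).1 (ta b n q).2 ∧ Tq b n (ta b n q).1 (ta b n q).2 ∧ ta b n q ∉ DD vo so ∧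
      lcolG b n (colM base M (vo.map Prod.snd)) so (ta b n q).1 (ta b n q).2 =
        cc (colM base M (vo.map Prod.snd)) q q.2 := by
  have hb := J.bg
  have hn := J.n0
  have hH := hb.H0
  obtain ⟨h1, h2, h3, h4⟩ := dgt_rows hb hn hq
  have h5 := hb.lo q.2 hq
  have h6 : (dgt b n q).1 + 1 < b.X * n := by rw [h4]; nlinarith
  have h6' : -(b.X * n) < (dgt b n q).1 + 1 := by rw [h4]; nlinarith
  have hnq : ¬ InQ b n (ta b n q).1 (ta b n q).2 := by
    unfold ta
    rw [InQ_iff hn]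
    simp only
    cases hs : q.1
    · have := h3 hs
      simp only [Bool.false_eq_true, if_false]
      omega
    · have := h2 hs
      simp only [if_true]
      omega
  have hc := near_cpt hb hn hq
  have hT : Tq b n (ta b n q).1 (ta b n q).2 := by
    unfold ta Tq
    simp only
    cases hs : q.1 <;> rw [hs] at hc
    · exact Or.inr (Or.inr (Or.inl hc))
    · simp only [if_true]
      rw [sub_add_cancel]
      exact Or.inr (Or.inr (Or.inr hc))
  refine ⟨hnq, hT, ?_, ?_⟩
  · rintro (⟨v, hv, e1, e2⟩ | ⟨s, hs, e1, e2⟩)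
    · apply hnq
      rw [e1]
      exact J.vInQ hv e2 (by unfold ta; simp only; omega)
    · apply hnq
      rw [e1]
      have := J.hs s hs
      exact J.sInQ hs (by unfold ta; simp only; omega) (by unfold ta; simp only; omega)
  · unfold lcolG ta
    simp only
    rw [if_neg (by omega)]
    unfold lcol
    rw [if_neg (by omega)]
    obtain ⟨s, i⟩ := q
    simp only at hq
    have hm : min b.K i = i := min_eq_right hq.le
    have hi : (0 : ℤ) < ((b.H : ℤ) + i + 1) * n := by positivity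
    have hi1 : (1 : ℤ) ≤ n := hn
    unfold cc
    cases s
    · rw [dgt_false]
      simp only [Bool.false_eq_true, if_false]
      rw [if_neg (by omega)]
      have e1 : (-(-(((b.H : ℤ) + i + 1) * n) - 1 + 1) - 1) / n = b.H + i := by
        rw [divJ hn]
        constructor <;> nlinarith
      rw [e1, show ((b.H : ℤ) + i - b.H).toNat = i by omega, hm]
    · rw [dgt_true]
      simp only [if_true]
      rw [if_pos (by omega)]
      have e1 : ((((b.H : ℤ) + i + 1) * n) - 1) / n = b.H + i := by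
        rw [divJ hn]
        constructor <;> nlinarith
      rw [e1, show ((b.H : ℤ) + i - b.H).toNat = i by omega, hm]

/-- the point at the corner `q` -/
def pq (b : JBox) (n : ℤ) (q : Bool × ℕ) : ℤ × ℤ :=
  ((cpt b n q).1 - (cpt b n q).2, (cpt b n q).1 + (cpt b n q).2)

omit W in
lemma pq_eq (q : Bool × ℕ) : pq b n q = ((((dgt b n q).1 + 1) -
    (if q.1 then (dgt b n q).2 else (dgt b n q).2 + 1) : ℤ), (((dgt b n q).1 + 1) +
    (if q.1 then (dgt b n q).2 else (dgt b n q).2 + 1) : ℤ)) := by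
  unfold pq dgt
  cases q.1 <;> simp only [Bool.false_eq_true, if_false, if_true]
  · exact Prod.ext (by simp only; ring) (by simp only; ring)
  · exact Prod.ext (by simp only; ring) (by simp only; ring)

/-- **the first corner is alive** if and only if the tile beyond the mark has the right colour -/
theorem JW.f1_AS {q : Bool × ℕ} (hq : q ∈ M) :
    AS (QS b n) Λ (lt '' (DD vo so)) w (FF b n M vo so) (f1 b n q) ↔
      (cc (colM base M (vo.map Prod.snd)) q (q.2 + 1) = true ↔
        ((cpt b n q).1 - (cpt b n q).2) % 2 = 1) := by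
  have hk := W.J.idx q hq
  obtain ⟨t1, t2, t3, t4⟩ := tb_facts (base := base) W.J hk
  have hn := W.J.n0
  have hot : ot (f1 b n q) (lt (dgt b n q)) = lt (tb b n q) := by
    unfold f1; rw [ot_eE]; exact rt_lt _ _
  have hQ0 : lt (dgt b n q) ∉ QS b n := fun h => W.L.nd q hq (W.L.sub h)
  have hnear := near_cpt W.J.bg hn hk
  have hnot := dgt_not_near (b := b) W.J.bg hn hk
  rw [AS_dead (e := lt (dgt b n q)) (P0 := pq b n q) (fun e => odQ) (lt_odd _) (sq_eE _) hQ0
    (W.L.nd q hq) (Or.inl ⟨q, hq, Or.inl rfl⟩) (c := f1 b n q)]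
  · rw [hot]
    have := W.hw _ _ t1 t2 t3
    rw [t4] at this
    exact (iff_congr this Iff.rfl)
  · rw [hot]
    exact fun h => t1 (mem_QS.1 h)
  · rw [hot]
    refine W.L.ly _ _ t1 t2 ?_
    intro c hc he
    have h1 := dgt_not_near (b := b) W.J.bg hn (W.J.idx c hc)
    rw [← he] at h1
    simp only at h1
    cases hs : q.1 <;> rw [hs] at hnear
    · exact h1.2.1 hnear
    · exact h1.1 hnear
  · rw [hot]
    rintro ⟨p, hp, he⟩
    rw [lt_inj he] at hp
    exact t3 hp
  · rw [pq_eq]; unfold ev; simp only; omega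
  · rw [pq_eq]
    unfold f1 sq eE lt
    cases hs : q.1 <;> simp only [Bool.false_eq_true, if_false, if_true]
    · constructor
      · right; ring
      · left; ring
    · constructor
      · left; ring
      · right; ring
  · rw [pq_eq, PB_near (fun e => odQ)]
    exact hnear
  · intro P g1 g2 g3
    have h5 := sides_at (e := lt (dgt b n q)) (lt_odd _) g1 (sq_eE _) g2
    have h6 : P = ((((dgt b n q).1 + 1) - (dgt b n q).2 : ℤ), (((dgt b n q).1 + 1) + (dgt b n q).2 : ℤ)) ∨
        P = ((((dgt b n q).1 + 1) - ((dgt b n q).2 + 1) : ℤ),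
          (((dgt b n q).1 + 1) + ((dgt b n q).2 + 1) : ℤ)) := by
      unfold eE eW eS eN lt at h5
      simp only [Prod.mk.injEq] at h5
      obtain ⟨p1, p2⟩ := P
      simp only [Prod.mk.injEq] at h5 ⊢
      omega
    rw [pq_eq]
    rcases h6 with rfl | rfl <;> rw [PB_near (fun e => odQ)] at g3 <;> cases hs : q.1 <;>
      simp only [Bool.false_eq_true, if_false, if_true]
    · exact absurd g3 (hnot.2.2.2 hs)
    · exact absurd g3 (hnot.2.2.1 hs)

/-- **the second corner is alive** if and only if the tile before the mark has the right colour -/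
theorem JW.f2_AS {q : Bool × ℕ} (hq : q ∈ M) :
    AS (QS b n) Λ (lt '' (DD vo so)) w (FF b n M vo so) (f2 b n q) ↔
      (cc (colM base M (vo.map Prod.snd)) q q.2 = true ↔
        ((cpt b n q).1 - (cpt b n q).2) % 2 = 1) := by
  have hk := W.J.idx q hq
  obtain ⟨t1, t2, t3, t4⟩ := ta_facts (base := base) W.J hk
  have hn := W.J.n0
  have hot : ot (f2 b n q) (lt (dgt b n q)) = lt (ta b n q) := by
    unfold f2 ta
    split_ifs with hs
    · rw [ot_eS]; exact dn_lt _ _
    · rw [ot_eN]; exact up_lt _ _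
  have hsq : sq (f2 b n q) (lt (dgt b n q)) := by
    unfold f2
    split_ifs
    · exact sq_eS _
    · exact sq_eN _
  have hQ0 : lt (dgt b n q) ∉ QS b n := fun h => W.L.nd q hq (W.L.sub h)
  have hnear := near_cpt W.J.bg hn hk
  have hnot := dgt_not_near (b := b) W.J.bg hn hk
  rw [AS_dead (e := lt (dgt b n q)) (P0 := pq b n q) (fun e => odQ) (lt_odd _) hsq hQ0
    (W.L.nd q hq) (Or.inl ⟨q, hq, Or.inr rfl⟩) (c := f2 b n q)]
  · rw [hot]
    have := W.hw _ _ t1 t2 t3
    rw [t4] at this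
    exact (iff_congr this Iff.rfl)
  · rw [hot]
    exact fun h => t1 (mem_QS.1 h)
  · rw [hot]
    refine W.L.ly _ _ t1 t2 ?_
    intro c hc he
    have h1 := dgt_not_near (b := b) W.J.bg hn (W.J.idx c hc)
    rw [← he] at h1
    have g := dgt_rows (b := b) W.J.bg hn (W.J.idx c hc)
    rw [← he] at g
    have g' := dgt_rows (b := b) W.J.bg hn hk
    simp only at h1 g
    cases hs : q.1 <;> rw [hs] at hnear h1 g <;> simp only [Bool.false_eq_true, if_false, if_true] at hnear h1 g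
    · have := (g'.2.2.1 hs).1
      omega
    · have := (g'.2.1 hs).1
      omega
  · rw [hot]
    rintro ⟨p, hp, he⟩
    rw [lt_inj he] at hp
    exact t3 hp
  · rw [pq_eq]; unfold ev; simp only; omega
  · rw [pq_eq]
    unfold f2 sq eS eN lt
    cases hs : q.1 <;> simp only [Bool.false_eq_true, if_false, if_true]
    · constructor
      · left; ring
      · left; ring
    · constructor
      · left; ring
      · left; ring
  · rw [pq_eq, PB_near (fun e => odQ)]
    exact hnear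
  · intro P g1 g2 g3
    have h5 := sides_at (e := lt (dgt b n q)) (lt_odd _) g1 hsq g2
    cases hs : q.1
    · have h6 : P = (((dgt b n q).1 - ((dgt b n q).2 + 1) : ℤ), ((dgt b n q).1 + ((dgt b n q).2 + 1) : ℤ)) ∨
          P = ((((dgt b n q).1 + 1) - ((dgt b n q).2 + 1) : ℤ),
            (((dgt b n q).1 + 1) + ((dgt b n q).2 + 1) : ℤ)) := by
        unfold f2 at h5
        rw [hs] at h5
        simp only [Bool.false_eq_true, if_false] at h5
        unfold eE eW eS eN lt at h5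
        simp only [Prod.mk.injEq] at h5
        obtain ⟨p1, p2⟩ := P
        simp only [Prod.mk.injEq] at h5 ⊢
        omega
      rw [pq_eq, hs]
      simp only [Bool.false_eq_true, if_false]
      rcases h6 with rfl | rfl
      · rw [PB_near (fun e => odQ)] at g3
        exact absurd g3 hnot.2.1
      · rfl
    · have h6 : P = (((dgt b n q).1 - (dgt b n q).2 : ℤ), ((dgt b n q).1 + (dgt b n q).2 : ℤ)) ∨
          P = ((((dgt b n q).1 + 1) - (dgt b n q).2 : ℤ),
            (((dgt b n q).1 + 1) + (dgt b n q).2 : ℤ)) := by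
        unfold f2 at h5
        rw [hs] at h5
        simp only [if_true] at h5
        unfold eE eW eS eN lt at h5
        simp only [Prod.mk.injEq] at h5
        obtain ⟨p1, p2⟩ := P
        simp only [Prod.mk.injEq] at h5 ⊢
        omega
      rw [pq_eq, hs]
      simp only [if_true]
      rcases h6 with rfl | rfl
      · rw [PB_near (fun e => odQ)] at g3
        exact absurd g3 hnot.1
      · rfl

end W

end Pool.Agent.H45.W
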