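import Mathlib
import Pool.Agent.H45.W.EndsJ6

set_option autoImplicit false
open Finset

/-! # Where the strands of the junction worlds end (C6, J2): existence and uniqueness of the far end

`al b n cl q` = alive corner of the mark `q`. -/

namespace Pool.Agent.H45.W

open Pool.Agent.H33.Q1 Pool.Agent.H6.W Pool.Agent.H50.W Pool.Agent.H58.W Pool.Agent.H13.W
open Pool.Agent.H61.W Pool.Agent.H99.W
open Pool.Agent.Q1.M4 (Cell)

/-- the first corner is the alive one -/
def isF1 (b : JBox) (n : ℤ) (cl : Cl) (q : Bool × ℕ) : Prop :=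
  cc cl q (q.2 + 1) = true ↔ ((cpt b n q).1 - (cpt b n q).2) % 2 = 1

open Classical in
/-- the alive corner of the mark `q` -/
noncomputable def al (b : JBox) (n : ℤ) (cl : Cl) (q : Bool × ℕ) : ℤ × ℤ :=
  if isF1 b n cl q then f1 b n q else f2 b n q

open Classical in
/-- the dead corner of the mark `q` -/
noncomputable def dea (b : JBox) (n : ℤ) (cl : Cl) (q : Bool × ℕ) : ℤ × ℤ :=
  if isF1 b n cl q then f2 b n q else f1 b n q

variable {b : JBox} {n : ℤ} {M : Finset (Bool × ℕ)} {vo so : Option (ℤ × ℤ)} {base : Bool}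
variable {Λ : Set (ℤ × ℤ)} {w : Finset (ℤ × ℤ)} {c : ℤ × ℤ} {q q' : Bool × ℕ}

/-- `n` even: the first corner is alive if and only if the colour beyond the corner is `false` -/
lemma isF1_even {cl : Cl} (hn : n % 2 = 0) : isF1 b n cl q ↔ cc cl q (q.2 + 1) = false := by
  have h1 : ((cpt b n q).1 - (cpt b n q).2) % 2 = 0 := by
    obtain ⟨m, rfl⟩ : ∃ m, n = 2 * m := ⟨n / 2, by omega⟩
    unfold cpt
    have e1 : ∀ z : ℤ, z * (2 * m) = 2 * (z * m) := fun z => by ring
    simp only [e1]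
    generalize b.st q.2 * m = A
    split_ifs
    · generalize ((b.H : ℤ) + q.2 + 1) * m = B
      omega
    · generalize ((b.H : ℤ) + q.2 + 1) * m = B
      omega
  unfold isF1
  rw [h1]
  cases cc cl q (q.2 + 1) <;> simp

lemma cc_flip (hq : q ∈ M) {ex : Option ℤ} :
    cc (colM base M ex) q (q.2 + 1) = !cc (colM base M ex) q q.2 := by
  obtain ⟨s, i⟩ := q
  unfold cc
  cases s
  · simp only [Bool.false_eq_true, if_false]
    exact colM_l' hq
  · simp only [if_true]
    exact colM_u' hq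

section W
variable (W : JW b n M vo so base Λ w)
include W

lemma JW.al_AS (hq : q ∈ M) :
    AS (QS b n) Λ (lt '' (DD vo so)) w (FF b n M vo so)
      (al b n (colM base M (vo.map Prod.snd)) q) := by
  unfold al
  split_ifs with h
  · exact (W.f1_AS hq).2 h
  · rw [W.f2_AS hq]
    unfold isF1 at h
    rw [cc_flip hq] at h
    generalize cc (colM base M (vo.map Prod.snd)) q q.2 = A at *
    cases A <;> simp at * <;> omega

lemma JW.dea_not (hq : q ∈ M) :
    ¬ AS (QS b n) Λ (lt '' (DD vo so)) w (FF b n M vo so)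
      (dea b n (colM base M (vo.map Prod.snd)) q) := by
  unfold dea
  split_ifs with h
  · rw [W.f2_AS hq]
    unfold isF1 at h
    rw [cc_flip hq] at h
    generalize cc (colM base M (vo.map Prod.snd)) q q.2 = A at *
    cases A <;> simp at * <;> omega
  · rw [W.f1_AS hq]
    exact h

omit W in
lemma al_or (cl : Cl) (q : Bool × ℕ) : (f1 b n q = al b n cl q ∧ f2 b n q = dea b n cl q) ∨
    (f2 b n q = al b n cl q ∧ f1 b n q = dea b n cl q) := by
  unfold al dea
  split_ifs
  · exact Or.inl ⟨rfl, rfl⟩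
  · exact Or.inr ⟨rfl, rfl⟩

lemma JW.al_isEnd (hq : q ∈ M) : IsEnd (SG Λ (lt '' (DD vo so)) w)
    (al b n (colM base M (vo.map Prod.snd)) q) := by
  unfold al
  split_ifs
  · exact W.f1_isEnd hq
  · exact W.f2_isEnd hq

/-- **`RF` is reachability of the alive corner** -/
theorem JW.RF_iff (hc : AS (QS b n) Λ (lt '' (DD vo so)) w (FF b n M vo so) c) (hq : q ∈ M) :
    RF b n (SG Λ (lt '' (DD vo so)) w) c q ↔
      (SG Λ (lt '' (DD vo so)) w).Reachable c (al b n (colM base M (vo.map Prod.snd)) q) := by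
  unfold RF
  have h1 := W.dea_not hq
  rcases al_or (b := b) (n := n) (colM base M (vo.map Prod.snd)) q with ⟨e1, e2⟩ | ⟨e1, e2⟩
  · rw [e1, e2]
    exact ⟨fun h => h.resolve_right fun g => h1 (W.wld.reach_mem hc g), Or.inl⟩
  · rw [e1, e2]
    exact ⟨fun h => h.resolve_left fun g => h1 (W.wld.reach_mem hc g), Or.inr⟩

/-- the alive corner is not isolated -/
lemma JW.al_adj (hq : q ∈ M) : ∃ x, (SG Λ (lt '' (DD vo so)) w).Adj
    (al b n (colM base M (vo.map Prod.snd)) q) x := by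
  have hk := W.J.idx q hq
  have hn := W.J.n0
  have hnear := near_cpt W.J.bg hn hk
  unfold al
  split_ifs
  · obtain ⟨t1, t2, t3, -⟩ := tb_facts (base := base) W.J hk
    refine adj_of (e := lt (tb b n q)) (lt_odd _) ?_ ?_ ?_
    · have : f1 b n q = eW (lt (tb b n q)) := by unfold f1 tb; exact eE_lt _ _
      rw [this]; exact sq_eW _
    · refine W.L.ly _ _ t1 t2 ?_
      intro c hc he
      have h1 := dgt_not_near (b := b) W.J.bg hn (W.J.idx c hc)
      rw [← he] at h1
      simp only at h1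
      cases hs : q.1 <;> rw [hs] at hnear
      · exact h1.2.1 hnear
      · exact h1.1 hnear
    · rintro ⟨p, hp, he⟩
      rw [lt_inj he] at hp
      exact t3 hp
  · obtain ⟨t1, t2, t3, -⟩ := ta_facts (base := base) W.J hk
    refine adj_of (e := lt (ta b n q)) (lt_odd _) ?_ ?_ ?_
    · unfold f2 ta
      split_ifs
      · have : eS (lt (dgt b n q)) = eN (lt ((dgt b n q).1, (dgt b n q).2 - 1)) := by
          rw [eN_lt, sub_add_cancel]
        rw [this]; exact sq_eN _
      · have : eN (lt (dgt b n q)) = eS (lt ((dgt b n q).1, (dgt b n q).2 + 1)) := eN_lt _ _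
        rw [this]; exact sq_eS _
    · refine W.L.ly _ _ t1 t2 ?_
      intro c hc he
      have g := dgt_rows (b := b) W.J.bg hn (W.J.idx c hc)
      rw [← he] at g
      have g' := dgt_rows (b := b) W.J.bg hn hk
      simp only at g
      cases hs : q.1 <;> rw [hs] at g <;> simp only [Bool.false_eq_true, if_false, if_true] at g
      · have := (g'.2.2.1 hs).1
        omega
      · have := (g'.2.1 hs).1
        omega
    · rintro ⟨p, hp, he⟩
      rw [lt_inj he] at hp
      exact t3 hp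

/-! ### the ends are different -/

omit W in
lemma f1_sum (q : Bool × ℕ) : ((f1 b n q).1 + (f1 b n q).2) % 2 = 1 := by
  unfold f1 eE lt; simp only; omega

omit W in
lemma f2_sum (q : Bool × ℕ) : ((f2 b n q).1 + (f2 b n q).2) % 2 = 0 := by
  unfold f2
  split_ifs
  · unfold eS lt; simp only; omega
  · unfold eN lt; simp only; omega

omit W in
lemma dgt_inj (hn : 0 < n) (h : (dgt b n q).2 = (dgt b n q').2) : q = q' := by
  obtain ⟨s, i⟩ := q
  obtain ⟨s', i'⟩ := q'
  have e : ∀ i : ℕ, (0 : ℤ) < ((b.H : ℤ) + i + 1) * n := fun i => by positivity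
  have e1 := e i
  have e2 := e i'
  have key : (((b.H : ℤ) + i + 1) * n = ((b.H : ℤ) + i' + 1) * n) → i = i' := by
    intro h
    have := mul_right_cancel₀ hn.ne' h
    omega
  cases s <;> cases s' <;> simp only [dgt_true, dgt_false] at h
  · rw [key (by omega)]
  · omega
  · omega
  · rw [key h]

omit W in
lemma f1_inj (hn : 0 < n) (h : f1 b n q = f1 b n q') : q = q' := by
  apply dgt_inj (b := b) hn
  unfold f1 eE lt at h
  simp only [Prod.mk.injEq] at h
  omega

omit W in
lemma f2_inj (hn : 0 < n) (h : f2 b n q = f2 b n q') : q = q' := by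
  obtain ⟨s, i⟩ := q
  obtain ⟨s', i'⟩ := q'
  have e : ∀ i : ℕ, (0 : ℤ) < ((b.H : ℤ) + i + 1) * n := fun i => by positivity
  have e1 := e i
  have e2 := e i'
  unfold f2 at h
  cases s <;> cases s' <;> simp only [Bool.false_eq_true, if_false, if_true] at h
  · apply dgt_inj (b := b) hn
    unfold eN lt at h
    simp only [Prod.mk.injEq] at h
    omega
  · exfalso
    rw [dgt_true, dgt_false] at h
    unfold eN eS lt at h
    simp only [Prod.mk.injEq] at h
    omega
  · exfalso
    rw [dgt_true, dgt_false] at h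
    unfold eN eS lt at h
    simp only [Prod.mk.injEq] at h
    omega
  · apply dgt_inj (b := b) hn
    unfold eS lt at h
    simp only [Prod.mk.injEq] at h
    omega

omit W in
lemma al_inj (hn : 0 < n) {cl : Cl} (h : al b n cl q = al b n cl q') : q = q' := by
  unfold al at h
  split_ifs at h
  · exact f1_inj hn h
  · have h1 := f1_sum (b := b) (n := n) q
    have h2 := f2_sum (b := b) (n := n) q'
    rw [h] at h1; omega
  · have h1 := f2_sum (b := b) (n := n) q
    have h2 := f1_sum (b := b) (n := n) q'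
    rw [h] at h1; omega
  · exact f2_inj hn h

omit W in
/-- a corner of a mark is not the west side of a tile of the box -/
lemma f_ne_eW (J : JOk b n M vo so) {t : ℤ × ℤ} (ht : InQ b n t.1 t.2) (hq : q ∈ M) :
    f1 b n q ≠ eW (lt t) ∧ f2 b n q ≠ eW (lt t) := by
  constructor
  · intro h
    obtain ⟨t1, -⟩ := tb_facts (base := false) J (J.idx q hq)
    have h2 : f1 b n q = eW (lt (tb b n q)) := by unfold f1 tb; exact eE_lt _ _
    rw [h2] at h
    have h3 : lt (tb b n q) = lt t := h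
    rw [lt_inj h3] at t1
    exact t1 ht
  · intro h
    have h1 := f2_sum (b := b) (n := n) q
    rw [h] at h1
    unfold eW lt at h1
    simp only at h1
    omega

omit W in
lemma al_ne_eW (J : JOk b n M vo so) {t : ℤ × ℤ} (ht : InQ b n t.1 t.2) (hq : q ∈ M) (cl : Cl) :
    al b n cl q ≠ eW (lt t) := by
  unfold al
  split_ifs
  · exact (f_ne_eW J ht hq).1
  · exact (f_ne_eW J ht hq).2

omit W in
lemma zc_ne_mc (J : JOk b n M vo so) {v s : ℤ × ℤ} (hv : v ∈ vo) (hs : s ∈ so) :
    zc v ≠ eW (lt s) := by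
  intro h
  have h1 : lt v = lt s := h
  have h2 := lt_inj h1
  have h3 := J.vs v hv s hs (by rw [h2])
  rw [h2] at h3
  exact lt_irrefl _ h3

/-! ### existence -/

/-- **Existence of the far end.** -/
theorem JW.far (hc : AS (QS b n) Λ (lt '' (DD vo so)) w (FF b n M vo so) c)
    (hE : IsEnd (SG Λ (lt '' (DD vo so)) w) c) (hn : ∃ x, (SG Λ (lt '' (DD vo so)) w).Adj c x) :
    (∃ q ∈ M, al b n (colM base M (vo.map Prod.snd)) q ≠ c ∧
      (SG Λ (lt '' (DD vo so)) w).Reachable c (al b n (colM base M (vo.map Prod.snd)) q)) ∨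
    (∃ v ∈ vo, zc v ≠ c ∧ (SG Λ (lt '' (DD vo so)) w).Reachable c (zc v)) ∨
    (∃ s ∈ so, eW (lt s) ≠ c ∧ (SG Λ (lt '' (DD vo so)) w).Reachable c (eW (lt s))) := by
  obtain ⟨y, h1, h2, h3, h4, h5⟩ := W.wld.far_exists hc hE hn
  rcases h1 with ⟨q, hq, h⟩ | ⟨v, hv, rfl⟩ | ⟨s, hs, rfl⟩
  · left
    refine ⟨q, hq, ?_⟩
    have h6 : y = al b n (colM base M (vo.map Prod.snd)) q ∨
        y = dea b n (colM base M (vo.map Prod.snd)) q := by
      rcases al_or (b := b) (n := n) (colM base M (vo.map Prod.snd)) q with ⟨e1, e2⟩ | ⟨e1, e2⟩ <;>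
        rcases h with h | h <;> rw [h]
      · exact Or.inl e1
      · exact Or.inr e2
      · exact Or.inr e2
      · exact Or.inl e1
    rcases h6 with h6 | h6
    · rw [← h6]; exact ⟨h2, h5⟩
    · exact absurd (h6 ▸ h4) (W.dea_not hq)
  · exact Or.inr (Or.inl ⟨v, hv, h2, h5⟩)
  · exact Or.inr (Or.inr ⟨s, hs, h2, h5⟩)

end W

/-! ### the three kinds of worlds -/

section X
variable {v s : ℤ × ℤ}

/-- **`X` worlds**: the strand of the moving end ends at exactly one mark -/
theorem exX (W : JW b n M (some v) none base Λ w) :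
    ∃! q, q ∈ M ∧ RF b n (SG Λ (lt '' (DD (some v) none)) w) (zc v) q := by
  have hA := W.zc_AS (v := v) rfl
  have hE : IsEnd (SG Λ (lt '' (DD (some v) none)) w) (zc v) := zc_isEnd rfl
  rcases W.far hA hE (W.zc_adj rfl) with ⟨q, hq, h1, h2⟩ | ⟨v', hv', h1, -⟩ | ⟨s, hs, -⟩
  · refine ⟨q, ⟨hq, (W.RF_iff hA hq).2 h2⟩, ?_⟩
    rintro q' ⟨hq', h3⟩
    rw [W.RF_iff hA hq'] at h3
    have h4 : al b n (colM base M (Option.map Prod.snd (some v))) q' ≠ zc v :=
      al_ne_eW W.J (W.J.hv v rfl) hq' _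
    exact (al_inj W.J.n0 (far_unique hE (W.al_isEnd hq) (W.al_isEnd hq') h1 h4 h2 h3))
  · rw [Option.mem_def, Option.some.injEq] at hv'
    exact absurd (by rw [hv']) h1
  · exact absurd hs (by simp)

/-- **`G` worlds** (no moving end): the strand of the mark on `P` ends at exactly one mark -/
theorem exP (W : JW b n M none (some s) base Λ w) :
    ∃! q, q ∈ M ∧ RF b n (SG Λ (lt '' (DD none (some s))) w) (eW (lt s)) q := by
  have hA := W.mc_AS (s := s) rfl
  have hE : IsEnd (SG Λ (lt '' (DD none (some s))) w) (eW (lt s)) := mc_isEnd rfl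
  rcases W.far hA hE (W.mc_adj rfl) with ⟨q, hq, h1, h2⟩ | ⟨v', hv', -⟩ | ⟨s', hs, h1, -⟩
  · refine ⟨q, ⟨hq, (W.RF_iff hA hq).2 h2⟩, ?_⟩
    rintro q' ⟨hq', h3⟩
    rw [W.RF_iff hA hq'] at h3
    have h4 : al b n (colM base M (Option.map Prod.snd (none : Option (ℤ × ℤ)))) q' ≠ eW (lt s) :=
      al_ne_eW W.J (W.sInQ rfl) hq' _
    exact (al_inj W.J.n0 (far_unique hE (W.al_isEnd hq) (W.al_isEnd hq') h1 h4 h2 h3))
  · exact absurd hv' (by simp)
  · rw [Option.mem_def, Option.some.injEq] at hs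
    exact absurd (by rw [hs]) h1

/-- **`Y` worlds**: the strand of the moving end ends at a mark or at the mark on `P` -/
theorem exY (W : JW b n M (some v) (some s) base Λ w) :
    (∃ q ∈ M, RF b n (SG Λ (lt '' (DD (some v) (some s))) w) (zc v) q) ∨
      (SG Λ (lt '' (DD (some v) (some s))) w).Reachable (zc v) (eW (lt s)) := by
  have hA := W.zc_AS (v := v) rfl
  rcases W.far hA (zc_isEnd rfl) (W.zc_adj rfl) with ⟨q, hq, h1, h2⟩ | ⟨v', hv', h1, -⟩ | ⟨s', hs, h1, h2⟩
  · exact Or.inl ⟨q, hq, (W.RF_iff hA hq).2 h2⟩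
  · rw [Option.mem_def, Option.some.injEq] at hv'
    exact absurd (by rw [hv']) h1
  · rw [Option.mem_def, Option.some.injEq] at hs
    subst hs
    exact Or.inr h2

/-- the strand of the mark on `P` ends at a mark or at the moving end -/
theorem exY' (W : JW b n M (some v) (some s) base Λ w) :
    (∃ q ∈ M, RF b n (SG Λ (lt '' (DD (some v) (some s))) w) (eW (lt s)) q) ∨
      (SG Λ (lt '' (DD (some v) (some s))) w).Reachable (eW (lt s)) (zc v) := by
  have hA := W.mc_AS (s := s) rfl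
  rcases W.far hA (mc_isEnd rfl) (W.mc_adj rfl) with ⟨q, hq, h1, h2⟩ | ⟨v', hv', h1, h2⟩ | ⟨s', hs, h1, -⟩
  · exact Or.inl ⟨q, hq, (W.RF_iff hA hq).2 h2⟩
  · rw [Option.mem_def, Option.some.injEq] at hv'
    subst hv'
    exact Or.inr h2
  · rw [Option.mem_def, Option.some.injEq] at hs
    exact absurd (by rw [hs]) h1

end X

/-- **uniqueness of the mark**, from any end `c` which is not a corner of these marks -/
theorem JW.uniq (W : JW b n M vo so base Λ w)
    (hc : AS (QS b n) Λ (lt '' (DD vo so)) w (FF b n M vo so) c)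
    (hE : IsEnd (SG Λ (lt '' (DD vo so)) w) c) (hq : q ∈ M) (hq' : q' ∈ M)
    (n1 : al b n (colM base M (vo.map Prod.snd)) q ≠ c)
    (n2 : al b n (colM base M (vo.map Prod.snd)) q' ≠ c)
    (h1 : RF b n (SG Λ (lt '' (DD vo so)) w) c q) (h2 : RF b n (SG Λ (lt '' (DD vo so)) w) c q') :
    q = q' := by
  rw [W.RF_iff hc hq] at h1
  rw [W.RF_iff hc hq'] at h2
  exact (al_inj W.J.n0 (far_unique hE (W.al_isEnd hq) (W.al_isEnd hq') n1 n2 h1 h2)).symm

/-- the moving end is not joined both to a mark and to the mark on `P` -/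
theorem JW.zc_not_both (W : JW b n M vo so base Λ w) {v s : ℤ × ℤ} (hv : v ∈ vo) (hs : s ∈ so)
    (hq : q ∈ M) (h1 : RF b n (SG Λ (lt '' (DD vo so)) w) (zc v) q) :
    ¬ (SG Λ (lt '' (DD vo so)) w).Reachable (zc v) (eW (lt s)) := by
  intro h2
  have hA := W.zc_AS hv
  rw [W.RF_iff hA hq] at h1
  have h3 := far_unique (zc_isEnd hv) (W.al_isEnd hq) (mc_isEnd hs)
    (al_ne_eW W.J (W.J.hv v hv) hq _) (zc_ne_mc W.J hv hs).symm h1 h2
  exact al_ne_eW W.J (W.sInQ hs) hq _ h3.symm

/-- the mark on `P` is not joined both to a mark and to the moving end -/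
theorem JW.mc_not_both (W : JW b n M vo so base Λ w) {v s : ℤ × ℤ} (hv : v ∈ vo) (hs : s ∈ so)
    (hq : q ∈ M) (h1 : RF b n (SG Λ (lt '' (DD vo so)) w) (eW (lt s)) q) :
    ¬ (SG Λ (lt '' (DD vo so)) w).Reachable (eW (lt s)) (zc v) := by
  intro h2
  have hA := W.mc_AS hs
  rw [W.RF_iff hA hq] at h1
  have h3 := far_unique (mc_isEnd hs) (W.al_isEnd hq) (zc_isEnd hv)
    (al_ne_eW W.J (W.sInQ hs) hq _) (zc_ne_mc W.J hv hs) h1 h2
  exact al_ne_eW W.J (W.J.hv v hv) hq _ h3.symm

/-- the moving end is joined to at most one mark -/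
theorem JW.zc_uniq (W : JW b n M vo so base Λ w) {v : ℤ × ℤ} (hv : v ∈ vo) (hq : q ∈ M) (hq' : q' ∈ M)
    (h1 : RF b n (SG Λ (lt '' (DD vo so)) w) (zc v) q)
    (h2 : RF b n (SG Λ (lt '' (DD vo so)) w) (zc v) q') : q = q' :=
  W.uniq (W.zc_AS hv) (zc_isEnd hv) hq hq' (al_ne_eW W.J (W.J.hv v hv) hq _)
    (al_ne_eW W.J (W.J.hv v hv) hq' _) h1 h2

/-- the mark on `P` is joined to at most one mark -/
theorem JW.mc_uniq (W : JW b n M vo so base Λ w) {s : ℤ × ℤ} (hs : s ∈ so) (hq : q ∈ M) (hq' : q' ∈ M)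
    (h1 : RF b n (SG Λ (lt '' (DD vo so)) w) (eW (lt s)) q)
    (h2 : RF b n (SG Λ (lt '' (DD vo so)) w) (eW (lt s)) q') : q = q' :=
  W.uniq (W.mc_AS hs) (mc_isEnd hs) hq hq' (al_ne_eW W.J (W.sInQ hs) hq _)
    (al_ne_eW W.J (W.sInQ hs) hq' _) h1 h2

end Pool.Agent.H45.W
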