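import Mathlib
import Pool.Agent.H45.W.EndsJ7

set_option autoImplicit false
open Finset

/-! # Where the strands of the junction worlds end (C6, J2): the worlds `GG`, `GX`, `GY`, `GP` -/

namespace Pool.Agent.H45.W

open Pool.Agent.H33.Q1 Pool.Agent.H6.W Pool.Agent.H50.W Pool.Agent.H58.W Pool.Agent.H13.W
open Pool.Agent.H61.W Pool.Agent.H99.W
open Pool.Agent.Q1.M4 (Cell)

variable {b : JBox} {δ σ : ℝ} {h : ℕ} {M : Finset (Bool × ℕ)} {vo so : Option (ℤ × ℤ)} {base : Bool}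
variable {w0 ω : Finset (ℤ × ℤ)} {v : ℤ × ℤ} {s : Bool} {x1 : ℤ}

/-! ### labels of the box -/

lemma ltB (hh : 0 < h) {x y : ℤ} : lt (x, y) ∈ b.B h ↔ InQ b (2 * h) x y := by
  unfold JBox.B
  rw [mem_TL (by positivity), and_iff_right (lt_odd _), tt_lt]
  rfl

lemma Pl_subB (hb : b.Ok δ σ) (hδ : δ ≤ 1) (hσ : σ ≤ 1) (hh : 0 < h) : b.Pl h ⊆ b.B h := by
  have hH : (0 : ℝ) < b.H := by exact_mod_cast hb.H0
  have hM : (0 : ℝ) < b.M := by exact_mod_cast hb.M0
  have hXH : (b.H : ℝ) ≤ b.X := by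
    have h1 := hb.X_ge
    have h2 : (0 : ℝ) ≤ b.X := by positivity
    nlinarith
  have hmM : (b.m : ℝ) * b.M ≤ b.H := by rw [hb.len]; nlinarith
  have hmX : (b.m : ℝ) ≤ b.X / b.M := by rw [le_div_iff₀ hM]; linarith
  have hτm : (b.τ : ℝ) + b.m ≤ b.H := by
    have h1 := hb.τ_le
    have h2 := hb.M_le
    have h3 : (0 : ℝ) ≤ b.M := hM.le
    nlinarith
  intro e he
  unfold JBox.Pl at he
  unfold JBox.B
  rw [mem_TL (by positivity)] at he ⊢
  refine ⟨he.1, ?_⟩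
  have h1 := he.2
  obtain ⟨p, q, hpq⟩ : ∃ p q, ct (2 * (h : ℤ)) (tt e) = (p, q) := ⟨_, _, rfl⟩
  rw [hpq] at h1 ⊢
  unfold JBox.Pc at h1
  rw [Finset.mem_biUnion] at h1
  obtain ⟨i, hi, h2⟩ := h1
  rw [Finset.mem_range] at hi
  rw [mem_RC] at h2
  have hmM' : b.m * b.M ≤ b.X := by
    have : (b.m : ℝ) * b.M ≤ b.X := by linarith
    exact_mod_cast this
  have hτm' : b.τ + b.m ≤ b.H := by exact_mod_cast hτm
  have h3 : (i + 1) * b.M ≤ b.X := (Nat.mul_le_mul_right _ hi).trans hmM'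
  have h4 : ((i : ℤ) + 1) * b.M ≤ b.X := by exact_mod_cast h3
  have h5 : (0 : ℤ) ≤ (i : ℤ) * b.M := by positivity
  have hX : 0 < b.X := by
    have : (0 : ℝ) < b.X := by linarith
    exact_mod_cast this
  unfold JBox.Q
  rw [Finset.mem_union, mem_RC]
  left
  omega

lemma cfg_subB (hb : b.Ok δ σ) (hδ : δ ≤ 1) (hσ : σ ≤ 1) (hh : 0 < h) {o : Bool} (hω : ω ⊆ b.B h) :
    cfg b h o ω ⊆ b.B h := by
  unfold cfg
  split_ifs
  · exact Finset.union_subset hω (Pl_subB hb hδ hσ hh)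
  · exact Finset.sdiff_subset.trans hω

lemma flp_subB : flp b h s x1 ⊆ b.B h := by
  classical
  intro e he
  unfold flp at he
  rw [Finset.mem_filter] at he
  exact he.1

lemma symm_subB {w1 : Finset (ℤ × ℤ)} (h0 : w0 ⊆ b.B h) (h1 : w1 ⊆ b.B h) :
    symmDiff w0 w1 ⊆ b.B h := by
  intro e he
  rw [Finset.mem_symmDiff] at he
  rcases he with ⟨g, -⟩ | ⟨g, -⟩
  · exact h0 g
  · exact h1 g

/-! ### deleted tiles -/

lemma DD_X : DD (some v) none = strD v := by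
  ext p
  constructor
  · rintro (⟨v', hv, h⟩ | ⟨s, hs, -⟩)
    · rw [Option.mem_def, Option.some.injEq] at hv
      rwa [hv]
    · exact absurd hs (by simp)
  · intro h
    exact Or.inl ⟨v, rfl, h⟩

lemma lfD_slD : lfD (x1, Yr s) = slD s x1 := rfl

lemma DD_P : DD none (some (x1, Yr s)) = slD s x1 := by
  ext p
  constructor
  · rintro (⟨v', hv, h⟩ | ⟨s', hs, h⟩)
    · exact absurd hv (by simp)
    · rw [Option.mem_def, Option.some.injEq] at hs
      rw [← hs] at h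
      exact h
  · intro h
    exact Or.inr ⟨_, rfl, h⟩

lemma DD_Y : DD (some v) (some (x1, Yr s)) = strD v ∪ slD s x1 := by
  ext p
  constructor
  · rintro (⟨v', hv, h⟩ | ⟨s', hs, h⟩)
    · rw [Option.mem_def, Option.some.injEq] at hv
      exact Or.inl (by rwa [hv])
    · rw [Option.mem_def, Option.some.injEq] at hs
      rw [← hs] at h
      exact Or.inr h
  · rintro (h | h)
    · exact Or.inl ⟨v, rfl, h⟩
    · exact Or.inr ⟨_, rfl, h⟩

/-! ### instances -/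

/-- `JW` for the colours `colM`, any states `w0` in the box, any admissible region `Λ` -/
theorem JW.mk' {n : ℤ} {Λ : Set (ℤ × ℤ)} (J : JOk b n M vo so) (L : LamG b n M Λ)
    (hso : ∀ s ∈ so, s.2 = 0 ∨ s.2 = -1) (h0 : ∀ x y, lt (x, y) ∈ w0 → InQ b n x y) :
    JW b n M vo so base Λ (w0 ∪ Wl b n (colM base M (vo.map Prod.snd))) := by
  refine ⟨J, L, ?_⟩
  intro x y hq hT hD
  rw [Finset.mem_union, lcolG_eq J hso hT hD, mem_Wl]
  have h1 := Tq_bd J.bg J.n0 hT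
  constructor
  · rintro (h | h)
    · exact absurd (h0 x y h) hq
    · exact h.2.2
  · intro h
    right
    exact ⟨by omega, hq, h⟩

section inst
variable (hb : BG b) (hh : 0 < h) (hM : ∀ c ∈ M, c.2 < b.K)
include hb hh hM

lemma JOk_X (hc : par M.card = true) (hv : InQ b (2 * h) v.1 v.2) :
    JOk b (2 * h) M (some v) none := by
  refine ⟨hb, by positivity, hM, ?_, ?_, ?_, ?_⟩
  · intro v' hv'
    rw [Option.mem_def, Option.some.injEq] at hv'
    rwa [← hv']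
  · intro s hs; exact absurd hs (by simp)
  · intro v' _ s hs; exact absurd hs (by simp)
  · rw [hc]; rfl

omit hM in
lemma Yr_bd : -((b.H : ℤ) * (2 * h)) ≤ Yr s ∧ Yr s < (b.H : ℤ) * (2 * h) := by
  have hH := hb.H0
  have h1 : (1 : ℤ) ≤ (b.H : ℤ) * (2 * h) := by
    have : (0 : ℤ) < (b.H : ℤ) * (2 * h) := by positivity
    omega
  unfold Yr
  split_ifs <;> omega

lemma JOk_P (hc : par M.card = true) (h1 : -((b.X : ℤ) * (2 * h)) < x1) (h2 : x1 < b.X * (2 * h)) :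
    JOk b (2 * h) M none (some (x1, Yr s)) := by
  have hY := Yr_bd (s := s) hb hh
  refine ⟨hb, by positivity, hM, ?_, ?_, ?_, ?_⟩
  · intro v' hv'; exact absurd hv' (by simp)
  · intro s' hs
    rw [Option.mem_def, Option.some.injEq] at hs
    rw [← hs]
    exact ⟨⟨h1, h2⟩, hY⟩
  · intro v' hv'; exact absurd hv' (by simp)
  · rw [hc]; rfl

lemma JOk_Y (hc : par M.card = false) (hv : InQ b (2 * h) v.1 v.2)
    (h1 : -((b.X : ℤ) * (2 * h)) < x1) (h2 : x1 < b.X * (2 * h)) (h3 : v.2 = Yr s → x1 < v.1) :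
    JOk b (2 * h) M (some v) (some (x1, Yr s)) := by
  have hY := Yr_bd (s := s) hb hh
  refine ⟨hb, by positivity, hM, ?_, ?_, ?_, ?_⟩
  · intro v' hv'
    rw [Option.mem_def, Option.some.injEq] at hv'
    rwa [← hv']
  · intro s' hs
    rw [Option.mem_def, Option.some.injEq] at hs
    rw [← hs]
    exact ⟨⟨h1, h2⟩, hY⟩
  · intro v' hv' s' hs
    rw [Option.mem_def, Option.some.injEq] at hs hv'
    rw [← hs, ← hv']
    exact h3
  · rw [hc]; rfl

/-- **`X` worlds** (thick region) -/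
theorem JW_X (hc : par M.card = true) (hv : InQ b (2 * h) v.1 v.2) (h0 : w0 ⊆ b.B h) :
    JW b (2 * h) M (some v) none base (Lam b (2 * h) M)
      (w0 ∪ Wl b (2 * h) (colM base M (some v.2))) :=
  JW.mk' (vo := some v) (JOk_X hb hh hM hc hv) (lamG_Lam hb (by positivity) hM)
    (fun s hs => absurd hs (by simp)) fun x y h => (ltB hh).1 (h0 h)

/-- **`X` worlds** (thin region) -/
theorem JW_XT (hc : par M.card = true) (hv : InQ b (2 * h) v.1 v.2) (h0 : w0 ⊆ b.B h) :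
    JW b (2 * h) M (some v) none base (H73.W.LamT b (2 * h) M)
      (w0 ∪ Wl b (2 * h) (colM base M (some v.2))) :=
  JW.mk' (vo := some v) (JOk_X hb hh hM hc hv) (lamG_LamT hb (by positivity) hM)
    (fun s hs => absurd hs (by simp)) fun x y h => (ltB hh).1 (h0 h)

/-- **`Y` worlds** (thick region) -/
theorem JW_Y (hc : par M.card = false) (hv : InQ b (2 * h) v.1 v.2)
    (h1 : -((b.X : ℤ) * (2 * h)) < x1) (h2 : x1 < b.X * (2 * h)) (h3 : v.2 = Yr s → x1 < v.1)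
    (h0 : w0 ⊆ b.B h) :
    JW b (2 * h) M (some v) (some (x1, Yr s)) base (Lam b (2 * h) M)
      (w0 ∪ Wl b (2 * h) (colM base M (some v.2))) :=
  JW.mk' (vo := some v) (JOk_Y hb hh hM hc hv h1 h2 h3) (lamG_Lam hb (by positivity) hM)
    (fun s' hs => by
      rw [Option.mem_def, Option.some.injEq] at hs
      rw [← hs]; show Yr s = 0 ∨ Yr s = -1
      cases s
      · exact Or.inr rfl
      · exact Or.inl rfl) fun x y h => (ltB hh).1 (h0 h)

/-- **`Y` worlds** (thin region) -/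
theorem JW_YT (hc : par M.card = false) (hv : InQ b (2 * h) v.1 v.2)
    (h1 : -((b.X : ℤ) * (2 * h)) < x1) (h2 : x1 < b.X * (2 * h)) (h3 : v.2 = Yr s → x1 < v.1)
    (h0 : w0 ⊆ b.B h) :
    JW b (2 * h) M (some v) (some (x1, Yr s)) base (H73.W.LamT b (2 * h) M)
      (w0 ∪ Wl b (2 * h) (colM base M (some v.2))) :=
  JW.mk' (vo := some v) (JOk_Y hb hh hM hc hv h1 h2 h3) (lamG_LamT hb (by positivity) hM)
    (fun s' hs => by
      rw [Option.mem_def, Option.some.injEq] at hs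
      rw [← hs]; show Yr s = 0 ∨ Yr s = -1
      cases s
      · exact Or.inr rfl
      · exact Or.inl rfl) fun x y h => (ltB hh).1 (h0 h)

/-- **`G` worlds** (thick region) -/
theorem JW_P (hc : par M.card = true) (h1 : -((b.X : ℤ) * (2 * h)) < x1) (h2 : x1 < b.X * (2 * h))
    (h0 : w0 ⊆ b.B h) :
    JW b (2 * h) M none (some (x1, Yr s)) base (Lam b (2 * h) M)
      (w0 ∪ Wl b (2 * h) (colM base M none)) :=
  JW.mk' (vo := none) (JOk_P hb hh hM hc h1 h2) (lamG_Lam hb (by positivity) hM)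
    (fun s' hs => by
      rw [Option.mem_def, Option.some.injEq] at hs
      rw [← hs]; show Yr s = 0 ∨ Yr s = -1
      cases s
      · exact Or.inr rfl
      · exact Or.inl rfl) fun x y h => (ltB hh).1 (h0 h)

/-- **`G` worlds** (thin region) -/
theorem JW_PT (hc : par M.card = true) (h1 : -((b.X : ℤ) * (2 * h)) < x1) (h2 : x1 < b.X * (2 * h))
    (h0 : w0 ⊆ b.B h) :
    JW b (2 * h) M none (some (x1, Yr s)) base (H73.W.LamT b (2 * h) M)
      (w0 ∪ Wl b (2 * h) (colM base M none)) :=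
  JW.mk' (vo := none) (JOk_P hb hh hM hc h1 h2) (lamG_LamT hb (by positivity) hM)
    (fun s' hs => by
      rw [Option.mem_def, Option.some.injEq] at hs
      rw [← hs]; show Yr s = 0 ∨ Yr s = -1
      cases s
      · exact Or.inr rfl
      · exact Or.inl rfl) fun x y h => (ltB hh).1 (h0 h)

/-- **(J2) `X` worlds**: exactly one mark is joined to the moving end. Any states `w0` in the box. -/
theorem GG_ex (hc : par M.card = true) (hv : InQ b (2 * h) v.1 v.2) (h0 : w0 ⊆ b.B h) :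
    ∃! q, q ∈ M ∧ RF b (2 * h) (GG b (2 * h) M (colM base M (some v.2)) (strD v) w0) (zc v) q := by
  have h1 := exX (JW_X (base := base) hb hh hM hc hv h0)
  rw [DD_X] at h1
  exact h1

end inst

/-- three different marks -/
lemma par3 {c2 c3 c4 : Bool × ℕ} (h1 : c2 ≠ c3) (h2 : c2 ≠ c4) (h3 : c3 ≠ c4) :
    par ({c2, c3, c4} : Finset (Bool × ℕ)).card = true := by
  rw [Finset.card_eq_three.2 ⟨c2, c3, c4, h1, h2, h3, rfl⟩]
  rfl

lemma par2 {c3 c4 : Bool × ℕ} (h3 : c3 ≠ c4) : par ({c3, c4} : Finset (Bool × ℕ)).card = false := by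
  rw [Finset.card_eq_two.2 ⟨c3, c4, h3, rfl⟩]
  rfl

section concrete
variable {w o : Bool} {c2 c3 c4 : Bool × ℕ}

/-- **(J2), `GX`** -/
theorem GX_ex (hb : b.Ok δ σ) (hδ : δ ≤ 1) (hσ : σ ≤ 1) (hh : 0 < h) (k2 : c2.2 < b.K)
    (k3 : c3.2 < b.K) (k4 : c4.2 < b.K) (n23 : c2 ≠ c3) (n24 : c2 ≠ c4) (n34 : c3 ≠ c4)
    (hv : InQ b (2 * h) v.1 v.2) (hω : ω ⊆ b.B h) :
    ∃! q, q ∈ ({c2, c3, c4} : Finset (Bool × ℕ)) ∧
      RF b (2 * h) (GX b h w c2 c3 c4 v o ω) (zc v) q := by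
  refine GG_ex (BG.of_ok hb) hh ?_ (par3 n23 n24 n34) hv (cfg_subB hb hδ hσ hh hω)
  intro c hc
  simp only [Finset.mem_insert, Finset.mem_singleton] at hc
  rcases hc with rfl | rfl | rfl
  · exact k2
  · exact k3
  · exact k4

/-- **(J2), `GP`** -/
theorem GP_ex (hb : b.Ok δ σ) (hδ : δ ≤ 1) (hσ : σ ≤ 1) (hh : 0 < h) (k2 : c2.2 < b.K)
    (k3 : c3.2 < b.K) (k4 : c4.2 < b.K) (n23 : c2 ≠ c3) (n24 : c2 ≠ c4) (n34 : c3 ≠ c4)
    (h1 : -((b.X : ℤ) * (2 * h)) < x1) (h2 : x1 < b.X * (2 * h)) (hω : ω ⊆ b.B h) :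
    ∃! q, q ∈ ({c2, c3, c4} : Finset (Bool × ℕ)) ∧
      RF b (2 * h) (GP b h w s x1 c2 c3 c4 o ω) (mc s x1) q := by
  have hM : ∀ c ∈ ({c2, c3, c4} : Finset (Bool × ℕ)), c.2 < b.K := by
    intro c hc
    simp only [Finset.mem_insert, Finset.mem_singleton] at hc
    rcases hc with rfl | rfl | rfl
    · exact k2
    · exact k3
    · exact k4
  have h1 := exP (JW_P (base := bsP w s) (s := s) (BG.of_ok hb) hh hM (par3 n23 n24 n34) h1 h2
    (symm_subB (cfg_subB (o := o) hb hδ hσ hh hω) (flp_subB (s := s) (x1 := x1))))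
  rw [DD_P] at h1
  exact h1

/-- **(J2), `GY`**: exactly one of the three possibilities -/
theorem GY_ex (hb : b.Ok δ σ) (hδ : δ ≤ 1) (hσ : σ ≤ 1) (hh : 0 < h)
    (k3 : c3.2 < b.K) (k4 : c4.2 < b.K) (n34 : c3 ≠ c4) (hv : InQ b (2 * h) v.1 v.2)
    (h1 : -((b.X : ℤ) * (2 * h)) < x1) (h2 : x1 < b.X * (2 * h)) (h3 : v.2 = Yr s → x1 < v.1)
    (hω : ω ⊆ b.B h) :
    (RF b (2 * h) (GY b h w s x1 c3 c4 v o ω) (zc v) c3 ∨
      RF b (2 * h) (GY b h w s x1 c3 c4 v o ω) (zc v) c4 ∨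
      (GY b h w s x1 c3 c4 v o ω).Reachable (zc v) (mc s x1)) ∧
    ¬ (RF b (2 * h) (GY b h w s x1 c3 c4 v o ω) (zc v) c3 ∧
      RF b (2 * h) (GY b h w s x1 c3 c4 v o ω) (zc v) c4) ∧
    ¬ (RF b (2 * h) (GY b h w s x1 c3 c4 v o ω) (zc v) c3 ∧
      (GY b h w s x1 c3 c4 v o ω).Reachable (zc v) (mc s x1)) ∧
    ¬ (RF b (2 * h) (GY b h w s x1 c3 c4 v o ω) (zc v) c4 ∧
      (GY b h w s x1 c3 c4 v o ω).Reachable (zc v) (mc s x1)) := by
  have hM : ∀ c ∈ ({c3, c4} : Finset (Bool × ℕ)), c.2 < b.K := by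
    intro c hc
    simp only [Finset.mem_insert, Finset.mem_singleton] at hc
    rcases hc with rfl | rfl
    · exact k3
    · exact k4
  have W := JW_Y (base := bsP w s) (s := s) (BG.of_ok hb) hh hM (par2 n34) hv h1 h2 h3
    (symm_subB (cfg_subB (o := o) hb hδ hσ hh hω) (flp_subB (s := s) (x1 := x1)))
  have e1 := exY W
  have e2 := fun q (hq : q ∈ ({c3, c4} : Finset (Bool × ℕ))) (h1 : RF b (2 * h) _ (zc v) q) =>
    W.zc_not_both (v := v) (s := (x1, Yr s)) rfl rfl hq h1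
  have e3 := fun q q' (hq : q ∈ ({c3, c4} : Finset (Bool × ℕ)))
    (hq' : q' ∈ ({c3, c4} : Finset (Bool × ℕ))) (h1 : RF b (2 * h) _ (zc v) q)
    (h2 : RF b (2 * h) _ (zc v) q') => W.zc_uniq (v := v) rfl hq hq' h1 h2
  rw [DD_Y] at e1 e2 e3
  refine ⟨?_, fun g => n34 (e3 _ _ (by simp) (by simp) g.1 g.2), fun g => e2 _ (by simp) g.1 g.2,
    fun g => e2 _ (by simp) g.1 g.2⟩
  rcases e1 with ⟨q, hq, g⟩ | g
  · simp only [Finset.mem_insert, Finset.mem_singleton] at hq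
    rcases hq with rfl | rfl
    · exact Or.inl g
    · exact Or.inr (Or.inl g)
  · exact Or.inr (Or.inr g)

end concrete

end Pool.Agent.H45.W
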