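import Mathlib
import Pool.Agent.H45.W.EndsJ8

set_option autoImplicit false
open Finset

/-! # Where the strands of the junction worlds end (C6, J2): moving end in the room, mark at a gap of the chunk -/

namespace Pool.Agent.H45.W

open Pool.Agent.H33.Q1 Pool.Agent.H6.W Pool.Agent.H50.W Pool.Agent.H58.W Pool.Agent.H13.W
open Pool.Agent.H61.W Pool.Agent.H99.W
open Pool.Agent.Q1.M4 (Cell)

variable {b : JBox} {δ σ : ℝ} {h : ℕ} {ω : Finset (ℤ × ℤ)} {v : ℤ × ℤ} {s : Bool} {x1 : ℤ}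

/-- a room tile in one of the two rows of the slit is to the right of the tip -/
lemma InR_right (hτ : 0 < b.τ) {n : ℤ} (hn : 0 < n) (hv : InR b n v.1 v.2) (h1 : v.2 = Yr s) :
    0 ≤ v.1 := by
  by_contra hc
  have h2 : v.1 < 0 := not_le.1 hc
  have h3 : v.1 / n < 0 := Int.ediv_neg_of_neg_of_pos h2 hn
  have h4 : v.2 / n = 0 ∨ v.2 / n = -1 := by
    rw [h1]
    unfold Yr
    split_ifs
    · exact Or.inl (Int.zero_ediv _)
    · right
      rw [divJ hn]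
      constructor <;> omega
  obtain ⟨-, h5⟩ := hv
  unfold chn at h5
  rw [if_pos h3] at h5
  have h6 : (0 : ℤ) < b.τ := by exact_mod_cast hτ
  generalize ((0 - (v.1 / n, v.2 / n).1 - 1) / (b.M : ℤ)).toNat = i at h5
  simp only at h5
  rw [if_pos (by omega)] at h5
  exact absurd h5 (by simp)

/-- a gap of the chunk is inside the box -/
lemma gap_bd (hb : b.Ok δ σ) (hδ : δ ≤ 1) (hσ : σ ≤ 1) (hh : 0 < h) {j : ℕ} (h0 : 0 < j)
    (h1 : j < b.m) (hx : x1 = -((j : ℤ) * b.M * (2 * h))) :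
    -((b.X : ℤ) * (2 * h)) < x1 ∧ x1 < 0 := by
  have hH : (0 : ℝ) < b.H := by exact_mod_cast hb.H0
  have hM := hb.M0
  have hXH : (b.H : ℝ) ≤ b.X := by
    have h1 := hb.X_ge
    have h2 : (0 : ℝ) ≤ b.X := by positivity
    nlinarith
  have hmM : (b.m : ℝ) * b.M ≤ b.X := by
    have := hb.len
    nlinarith
  have hmM' : b.m * b.M ≤ b.X := by exact_mod_cast hmM
  have h2 : j * b.M < b.m * b.M := Nat.mul_lt_mul_of_pos_right h1 hM
  have h3 : j * b.M < b.X := lt_of_lt_of_le h2 hmM'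
  have h4 : (j : ℤ) * b.M < b.X := by exact_mod_cast h3
  have h5 : (0 : ℤ) < (j : ℤ) * b.M := by positivity
  have h6 : (0 : ℤ) < 2 * h := by positivity
  rw [hx]
  constructor
  · have := mul_lt_mul_of_pos_right h4 h6
    omega
  · have := mul_pos h5 h6
    omega

section
variable {w o : Bool} {c3 c4 : Bool × ℕ}

/-- **(J2), `GY`**, moving end in the room, mark at a gap of the chunk -/
theorem GY_exR (hb : b.Ok δ σ) (hδ : δ ≤ 1) (hσ : σ ≤ 1) (hh : 0 < h)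
    (k3 : c3.2 < b.K) (k4 : c4.2 < b.K) (n34 : c3 ≠ c4) (hv : InR b (2 * h) v.1 v.2)
    {j : ℕ} (hj : 0 < j) (hj' : j < b.m) (hx : x1 = -((j : ℤ) * b.M * (2 * h)))
    (hω : ω ⊆ b.B h) :
    (RF b (2 * h) (GY b h w s x1 c3 c4 v o ω) (zc v) c3 ∨
      RF b (2 * h) (GY b h w s x1 c3 c4 v o ω) (zc v) c4 ∨
      (GY b h w s x1 c3 c4 v o ω).Reachable (zc v) (mc s x1)) ∧
    ¬ (RF b (2 * h) (GY b h w s x1 c3 c4 v o ω) (zc v) c3 ∧
      RF b (2 * h) (GY b h w s x1 c3 c4 v o ω) (zc v) c4) ∧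
    ¬ (RF b (2 * h) (GY b h w s x1 c3 c4 v o ω) (zc v) c3 ∧
      (GY b h w s x1 c3 c4 v o ω).Reachable (zc v) (mc s x1)) ∧
    ¬ (RF b (2 * h) (GY b h w s x1 c3 c4 v o ω) (zc v) c4 ∧
      (GY b h w s x1 c3 c4 v o ω).Reachable (zc v) (mc s x1)) := by
  obtain ⟨g1, g2⟩ := gap_bd hb hδ hσ hh hj hj' hx
  have hX : (0 : ℤ) ≤ (b.X : ℤ) * (2 * h) := by positivity
  refine GY_ex hb hδ hσ hh k3 k4 n34 hv.1 g1 (by omega) (fun e => ?_) hω
  have := InR_right hb.τ0 (n := 2 * h) (by positivity) hv e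
  omega

/-- **(J2), `GP`**, mark at a gap of the chunk -/
theorem GP_exR {c2 : Bool × ℕ} (hb : b.Ok δ σ) (hδ : δ ≤ 1) (hσ : σ ≤ 1) (hh : 0 < h)
    (k2 : c2.2 < b.K) (k3 : c3.2 < b.K) (k4 : c4.2 < b.K) (n23 : c2 ≠ c3) (n24 : c2 ≠ c4)
    (n34 : c3 ≠ c4) {j : ℕ} (hj : 0 < j) (hj' : j < b.m)
    (hx : x1 = -((j : ℤ) * b.M * (2 * h))) (hω : ω ⊆ b.B h) :
    ∃! q, q ∈ ({c2, c3, c4} : Finset (Bool × ℕ)) ∧
      RF b (2 * h) (GP b h w s x1 c2 c3 c4 o ω) (mc s x1) q := by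
  obtain ⟨g1, g2⟩ := gap_bd hb hδ hσ hh hj hj' hx
  have hX : (0 : ℤ) ≤ (b.X : ℤ) * (2 * h) := by positivity
  exact GP_ex hb hδ hσ hh k2 k3 k4 n23 n24 n34 g1 (by omega) hω

end

end Pool.Agent.H45.W
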