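import Mathlib
import Pool.Agent.H45.W.EndsJ9
import Pool.Agent.H61.W.JX
import Pool.Agent.H8.W.NTop

set_option autoImplicit false
open Finset

/-! # Where the strands of the junction worlds end (C6, J2): `ExX` (61) and `FarY` (8) -/

namespace Pool.Agent.H45.W

open Filter Topology
open Pool.Agent.H6.W Pool.Agent.H61.W
open Pool.Agent.Q1.M4 (lat)

variable {σ : ℝ}

/-- **exactly one far end in the `X` worlds** -/
theorem exX_all (hσ : σ ≤ 1) : ExX σ := by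
  intro b δ hb hd w o M hM hi K hK _
  refine ⟨1, fun h hh v hv ω hω => ?_⟩
  have hh0 : 0 < h := by omega
  have hp : Pool.Agent.H61.W.par M.card = true := by rw [hM]; rfl
  exact GG_ex (BG.of_ok hb) hh0 hi hp (Pool.Agent.H71.W.InR_of_mem hb hh0 (hK hv)).1
    (cfg_subB hb hd hσ hh0 hω)

/-- **the far end in the `Y` worlds** -/
theorem farY (hσ : σ ≤ 1) (S : Setup σ) : Pool.Agent.H8.W.FarY S := by
  intro b hb
  have h1 : ∀ᶠ k in atTop, S.δ k < 1 := Pool.Agent.H71.W.Setup.ev_d S one_pos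
  filter_upwards [Pool.Agent.H71.W.Setup.gp_spec S hb, Pool.Agent.H71.W.Setup.cor_spec S S.b3,
    Pool.Agent.H71.W.Setup.cor_spec S S.b4, Pool.Agent.H71.W.Setup.cor_ne S S.ne, h1] with k hg h3 h4 hne hd
  obtain ⟨j, hj, hj', hgp, -⟩ := hg
  have hh : ∀ᶠ n in atTop, 1 ≤ S.h k n := (S.mono k).tendsto_atTop.eventually_ge_atTop 1
  filter_upwards [hh] with n hn v hv ω hω o
  exact (GY_exR (S.ok k) hd.le hσ (by omega) h3.1 h4.1 hne hv hj hj' (hgp _) hω).1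

/-- the three possibilities in the `Y` worlds exclude each other -/
theorem farY_excl (hσ : σ ≤ 1) (S : Setup σ) : ∀ b : Bool × ℝ, b.2 ∈ Set.Ioo (-σ) 0 →
    ∀ᶠ k in atTop, ∀ᶠ n in atTop, ∀ v : ℤ × ℤ,
    InR (S.B k) (2 * S.h k n) v.1 v.2 → ∀ ω ⊆ (S.B k).B (S.h k n), ∀ o : Bool,
    ¬ (RF (S.B k) (2 * S.h k n) (GY (S.B k) (S.h k n) S.w b.1 (gp (S.B k) (2 * S.h k n) b.2)
        (cor (S.B k) S.b3) (cor (S.B k) S.b4) v o ω) (zc v) (cor (S.B k) S.b3) ∧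
      RF (S.B k) (2 * S.h k n) (GY (S.B k) (S.h k n) S.w b.1 (gp (S.B k) (2 * S.h k n) b.2)
        (cor (S.B k) S.b3) (cor (S.B k) S.b4) v o ω) (zc v) (cor (S.B k) S.b4)) ∧
    ¬ (RF (S.B k) (2 * S.h k n) (GY (S.B k) (S.h k n) S.w b.1 (gp (S.B k) (2 * S.h k n) b.2)
        (cor (S.B k) S.b3) (cor (S.B k) S.b4) v o ω) (zc v) (cor (S.B k) S.b3) ∧
      (GY (S.B k) (S.h k n) S.w b.1 (gp (S.B k) (2 * S.h k n) b.2)
        (cor (S.B k) S.b3) (cor (S.B k) S.b4) v o ω).Reachable (zc v)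
          (mc b.1 (gp (S.B k) (2 * S.h k n) b.2))) ∧
    ¬ (RF (S.B k) (2 * S.h k n) (GY (S.B k) (S.h k n) S.w b.1 (gp (S.B k) (2 * S.h k n) b.2)
        (cor (S.B k) S.b3) (cor (S.B k) S.b4) v o ω) (zc v) (cor (S.B k) S.b4) ∧
      (GY (S.B k) (S.h k n) S.w b.1 (gp (S.B k) (2 * S.h k n) b.2)
        (cor (S.B k) S.b3) (cor (S.B k) S.b4) v o ω).Reachable (zc v)
          (mc b.1 (gp (S.B k) (2 * S.h k n) b.2))) := by
  intro b hb
  have h1 : ∀ᶠ k in atTop, S.δ k < 1 := Pool.Agent.H71.W.Setup.ev_d S one_pos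
  filter_upwards [Pool.Agent.H71.W.Setup.gp_spec S hb, Pool.Agent.H71.W.Setup.cor_spec S S.b3,
    Pool.Agent.H71.W.Setup.cor_spec S S.b4, Pool.Agent.H71.W.Setup.cor_ne S S.ne, h1] with k hg h3 h4 hne hd
  obtain ⟨j, hj, hj', hgp, -⟩ := hg
  have hh : ∀ᶠ n in atTop, 1 ≤ S.h k n := (S.mono k).tendsto_atTop.eventually_ge_atTop 1
  filter_upwards [hh] with n hn v hv ω hω o
  exact (GY_exR (S.ok k) hd.le hσ (by omega) h3.1 h4.1 hne hv hj hj' (hgp _) hω).2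

end Pool.Agent.H45.W
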